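import Pool.Agent.X98.PC.Final
import Pool.Agent.W432.HK.Full

set_option autoImplicit false

open Polynomial

namespace Pool.Agent.X98.PC

open Pool.Agent.W432.PC (ddx ddx_algebraMap ddx_X)
open Pool.Agent.W432.WB
open Pool.Agent.W432.HK

/-- The constants of `ℚ(x)`. -/
lemma const_rat {k : Type*} [Field k] [CharZero k] {f : RatFunc k} (h : ddx k f = 0) :
    ∃ c : k, f = algebraMap k[X] (RatFunc k) (C c) := by
  have hinj : Function.Injective (algebraMap k[X] (RatFunc k)) := IsFractionRing.injective _ _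
  have hQ0 : f.denom ≠ 0 := RatFunc.denom_ne_zero f
  have hQ0' : algebraMap k[X] (RatFunc k) f.denom ≠ 0 := by
    rw [ne_eq, map_eq_zero_iff _ hinj]; exact hQ0
  have h1 : f * algebraMap k[X] (RatFunc k) f.denom = algebraMap k[X] (RatFunc k) f.num := by
    conv_lhs => rw [← RatFunc.num_div_denom f]
    rw [RatFunc.num_div_denom f]
    have := RatFunc.num_div_denom f
    rw [div_eq_iff hQ0'] at this
    exact this.symm
  have h2 := congrArg (ddx k) h1
  rw [Derivation.leibniz, h, smul_zero, add_zero, smul_eq_mul, ddx_algebraMap, ddx_algebraMap] at h2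
  -- f * Q' = P'
  have h3 : f.num * derivative f.denom = derivative f.num * f.denom := by
    apply hinj
    rw [map_mul, map_mul, ← h1, ← h2]
    ring
  have h4 : f.denom ∣ derivative f.denom := by
    have h5 : f.denom ∣ f.num * derivative f.denom := by rw [h3]; exact dvd_mul_left _ _
    exact (RatFunc.isCoprime_num_denom f).symm.dvd_of_dvd_mul_left h5
  have h5 : derivative f.denom = 0 := by
    by_contra hne
    have h6 := natDegree_le_of_dvd h4 hne
    have h7 : f.denom.natDegree ≠ 0 := by
      intro h0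
      apply hne
      rw [eq_C_of_natDegree_eq_zero h0, derivative_C]
    have h8 := natDegree_derivative_lt h7
    omega
  have h6 : derivative f.num = 0 := by
    rw [h5, mul_zero] at h3
    exact (mul_eq_zero.mp h3.symm).resolve_right hQ0
  have h7 : f.denom.natDegree = 0 := derivative_eq_zero.mp h5
  have h8 : f.num.natDegree = 0 := derivative_eq_zero.mp h6
  refine ⟨f.num.coeff 0 / f.denom.coeff 0, ?_⟩
  have h9 : f = algebraMap k[X] (RatFunc k) (C (f.num.coeff 0)) /
      algebraMap k[X] (RatFunc k) (C (f.denom.coeff 0)) := by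
    rw [← eq_C_of_natDegree_eq_zero h7, ← eq_C_of_natDegree_eq_zero h8, RatFunc.num_div_denom]
  have h10 : f.denom.coeff 0 ≠ 0 := by
    intro h0
    apply hQ0
    rw [eq_C_of_natDegree_eq_zero h7, h0, map_zero]
  have h11 : algebraMap k[X] (RatFunc k) (C (f.denom.coeff 0)) ≠ 0 := by
    rw [ne_eq, map_eq_zero_iff _ hinj]
    simpa using h10
  refine h9.trans ?_
  rw [div_eq_iff h11, ← map_mul, ← C_mul, div_mul_cancel₀ _ h10]

/-- The derivation of `k(x)` as an additive map. -/
noncomputable def ddxHom (k : Type*) [Field k] : RatFunc k →+ RatFunc k :=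
  (ddx k).toLinearMap.toAddMonoidHom

lemma ddxHom_eq (k : Type*) [Field k] : ⇑(ddxHom k) = ⇑(ddx k) := rfl

lemma ddxHom_algebraMap (k : Type*) [Field k] (q : k[X]) :
    ddxHom k (algebraMap k[X] (RatFunc k) q) = algebraMap k[X] (RatFunc k) (derivative q) :=
  ddx_algebraMap k q

lemma ddxHom_mul (k : Type*) [Field k] (x y : RatFunc k) :
    ddxHom k (x * y) = x * ddxHom k y + y * ddxHom k x := (ddx k).leibniz x y

theorem wronsk_ne {k : Type*} [Field k] [CharZero k] {n : ℕ} {b : Fin (n + 1) → ℤ[X]}
    (hb : b (Fin.last n) ≠ 0) {z : Fin n → RatFunc k} (hz : ∀ j, IsSol k b (z j))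
    (hind : ∀ c : Fin n → k, ∑ j, algebraMap k[X] (RatFunc k) (C (c j)) * z j = 0 → c = 0) :
    (Matrix.of fun j i : Fin n => (⇑(ddx k))^[(i : ℕ)] (z j)).det ≠ 0 := by
  have hinj : Function.Injective (algebraMap k[X] (RatFunc k)) := IsFractionRing.injective _ _
  have hbn : algebraMap k[X] (RatFunc k) ((b (Fin.last n)).map (Int.castRingHom k)) ≠ 0 := by
    rw [ne_eq, map_eq_zero_iff _ hinj]
    exact (Polynomial.map_ne_zero_iff Int.cast_injective).mpr hb
  intro h0
  obtain ⟨c, hc1, hc2, hc3⟩ := exists_const_relation (ddxHom k) (ddxHom_mul k) z (by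
    intro v hv
    rw [ddxHom_eq] at hv ⊢
    have h3 : ∑ j, v j * ∑ i : Fin (n + 1),
        algebraMap k[X] (RatFunc k) ((b i).map (Int.castRingHom k)) *
          (⇑(ddx k))^[(i : ℕ)] (z j) = 0 :=
      Finset.sum_eq_zero fun j _ => by
        have := hz j
        unfold IsSol at this
        rw [this, mul_zero]
    simp only [Finset.mul_sum] at h3
    rw [Finset.sum_comm, Fin.sum_univ_castSucc] at h3
    have h4 : ∑ i : Fin n, ∑ j, v j *
        (algebraMap k[X] (RatFunc k) ((b i.castSucc).map (Int.castRingHom k)) *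
          (⇑(ddx k))^[(i.castSucc : ℕ)] (z j)) = 0 := by
      refine Finset.sum_eq_zero fun i _ => ?_
      have h5 := hv i
      have h6 : ∑ j, v j *
          (algebraMap k[X] (RatFunc k) ((b i.castSucc).map (Int.castRingHom k)) *
            (⇑(ddx k))^[(i.castSucc : ℕ)] (z j)) =
          algebraMap k[X] (RatFunc k) ((b i.castSucc).map (Int.castRingHom k)) *
            ∑ j, v j * (⇑(ddx k))^[(i : ℕ)] (z j) := by
        rw [Finset.mul_sum]
        exact Finset.sum_congr rfl fun j _ => by
          rw [Fin.val_castSucc]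
          ring
      rw [h6, h5, mul_zero]
    rw [h4, zero_add] at h3
    apply (mul_eq_zero.mp _).resolve_left hbn
    rw [← h3, Finset.mul_sum]
    exact Finset.sum_congr rfl fun j _ => by
      rw [Fin.val_last]
      ring) h0
  apply hc3
  have h1 : ∀ j, ∃ q : k, c j = algebraMap k[X] (RatFunc k) (C q) := fun j => const_rat (hc1 j)
  choose q hq using h1
  have h2 := hind q (by
    rw [← hc2]
    exact Finset.sum_congr rfl fun j _ => by rw [hq j])
  ext1 j
  rw [hq j, h2]
  simp

/-- A full basis of rational solutions over the rationals is a full basis of algebraic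
solutions. -/
theorem fullAlg_of_rat {n : ℕ} {b : Fin (n + 1) → ℤ[X]} (hb : b (Fin.last n) ≠ 0)
    {z : Fin n → RatFunc ℚ} (hz : ∀ j, IsSol ℚ b (z j)) (hind : LinearIndependent ℚ z) :
    FullAlg b := by
  classical
  have hinj : Function.Injective (algebraMap ℚ[X] (RatFunc ℚ)) := IsFractionRing.injective _ _
  have hW := wronsk_ne hb hz (by
    intro c hc
    rw [Fintype.linearIndependent_iff] at hind
    have h1 := hind c (by
      rw [← hc]
      refine Finset.sum_congr rfl fun j _ => ?_
      rw [Algebra.smul_def]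
      congr 1
      have h2 : (algebraMap ℚ (RatFunc ℚ)) = (algebraMap ℚ[X] (RatFunc ℚ)).comp C :=
        Subsingleton.elim _ _
      rw [h2]
      rfl)
    ext1 j
    exact h1 j)
  -- the derivation of the algebraic closure
  obtain ⟨D, hD1⟩ := exists_derivation
  let L := AlgebraicClosure (RatFunc ℚ)
  let x : L := algebraMap (RatFunc ℚ) L RatFunc.X
  let D' : L →+ L := D.toLinearMap.toAddMonoidHom
  have hD : ∀ u v, D' (u * v) = u * D' v + v * D' u := fun u v => D.leibniz u v
  let Dz : Derivation ℤ (AlgebraicClosure (RatFunc ℚ)) (AlgebraicClosure (RatFunc ℚ)) :=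
    { toFun := fun y => D' y
      map_add' := fun u v => D'.map_add u v
      map_smul' := by
        intro z y
        rw [Algebra.smul_def, hD, zsmul_eq_mul, eq_intCast,
          show D' ((z : ℤ) : L) = 0 from D.map_intCast z, mul_zero, add_zero]
        rfl
      map_one_eq_zero' := D.map_one_eq_zero
      leibniz' := fun u v => hD u v }
  -- polynomials
  have hpoly : ∀ q : ℚ[X], algebraMap (RatFunc ℚ) L (algebraMap ℚ[X] (RatFunc ℚ) q) =
      aeval x q := by
    intro q
    rw [← IsScalarTower.algebraMap_apply ℚ[X] (RatFunc ℚ) L]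
    have h1 : x = algebraMap ℚ[X] L X := by
      rw [IsScalarTower.algebraMap_apply ℚ[X] (RatFunc ℚ) L, RatFunc.algebraMap_X]
    rw [h1, aeval_algebraMap_apply]
    simp
  have hDpoly : ∀ q : ℚ[X], D (algebraMap (RatFunc ℚ) L (algebraMap ℚ[X] (RatFunc ℚ) q)) =
      algebraMap (RatFunc ℚ) L (algebraMap ℚ[X] (RatFunc ℚ) (derivative q)) := by
    intro q
    rw [hpoly, hpoly, D.map_aeval q x, smul_eq_mul]
    have h1 : D x = 1 := hD1
    rw [h1, mul_one]
  have hDr : ∀ f : RatFunc ℚ, D (algebraMap (RatFunc ℚ) L f) =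
      algebraMap (RatFunc ℚ) L (ddx ℚ f) := by
    intro f
    have hQ0 : algebraMap ℚ[X] (RatFunc ℚ) f.denom ≠ 0 := by
      rw [ne_eq, map_eq_zero_iff _ hinj]; exact RatFunc.denom_ne_zero f
    have h1 : f * algebraMap ℚ[X] (RatFunc ℚ) f.denom = algebraMap ℚ[X] (RatFunc ℚ) f.num := by
      have := RatFunc.num_div_denom f
      rw [div_eq_iff hQ0] at this
      exact this.symm
    have h2 := congrArg (ddxHom ℚ) h1
    rw [ddxHom_mul, ddxHom_algebraMap, ddxHom_algebraMap] at h2
    show _ = algebraMap (RatFunc ℚ) L (ddxHom ℚ f)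
    have h3 := congrArg (fun u => D (algebraMap (RatFunc ℚ) L u)) h1
    simp only [map_mul] at h3
    rw [Derivation.leibniz, smul_eq_mul, smul_eq_mul, hDpoly, hDpoly, ← h2, map_add, map_mul,
      map_mul] at h3
    have h4 := add_left_cancel h3
    exact mul_left_cancel₀ (by
      rw [ne_eq, map_eq_zero_iff _ (algebraMap (RatFunc ℚ) L).injective]; exact hQ0) h4
  have hiter : ∀ (f : RatFunc ℚ) (i : ℕ), (⇑Dz)^[i] (algebraMap (RatFunc ℚ) L f) =
      algebraMap (RatFunc ℚ) L ((⇑(ddx ℚ))^[i] f) := by
    intro f i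
    induction i with
    | zero => rfl
    | succ i ih =>
      rw [Function.iterate_succ_apply', ih, Function.iterate_succ_apply']
      exact hDr _
  refine ⟨Dz, hD1, fun j => algebraMap (RatFunc ℚ) L (z j), fun j => ?_, fun c hc hsum => ?_⟩
  · have h1 := congrArg (algebraMap (RatFunc ℚ) L) (hz j)
    rw [map_sum, map_zero] at h1
    rw [← h1]
    refine Finset.sum_congr rfl fun i _ => ?_
    rw [map_mul, hiter, hpoly]
    congr 1
    rw [aeval_def, aeval_def, eval₂_map]
    congr 1
    exact RingHom.ext_int _ _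
  · have h1 : ∀ i : ℕ, ∑ j, c j * algebraMap (RatFunc ℚ) L ((⇑(ddx ℚ))^[i] (z j)) = 0 := by
      intro i
      have h2 := congrArg (⇑Dz)^[i] hsum
      have h3 : (⇑Dz)^[i] (0 : L) = 0 := by
        exact iterate_map_zero Dz i
      rw [h3] at h2
      have h4 : ∀ i : ℕ, (⇑Dz)^[i] (∑ j, c j * algebraMap (RatFunc ℚ) L (z j)) =
          ∑ j, c j * algebraMap (RatFunc ℚ) L ((⇑(ddx ℚ))^[i] (z j)) := by
        intro i
        induction i with
        | zero => rfl
        | succ i ih =>
          rw [Function.iterate_succ_apply', ih, map_sum]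
          refine Finset.sum_congr rfl fun j _ => ?_
          rw [Derivation.leibniz, hc j, smul_zero, add_zero, smul_eq_mul,
            Function.iterate_succ_apply']
          congr 1
          exact hDr _
      rw [← h4 i, h2]
    have h2 : c = 0 := by
      apply Matrix.eq_zero_of_vecMul_eq_zero (M := (Matrix.of fun j i : Fin n =>
        algebraMap (RatFunc ℚ) L ((⇑(ddx ℚ))^[(i : ℕ)] (z j))))
      · have h3 : (Matrix.of fun j i : Fin n =>
            algebraMap (RatFunc ℚ) L ((⇑(ddx ℚ))^[(i : ℕ)] (z j))) =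
            (algebraMap (RatFunc ℚ) L).mapMatrix
              (Matrix.of fun j i : Fin n => (⇑(ddx ℚ))^[(i : ℕ)] (z j)) := rfl
        rw [h3, ← RingHom.map_det, ne_eq, map_eq_zero_iff _ (algebraMap (RatFunc ℚ) L).injective]
        exact hW
      · ext1 i
        simpa [Matrix.vecMul, dotProduct] using h1 i
    intro j
    rw [h2]
    rfl

end Pool.Agent.X98.PC
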