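import Pool.Agent.X98.PC.ExpRat

set_option autoImplicit false

open Polynomial

namespace Pool.Agent.X98.PC

open Pool.Agent.W432.PC (ddx ddx_algebraMap)
open Pool.Agent.W432.WB
open Pool.Agent.W432.HK

/-- The general power threshold. -/
theorem lift_gen {n : ℕ} {b : Fin (n + 1) → ℤ[X]} (hb : b (Fin.last n) ≠ 0) :
    ∃ C D : ℕ, ∀ (p : ℕ) [Fact p.Prime] (y : RatFunc (ZMod p)), IsSol (ZMod p) b y →
      C * (ht y + 1) ^ D < p → Lifts b p y := by
  obtain ⟨N, hN0, hN⟩ := goodExp_gen hb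
  obtain ⟨N', hN0', hN'⟩ := infExp_gen hb
  obtain ⟨c₁, h₁⟩ := small_val N
  obtain ⟨c₂, h₂⟩ := small_val N'
  obtain ⟨B₁, hB₁⟩ := root_bound hN0
  obtain ⟨B₂, hB₂⟩ := root_bound hN0'
  obtain ⟨C, hC⟩ := core hb hN hN' (B₁ + B₂)
  refine ⟨c₁ + c₂ + C + n + 1, N.natDegree + N'.natDegree + 1, fun p hpf y hy hlt => ?_⟩
  set h := ht y with hh
  have hpow : ∀ d, d ≤ N.natDegree + N'.natDegree + 1 → (h + 1) ^ d ≤
      (h + 1) ^ (N.natDegree + N'.natDegree + 1) := fun d hd => Nat.pow_le_pow_right (by omega) hd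
  have h1 : 1 ≤ (h + 1) ^ (N.natDegree + N'.natDegree + 1) := Nat.one_le_pow _ _ (by omega)
  have h2 : h + 1 ≤ (h + 1) ^ (N.natDegree + N'.natDegree + 1) := by
    have := hpow 1 (by omega)
    rwa [pow_one] at this
  set X := (h + 1) ^ (N.natDegree + N'.natDegree + 1) with hX
  have e1 : (c₁ + c₂ + C + n + 1) * X = c₁ * X + c₂ * X + C * X + n * X + X := by ring
  rw [e1] at hlt
  have e2 : C ≤ C * X := Nat.le_mul_of_pos_right _ h1
  have e3 : n ≤ n * X := Nat.le_mul_of_pos_right _ h1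
  refine hC p (by omega) y hy (by omega) (fun e he hdvd => ?_) (fun e he hdvd => ?_)
  · have h3 := h₁ e p hdvd (by
      have h4 : (e.natAbs + 1) ^ N.natDegree ≤ X :=
        (Nat.pow_le_pow_left (by omega) _).trans (hpow _ (by omega))
      have h5 := Nat.mul_le_mul_left c₁ h4
      omega)
    have := hB₁ e h3
    omega
  · have h3 := h₂ e p hdvd (by
      have h4 : (e.natAbs + 1) ^ N'.natDegree ≤ X :=
        (Nat.pow_le_pow_left (by omega) _).trans (hpow _ (by omega))
      have h5 := Nat.mul_le_mul_left c₂ h4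
      omega)
    have := hB₂ e h3
    omega

/-- The linear threshold for Fuchsian operators with rational exponents. -/
theorem lift_rat {m n : ℕ} (hm : 0 < m) {b : Fin (n + 1) → ℤ[X]} {α : Fin m → AlgebraicClosure ℚ}
    {lam : Fin m → Fin n → ℚ} {phi : Fin n → ℚ} (h : FuchsianWith b α lam phi) {N₀ : ℕ}
    (hN : CommonDen lam phi N₀) :
    ∃ C : ℕ, ∀ (p : ℕ) [Fact p.Prime] (y : RatFunc (ZMod p)), IsSol (ZMod p) b y →
      N₀ * ht y + C < p → Lifts b p y := by
  classical
  obtain ⟨hN₀, ha, ha'⟩ := hN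
  choose a ha using ha
  choose a' ha' using ha'
  choose c₁ hc₁ using fun j => small_lin (Finset.univ) N₀ hN₀ (a j)
  obtain ⟨c₂, hc₂⟩ := small_lin (Finset.range n) N₀ hN₀ (fun i : ℕ => (N₀ : ℤ) * i)
  obtain ⟨c₃, hc₃⟩ := small_lin (Finset.univ) N₀ hN₀ a'
  obtain ⟨C, hC⟩ := core h.1 (goodExp_rat h ha) (infExp_rat hm h ha') (∑ j, c₁ j + c₂ + c₃)
  refine ⟨∑ j, c₁ j + c₂ + c₃ + C + n, fun p hpf y hy hlt => ?_⟩
  have hpp := hpf.out
  have hle : ht y ≤ N₀ * ht y := Nat.le_mul_of_pos_left _ hN₀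
  refine hC p (by omega) y hy (by omega) (fun e he hdvd => ?_) (fun e he hdvd => ?_)
  · have he' : N₀ * e.natAbs ≤ N₀ * ht y := Nat.mul_le_mul_left _ he
    rw [eval_mul] at hdvd
    rcases (Nat.prime_iff_prime_int.mp hpp).dvd_or_dvd hdvd with h1 | h1
    · rw [eval_prod] at h1
      obtain ⟨j, -, h2⟩ := (Prime.dvd_finsetProd_iff (Nat.prime_iff_prime_int.mp hpp) _).mp h1
      rw [eval_prod] at h2
      have hj : c₁ j ≤ ∑ j, c₁ j :=
        Finset.single_le_sum (f := fun j => c₁ j) (fun _ _ => Nat.zero_le _) (Finset.mem_univ j)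
      have h3 := hc₁ j e p hpp (by simpa using h2) (by omega)
      omega
    · rw [eval_prod] at h1
      have h3 := hc₂ e p hpp (by simpa using h1) (by omega)
      omega
  · have he' : N₀ * e.natAbs ≤ N₀ * ht y := Nat.mul_le_mul_left _ he
    rw [eval_prod] at hdvd
    have h3 := hc₃ e p hpp (by simpa using hdvd) (by omega)
    omega

/-- Under the hypothesis of the conjecture the operator is Fuchsian with rational exponents. -/
theorem fuchsian_of_cond {n : ℕ} {b : Fin (n + 1) → ℤ[X]} (hb : b (Fin.last n) ≠ 0)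
    (hc : Cond b) : ∃ (m : ℕ) (_ : 0 < m) (α : Fin m → AlgebraicClosure ℚ)
      (lam : Fin m → Fin n → ℚ) (phi : Fin n → ℚ) (N₀ : ℕ), FuchsianWith b α lam phi ∧
        CommonDen lam phi N₀ := by
  classical
  set bn := (b (Fin.last n)).map (Int.castRingHom (AlgebraicClosure ℚ)) with hbn
  have hbn0 : bn ≠ 0 := (Polynomial.map_ne_zero_iff (Int.cast_injective)).mpr hb
  let Z : Finset (AlgebraicClosure ℚ) := insert 0 bn.roots.toFinset
  let e := Z.equivFin
  let α : Fin Z.card → AlgebraicClosure ℚ := fun i => (e.symm i : AlgebraicClosure ℚ)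
  have hm : 0 < Z.card := Finset.card_pos.mpr ⟨0, Finset.mem_insert_self _ _⟩
  have hα : Function.Injective α := fun i j hij => e.symm.injective (Subtype.ext hij)
  have hroot : ∀ x, ((b (Fin.last n)).map (Int.castRingHom (AlgebraicClosure ℚ))).eval x = 0 →
      ∃ j, α j = x := by
    intro x hx
    have hxZ : x ∈ Z := by
      simp only [Z, Finset.mem_insert, Multiset.mem_toFinset]
      right
      rw [mem_roots hbn0]
      exact hx
    exact ⟨e ⟨x, hxZ⟩, by simp [α]⟩
  obtain ⟨Q, hF⟩ := isFuchs hb hc hm hα hroot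
  obtain ⟨lam, phi, hE⟩ := hasExps hb hc hF hm
  refine ⟨Z.card, hm, α, lam, phi, (∏ j, ∏ l, (lam j l).den) * ∏ l, (phi l).den,
    ⟨hb, Q, hF, hE⟩, ?_, ?_, ?_⟩
  · exact Nat.mul_pos (Finset.prod_pos fun j _ => Finset.prod_pos fun l _ => (lam j l).den_pos)
      (Finset.prod_pos fun l _ => (phi l).den_pos)
  · intro j l
    have h1 : (lam j l).den ∣ (∏ j, ∏ l, (lam j l).den) * ∏ l, (phi l).den :=
      Dvd.dvd.mul_right ((Finset.dvd_prod_of_mem (fun l => (lam j l).den) (Finset.mem_univ l)).trans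
        (Finset.dvd_prod_of_mem (fun j => ∏ l, (lam j l).den) (Finset.mem_univ j))) _
    obtain ⟨t, ht⟩ := h1
    refine ⟨t * (lam j l).num, ?_⟩
    rw [ht]
    push_cast
    rw [mul_comm ((lam j l).den : ℚ), mul_assoc, Rat.den_mul_eq_num]
  · intro l
    have h1 : (phi l).den ∣ (∏ j, ∏ l, (lam j l).den) * ∏ l, (phi l).den :=
      Dvd.dvd.mul_left (Finset.dvd_prod_of_mem (fun l => (phi l).den) (Finset.mem_univ l)) _
    obtain ⟨t, ht⟩ := h1
    refine ⟨t * (phi l).num, ?_⟩
    rw [ht]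
    push_cast
    rw [mul_comm ((phi l).den : ℚ), mul_assoc, Rat.den_mul_eq_num]

/-- Solutions which lift and are independent modulo `p` give independent solutions. -/
theorem indep_of_lifts {n r : ℕ} {b : Fin (n + 1) → ℤ[X]} {p : ℕ} [Fact p.Prime]
    {y : Fin r → RatFunc (ZMod p)} (hy : ∀ j, Lifts b p (y j))
    (hind : LinearIndependent (ZMod p) y) :
    ∃ z : Fin r → RatFunc ℚ, (∀ j, IsSol ℚ b (z j)) ∧ LinearIndependent ℚ z := by
  classical
  choose A B hB hyAB hsol using hy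
  refine ⟨_, hsol, ?_⟩
  set κ := Int.castRingHom (ZMod p) with hκ
  have hB0 : ∀ j, B j ≠ 0 := by
    intro j h
    apply hB j
    rw [h, Polynomial.map_zero]
  have hinjQ : Function.Injective (algebraMap ℚ[X] (RatFunc ℚ)) := IsFractionRing.injective _ _
  have hinjp : Function.Injective (algebraMap (ZMod p)[X] (RatFunc (ZMod p))) :=
    IsFractionRing.injective _ _
  rw [Fintype.linearIndependent_iff]
  intro g hg
  by_contra hne
  push Not at hne
  obtain ⟨i₀, hi₀⟩ := hne
  -- clear denominators and common factors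
  obtain ⟨c, hc0, hcsum⟩ : ∃ c : Fin r → ℤ, (∃ i, c i ≠ 0) ∧ ∀ {M : Type} [AddCommGroup M]
      [Module ℚ M] (v : Fin r → M), ∑ j, g j • v j = 0 → ∑ j, ((c j : ℤ) : ℚ) • v j = 0 := by
    let t : ℕ := ∏ j, (g j).den
    have h1 : ∀ j, ∃ z : ℤ, (t : ℚ) * g j = z := by
      intro j
      obtain ⟨u, hu⟩ := Finset.dvd_prod_of_mem (fun j => (g j).den) (Finset.mem_univ j)
      refine ⟨u * (g j).num, ?_⟩
      have h2 : t = (g j).den * u := hu
      rw [h2]
      push_cast
      rw [mul_comm ((g j).den : ℚ), mul_assoc, Rat.den_mul_eq_num]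
    choose c hc using h1
    have ht : (t : ℚ) ≠ 0 := by
      have : t ≠ 0 := Finset.prod_ne_zero_iff.mpr fun j _ => (g j).den_ne_zero
      exact_mod_cast this
    refine ⟨c, ⟨i₀, fun h => ?_⟩, fun v hv => ?_⟩
    · have h2 := hc i₀
      rw [h, Int.cast_zero] at h2
      rcases mul_eq_zero.mp h2 with h3 | h3
      · exact ht h3
      · exact hi₀ h3
    · have h2 : ∀ j, ((c j : ℤ) : ℚ) • v j = (t : ℚ) • (g j • v j) := by
        intro j
        rw [smul_smul, hc j]
      rw [Finset.sum_congr rfl fun j _ => h2 j, ← Finset.smul_sum, hv, smul_zero]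
  have hsum := hcsum _ hg
  -- the relation between polynomials
  have hrel : ∑ j, C (c j) * (A j * ∏ i ∈ Finset.univ.erase j, B i) = 0 := by
    apply (Polynomial.map_injective (Int.castRingHom ℚ) Int.cast_injective)
    apply hinjQ
    rw [Polynomial.map_sum, map_sum, Polynomial.map_zero, map_zero]
    have h1 := congrArg (fun x => x * ∏ i, algebraMap ℚ[X] (RatFunc ℚ)
      ((B i).map (Int.castRingHom ℚ))) hsum
    simp only [zero_mul, Finset.sum_mul] at h1
    rw [← h1]
    refine Finset.sum_congr rfl fun j _ => ?_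
    rw [← Finset.mul_prod_erase Finset.univ _ (Finset.mem_univ j)]
    have hBj : algebraMap ℚ[X] (RatFunc ℚ) ((B j).map (Int.castRingHom ℚ)) ≠ 0 := by
      rw [ne_eq, map_eq_zero_iff _ hinjQ]
      exact (Polynomial.map_ne_zero_iff Int.cast_injective).mpr (hB0 j)
    rw [Polynomial.map_mul, Polynomial.map_mul, Polynomial.map_prod, map_C, map_mul, map_mul,
      map_prod, Algebra.smul_def]
    have h2 : algebraMap ℚ (RatFunc ℚ) ((c j : ℤ) : ℚ) =
        algebraMap ℚ[X] (RatFunc ℚ) (C ((Int.castRingHom ℚ) (c j))) := by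
      rw [IsScalarTower.algebraMap_apply ℚ ℚ[X] (RatFunc ℚ)]
      rfl
    rw [h2]
    field_simp
  -- divide by the greatest common divisor
  set G := Finset.univ.gcd c with hG
  have hG0 : G ≠ 0 := by
    obtain ⟨i, hi⟩ := hc0
    intro h
    exact hi (Finset.gcd_eq_zero_iff.mp h i (Finset.mem_univ i))
  obtain ⟨d, hd, hd1⟩ := Finset.extract_gcd c (s := Finset.univ) (by
    obtain ⟨i, _⟩ := hc0
    exact ⟨i, Finset.mem_univ i⟩)
  have hrel' : ∑ j, C (d j) * (A j * ∏ i ∈ Finset.univ.erase j, B i) = 0 := by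
    have h1 : C G * ∑ j, C (d j) * (A j * ∏ i ∈ Finset.univ.erase j, B i) = 0 := by
      rw [← hrel, Finset.mul_sum]
      refine Finset.sum_congr rfl fun j _ => ?_
      rw [hd j (Finset.mem_univ j), C_mul]
      ring
    exact (mul_eq_zero.mp h1).resolve_left (by simpa using hG0)
  have hdp : ∃ j, ((d j : ℤ) : ZMod p) ≠ 0 := by
    by_contra hno
    push Not at hno
    have h1 : (p : ℤ) ∣ Finset.univ.gcd d :=
      Finset.dvd_gcd fun j _ => (ZMod.intCast_zmod_eq_zero_iff_dvd _ p).mp (hno j)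
    rw [hd1] at h1
    have h2 := Int.natAbs_dvd_natAbs.mpr h1
    rw [Int.natAbs_natCast, Int.natAbs_one, Nat.dvd_one] at h2
    exact (Fact.out : p.Prime).one_lt.ne' h2
  obtain ⟨j₀, hj₀⟩ := hdp
  rw [Fintype.linearIndependent_iff] at hind
  apply hj₀
  refine hind (fun j => ((d j : ℤ) : ZMod p)) ?_ j₀
  have hBp : ∏ i, algebraMap (ZMod p)[X] (RatFunc (ZMod p)) ((B i).map κ) ≠ 0 :=
    Finset.prod_ne_zero_iff.mpr fun i _ => by
      rw [ne_eq, map_eq_zero_iff _ hinjp]
      exact hB i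
  apply (mul_eq_zero.mp _).resolve_right hBp
  have h1 := congrArg (fun q => algebraMap (ZMod p)[X] (RatFunc (ZMod p)) (q.map κ)) hrel'
  simp only [Polynomial.map_zero, map_zero, Polynomial.map_sum, map_sum] at h1
  rw [Finset.sum_mul, ← h1]
  refine Finset.sum_congr rfl fun j _ => ?_
  rw [← Finset.mul_prod_erase Finset.univ _ (Finset.mem_univ j), hyAB j]
  have hBj : algebraMap (ZMod p)[X] (RatFunc (ZMod p)) ((B j).map κ) ≠ 0 := by
    rw [ne_eq, map_eq_zero_iff _ hinjp]
    exact hB j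
  rw [Polynomial.map_mul, Polynomial.map_mul, Polynomial.map_prod, map_C, map_mul, map_mul,
    map_prod, Algebra.smul_def]
  have h2 : algebraMap (ZMod p) (RatFunc (ZMod p)) ((d j : ℤ) : ZMod p) =
      algebraMap (ZMod p)[X] (RatFunc (ZMod p)) (C (κ (d j))) := by
    rw [IsScalarTower.algebraMap_apply (ZMod p) (ZMod p)[X] (RatFunc (ZMod p))]
    rfl
  rw [h2]
  field_simp

end Pool.Agent.X98.PC
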