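import Pool.Agent.X98.PC.Tw

set_option autoImplicit false

open Polynomial

namespace Pool.Agent.X98.PC

open Pool.Agent.W432.PC (T Tc T_eq T_monic T_ne T_natDegree Tc_monic Tc_eval_ne T_map Tc_map
  exists_closed_point)
open Pool.Agent.W432.WB
open Pool.Agent.W432.HK (lead_loc lead_inf dsum dsum_eval dsum_ne_zero map_ne_of_large FuchsianWith
  CommonDen)

/-- Reduction of a Fuchsian operator modulo all large primes, avoiding a given nonzero element. -/
theorem reduce' {m n : ℕ} {b : Fin (n + 1) → ℤ[X]} {α : Fin m → AlgebraicClosure ℚ}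
    {Q : Fin (n + 1) → (AlgebraicClosure ℚ)[X]} (hb : b (Fin.last n) ≠ 0) (hF : IsFuchs b α Q)
    (S₀ : Finset (AlgebraicClosure ℚ)) :
    ∃ (R : Type) (_ : CommRing R) (_ : IsDomain R) (ι : R →+* AlgebraicClosure ℚ) (α' : Fin m → R)
      (Q' : Fin (n + 1) → R[X]), Function.Injective ι ∧ (∀ j, ι (α' j) = α j) ∧
      (∀ k, (Q' k).map ι = Q k) ∧ (∀ x ∈ S₀, ∃ y, ι y = x) ∧ ∀ g : R, g ≠ 0 →
        ∃ P₀ : ℕ, ∀ p : ℕ, P₀ < p → p.Prime →
        ∃ (K : Type) (_ : Field K) (_ : CharP K p) (_ : IsAlgClosed K) (φ : R →+* K),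
          φ g ≠ 0 ∧ Function.Injective (fun j => φ (α' j)) ∧ ∀ y : K[X],
            ∑ k : Fin (n + 1), (b k).map (Int.castRingHom K) * derivative^[(k : ℕ)] y = 0 →
            ∑ k : Fin (n + 1), (Q' k).map φ * (T (fun j => φ (α' j)) ^ (k : ℕ) *
              derivative^[(k : ℕ)] y) = 0 := by
  classical
  let S : Finset (AlgebraicClosure ℚ) := ((Finset.univ.image α) ∪
    (Finset.univ.image fun x : Fin m × Fin m => (α x.1 - α x.2)⁻¹) ∪
    (Finset.univ.biUnion fun k : Fin (n + 1) => (Q k).support.image (Q k).coeff)) ∪ S₀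
  obtain ⟨R, _, hdom, _, _, ι, hι, hS⟩ := exists_ring S
  have hα' : ∀ j, ∃ x, ι x = α j := fun j => hS _ (by
    simp only [S, Finset.mem_union, Finset.mem_image, Finset.mem_univ, true_and]
    exact Or.inl (Or.inl (Or.inl ⟨j, rfl⟩)))
  choose α' hα' using hα'
  have hinv : ∀ i j, ∃ x, ι x = (α i - α j)⁻¹ := fun i j => hS _ (by
    simp only [S, Finset.mem_union, Finset.mem_image, Finset.mem_univ, true_and]
    exact Or.inl (Or.inl (Or.inr ⟨(i, j), rfl⟩)))
  have hQl : ∀ k, ∃ P : R[X], P.map ι = Q k := fun k => exists_lift ι (Q k) fun i hi => hS _ (by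
    simp only [S, Finset.mem_union, Finset.mem_biUnion, Finset.mem_univ, true_and]
    exact Or.inl (Or.inr ⟨k, Finset.mem_image.mpr ⟨i, hi, rfl⟩⟩))
  choose Q' hQ' using hQl
  have hαe : (fun j => ι (α' j)) = α := funext hα'
  refine ⟨R, inferInstance, hdom, ι, α', Q', hι, hα', hQ', fun x hx => hS x
    (Finset.mem_union_right _ hx), fun g hg => ?_⟩
  obtain ⟨P₁, hP₁⟩ := exists_closed_point R hg
  refine ⟨max P₁ (b (Fin.last n)).leadingCoeff.natAbs, fun p hp hpp => ?_⟩
  rw [max_lt_iff] at hp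
  obtain ⟨𝔪, h𝔪, hpm, hgm⟩ := hP₁ p hpp hp.1
  obtain ⟨K, _, _, _, φ, hφ⟩ := geo hpp hpm
  have hbK := map_ne_of_large (K := K) hb hp.2
  have hinj : Function.Injective (fun j => φ (α' j)) := by
    intro i j hij
    by_contra hne
    obtain ⟨x, hx⟩ := hinv i j
    have h1 : (α' i - α' j) * x = 1 := by
      apply hι
      rw [map_mul, map_sub, hα', hα', hx, map_one]
      exact mul_inv_cancel₀ (sub_ne_zero.mpr fun h => hne (hF.inj h))
    have h2 := congrArg φ h1
    simp only at hij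
    rw [map_mul, map_sub, hij, sub_self, zero_mul, map_one] at h2
    exact zero_ne_one h2
  refine ⟨K, inferInstance, inferInstance, inferInstance, φ, hφ g hgm, hinj, fun y hy => ?_⟩
  have hcast : ι.comp (Int.castRingHom R) = Int.castRingHom (AlgebraicClosure ℚ) :=
    RingHom.ext_int _ _
  have hcast' : φ.comp (Int.castRingHom R) = Int.castRingHom K :=
    RingHom.ext_int _ _
  have hbQ : ∀ k : Fin (n + 1), T α' ^ (n - (k : ℕ)) * (b k).map (Int.castRingHom R) =
      (b (Fin.last n)).map (Int.castRingHom R) * Q' k := by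
    intro k
    apply map_injective ι hι
    rw [Polynomial.map_mul, Polynomial.map_mul, Polynomial.map_pow, T_map, Polynomial.map_map,
      Polynomial.map_map, hcast, hQ', hαe]
    exact hF.eq k
  apply mul_left_cancel₀ hbK
  rw [mul_zero, Finset.mul_sum]
  have h2 := congrArg (fun x => T (fun j => φ (α' j)) ^ n * x) hy
  simp only [mul_zero, Finset.mul_sum] at h2
  rw [← h2]
  refine Finset.sum_congr rfl fun k _ => ?_
  have h4 := congrArg (Polynomial.map φ) (hbQ k)
  rw [Polynomial.map_mul, Polynomial.map_mul, Polynomial.map_pow, T_map, Polynomial.map_map,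
    Polynomial.map_map, hcast'] at h4
  have h3 : T (fun j => φ (α' j)) ^ n =
      T (fun j => φ (α' j)) ^ (k : ℕ) * T (fun j => φ (α' j)) ^ (n - (k : ℕ)) := by
    rw [← pow_add]
    congr 1
    have := k.isLt
    omega
  rw [h3]
  linear_combination (-(T (fun j => φ (α' j)) ^ (k : ℕ) * derivative^[(k : ℕ)] y)) * h4

section

variable {m n : ℕ} {R : Type*} [CommRing R] {ι : R →+* AlgebraicClosure ℚ}
  {α : Fin m → AlgebraicClosure ℚ} {Q : Fin (n + 1) → (AlgebraicClosure ℚ)[X]} {α' : Fin m → R}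
  {Q' : Fin (n + 1) → R[X]} {K : Type*} [Field K] {φ : R →+* K}
  {lam : Fin m → Fin n → ℚ} {phi : Fin n → ℚ}

/-- Orders at the singular points. -/
lemma loc_exp (hι : Function.Injective ι) (hα' : ∀ j, ι (α' j) = α j)
    (hQ' : ∀ k, (Q' k).map ι = Q k) (hE : HasExps α Q lam phi)
    (hinj : Function.Injective (fun j => φ (α' j))) {N₀ : ℕ} {a : Fin m → Fin n → ℤ}
    (ha : ∀ j l, (N₀ : ℚ) * lam j l = a j l) {f : K[X]} (hf0 : f ≠ 0)
    (hsolf : ∑ k : Fin (n + 1), (Q' k).map φ * (T (fun j => φ (α' j)) ^ (k : ℕ) *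
      derivative^[(k : ℕ)] f) = 0) (j : Fin m) :
    ∃ l, (N₀ : K) * (f.rootMultiplicity (φ (α' j)) : K) = ((a j l : ℤ) : K) := by
  classical
  have hαe : (fun j => ι (α' j)) = α := funext hα'
  have hQe : (fun k => (Q' k).map ι) = Q := funext hQ'
  set e : K := ((f.rootMultiplicity (φ (α' j)) : ℕ) : K) with he
  have hlead := lead_loc (c := fun k : Fin (n + 1) => (Q' k).map φ *
      Tc (fun j => φ (α' j)) j ^ (k : ℕ)) (x₀ := φ (α' j)) hf0 (by
    rw [← hsolf]
    refine Finset.sum_congr rfl fun k _ => ?_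
    rw [T_eq (α := fun j => φ (α' j)) j, mul_pow]
    ring)
  have hind : ((indLoc α' Q' j).map φ).eval e = 0 := by
    rw [indLoc_map, ← hlead]
    unfold indLoc
    rw [eval_finsetSum]
    refine Finset.sum_congr rfl fun k _ => ?_
    rw [eval_mul, eval_C, eval_mul, eval_pow, he,
      ← derivative_T_eval (fun j => φ (α' j)) j]
  have hcl := clear ι hι (I := indLoc α' Q' j) (u := (derivative (T α')).eval (α' j) ^ n)
    (lam := lam j) (N₀ := N₀) (a := a j) (by
      rw [indLoc_map, hαe, hQe, hE.1 j]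
      congr 2
      rw [map_pow, ← eval_map_apply, ← derivative_map, T_map, hαe, hα']) (ha j)
  have h1 := congrArg (fun q => (q.map φ).eval e) hcl
  simp only [Polynomial.map_mul, eval_mul] at h1
  rw [hind, mul_zero, map_C, eval_C, map_pow] at h1
  have hT' : φ ((derivative (T α')).eval (α' j)) ≠ 0 := by
    rw [← eval_map_apply, ← derivative_map, T_map, derivative_T_eval (fun j => φ (α' j)) j]
    exact Tc_eval_ne hinj j
  have h2 := (mul_eq_zero.mp h1.symm).resolve_left (pow_ne_zero _ hT')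
  rw [Polynomial.map_prod, eval_prod, Finset.prod_eq_zero_iff] at h2
  obtain ⟨l, -, h3⟩ := h2
  refine ⟨l, ?_⟩
  simp only [Polynomial.map_sub, Polynomial.map_mul, map_C, map_X, map_natCast, map_intCast,
    eval_sub, eval_mul, eval_X, eval_natCast, eval_intCast, Polynomial.map_natCast,
    Polynomial.map_intCast, C_eq_natCast] at h3
  exact sub_eq_zero.mp h3

/-- Degrees of the solutions. -/
lemma inf_exp (hm : 0 < m) (hι : Function.Injective ι) 
    (hQ' : ∀ k, (Q' k).map ι = Q k) (hlast : Q (Fin.last n) = 1)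
    (hdeg : ∀ k : Fin (n + 1), (Q k).natDegree ≤ (n - (k : ℕ)) * (m - 1)) (hE : HasExps α Q lam phi)
    {N₀ : ℕ} {a : Fin n → ℤ} (ha : ∀ l, (N₀ : ℚ) * phi l = a l) {f : K[X]} (hf0 : f ≠ 0)
    (hsolf : ∑ k : Fin (n + 1), (Q' k).map φ * (T (fun j => φ (α' j)) ^ (k : ℕ) *
      derivative^[(k : ℕ)] f) = 0) :
    ∃ l, (N₀ : K) * (f.natDegree : K) = ((a l : ℤ) : K) := by
  classical
  have hQe : (fun k => (Q' k).map ι) = Q := funext hQ'
  have hQdeg : ∀ k : Fin (n + 1), ((Q' k).map φ).natDegree ≤ (n - (k : ℕ)) * (m - 1) := by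
    intro k
    refine natDegree_map_le.trans ?_
    rw [← natDegree_map_eq_of_injective hι, hQ']
    exact hdeg k
  have hcoeff : ∀ k : Fin (n + 1), n * m =
      ((n - (k : ℕ)) * (m - 1)) + ((n - (k : ℕ)) + (k : ℕ) * m) := by
    intro k
    have hk := k.isLt
    obtain ⟨m', rfl⟩ : ∃ m', m = m' + 1 := ⟨m - 1, by omega⟩
    obtain ⟨t, ht⟩ : ∃ t, n = t + (k : ℕ) := ⟨n - k, by omega⟩
    have h1 : n - (k : ℕ) = t := by omega
    rw [h1, Nat.add_sub_cancel]
    conv_lhs => rw [ht]
    ring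
  have hTd : ∀ k : Fin (n + 1), (X ^ (n - (k : ℕ)) * T (fun j => φ (α' j)) ^ (k : ℕ)).natDegree =
      (n - (k : ℕ)) + (k : ℕ) * m := by
    intro k
    rw [natDegree_mul (pow_ne_zero _ X_ne_zero) (pow_ne_zero _ T_ne), natDegree_X_pow,
      natDegree_pow, T_natDegree]
  have hTl : ∀ k : Fin (n + 1), (X ^ (n - (k : ℕ)) * T (fun j => φ (α' j)) ^ (k : ℕ)).coeff
      ((n - (k : ℕ)) + (k : ℕ) * m) = 1 := by
    intro k
    have h1 := ((monic_X_pow (n - (k : ℕ))).mul
      ((T_monic (α := fun j => φ (α' j))).pow (k : ℕ))).coeff_natDegree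
    rwa [hTd k] at h1
  have hG : ∀ k : Fin (n + 1), ((Q' k).map φ *
      (X ^ (n - (k : ℕ)) * T (fun j => φ (α' j)) ^ (k : ℕ))).coeff (n * m) =
      ((Q' k).map φ).coeff ((n - (k : ℕ)) * (m - 1)) := by
    intro k
    rw [hcoeff k, coeff_mul_add_eq_of_natDegree_le (hQdeg k) (hTd k).le, hTl, mul_one]
  have hlead := lead_inf
    (g := fun k => (Q' k).map φ * (X ^ (n - (k : ℕ)) * T (fun j => φ (α' j)) ^ (k : ℕ)))
    (D := n * m)
    (fun k => by
      refine natDegree_mul_le.trans ?_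
      rw [hTd, hcoeff k]
      have := hQdeg k
      omega) hf0
    (by
      have h2 := congrArg (fun x => X ^ n * x) hsolf
      simp only [mul_zero, Finset.mul_sum] at h2
      rw [← h2]
      refine Finset.sum_congr rfl fun k _ => ?_
      have h3 : (X : K[X]) ^ n = X ^ (n - (k : ℕ)) * X ^ (k : ℕ) := by
        rw [← pow_add]
        congr 1
        have := k.isLt
        omega
      rw [h3]
      ring)
  set e : K := ((f.natDegree : ℕ) : K) with he
  have hind : ((indInf m Q').map φ).eval e = 0 := by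
    rw [indInf_map, ← hlead]
    unfold indInf
    rw [eval_finsetSum]
    refine Finset.sum_congr rfl fun k _ => ?_
    rw [eval_mul, eval_C, hG]
  have hcl := clear ι hι (I := indInf m Q') (u := 1) (lam := phi) (N₀ := N₀) (a := a) (by
    rw [indInf_map, hQe, hE.2]
    simp) ha
  have h1 := congrArg (fun q => (q.map φ).eval e) hcl
  simp only [Polynomial.map_mul, eval_mul] at h1
  rw [hind, mul_zero, map_one, Polynomial.map_one, eval_one, one_mul, Polynomial.map_prod,
    eval_prod] at h1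
  obtain ⟨l, -, h3⟩ := Finset.prod_eq_zero_iff.mp h1.symm
  refine ⟨l, ?_⟩
  simp only [Polynomial.map_sub, Polynomial.map_mul, map_C, map_X, map_natCast, map_intCast,
    eval_sub, eval_mul, eval_X, eval_natCast, eval_intCast, Polynomial.map_natCast,
    Polynomial.map_intCast, C_eq_natCast] at h3
  exact sub_eq_zero.mp h3

end

end Pool.Agent.X98.PC
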