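import Pool.Agent.X98.PC.Tw
import Pool.Agent.X98.PC.Alg
import Pool.Agent.W432.HK.Full

set_option autoImplicit false

open Polynomial

namespace Pool.Agent.X98.PC

open Pool.Agent.W432.PC (T Tc T_eq T_monic T_ne T_natDegree Tc_monic Tc_eval_ne Tc_eval_eq_zero
  T_eval_ne T_map Tc_map ddx ddx_algebraMap)
open Pool.Agent.W432.WB
open Pool.Agent.W432.HK

section

variable {F L : Type*} [Field F] [Field L] [CharZero F] {m : ℕ} {S : Type*} [Fintype S]
  (D : L →+ L)
  (hD : ∀ x y, D (x * y) = x * D y + y * D x) (ι : F →+* L) (x : L) (hx : D x = 1)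
  (hι : ∀ c, D (ι c) = 0)

include hD hx hι

/-- Independence of classes of monomial functions over rational functions. -/
lemma indep' {α : Fin m → F} (hα : Function.Injective α) (ν : S → Fin m → F)
    (hν : ∀ s s', s ≠ s' → ∃ j, ∀ z : ℤ, ν s j - ν s' j ≠ z) (e : S → L)
    (he : ∀ s, (T α).eval₂ ι x * D (e s) = (∑ j, C (ν s j) * Tc α j).eval₂ ι x * e s)
    (A : S → F[X]) (hA : ∑ s, (A s).eval₂ ι x * e s = 0) : ∀ s, A s = 0 ∨ e s = 0 := by
  classical
  by_contra hcon
  push Not at hcon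
  induction hd : (Finset.univ.filter fun s => A s ≠ 0 ∧ e s ≠ 0).card using
    Nat.strong_induction_on generalizing A with
  | _ d ih =>
    subst hd
    obtain ⟨s₁, hs1, hs1'⟩ := hcon
    by_cases h2 : ∃ s₂, s₂ ≠ s₁ ∧ A s₂ ≠ 0 ∧ e s₂ ≠ 0
    · obtain ⟨s₂, h21, hs2, hs2'⟩ := h2
      let P : S → F[X] := fun s => T α * derivative (A s) + (∑ j, C (ν s j) * Tc α j) * A s
      let A' : S → F[X] := fun s => A s₁ * P s - P s₁ * A s
      have hrel : ∑ s, (A' s).eval₂ ι x * e s = 0 := by
        have h3 := congrArg D hA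
        rw [map_zero, map_sum] at h3
        simp only [hD, D_eval D hD ι x hx hι] at h3
        have h4 : ∑ s, (P s).eval₂ ι x * e s = 0 := by
          have h5 : (T α).eval₂ ι x * ∑ s, ((A s).eval₂ ι x * D (e s) +
              e s * (derivative (A s)).eval₂ ι x) = 0 := by rw [h3, mul_zero]
          rw [Finset.mul_sum] at h5
          rw [← h5]
          refine Finset.sum_congr rfl fun s _ => ?_
          simp only [P, eval₂_add, eval₂_mul]
          linear_combination (-(A s).eval₂ ι x) * he s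
        simp only [A', eval₂_sub, eval₂_mul, sub_mul, Finset.sum_sub_distrib, mul_assoc,
          ← Finset.mul_sum]
        rw [h4, hA, mul_zero, mul_zero, sub_zero]
      have hA'1 : A' s₁ = 0 := by simp only [A']; ring
      have hsub : (Finset.univ.filter fun s => A' s ≠ 0 ∧ e s ≠ 0) ⊆
          (Finset.univ.filter fun s => A s ≠ 0 ∧ e s ≠ 0).erase s₁ := by
        intro s hs
        obtain ⟨-, hs3, hs4⟩ := Finset.mem_filter.mp hs
        refine Finset.mem_erase.mpr ⟨?_, Finset.mem_filter.mpr ⟨Finset.mem_univ _, ?_, hs4⟩⟩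
        · rintro rfl; exact hs3 hA'1
        · intro h0
          apply hs3
          simp [A', P, h0]
      have hlt : (Finset.univ.filter fun s => A' s ≠ 0 ∧ e s ≠ 0).card <
          (Finset.univ.filter fun s => A s ≠ 0 ∧ e s ≠ 0).card :=
        lt_of_le_of_lt (Finset.card_le_card hsub) (Finset.card_erase_lt_of_mem
          (Finset.mem_filter.mpr ⟨Finset.mem_univ _, hs1, hs1'⟩))
      have hA'2 : A' s₂ = 0 := by
        by_contra hne
        exact ih _ hlt A' hrel ⟨s₂, hne, hs2'⟩ rfl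
      have h3 : T α * (derivative (A s₂) * A s₁ - A s₂ * derivative (A s₁)) =
          (∑ j, C (ν s₁ j - ν s₂ j) * Tc α j) * (A s₂ * A s₁) := by
        have h4 : ∑ j, C (ν s₁ j - ν s₂ j) * Tc α j =
            ∑ j, C (ν s₁ j) * Tc α j - ∑ j, C (ν s₂ j) * Tc α j := by
          rw [← Finset.sum_sub_distrib]
          exact Finset.sum_congr rfl fun j _ => by rw [C_sub, sub_mul]
        rw [h4]
        simp only [A', P] at hA'2
        linear_combination hA'2
      obtain ⟨j₀, hj₀⟩ := hν s₁ s₂ (Ne.symm h21)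
      obtain ⟨z, hz⟩ := res_int hα _ hs2 hs1 h3 j₀
      exact hj₀ z hz
    · push Not at h2
      have h3 : ∑ s, (A s).eval₂ ι x * e s = (A s₁).eval₂ ι x * e s₁ := by
        rw [Finset.sum_eq_single s₁]
        · intro s _ hs
          by_cases h4 : A s = 0
          · rw [h4, eval₂_zero, zero_mul]
          · rw [h2 s hs h4, mul_zero]
        · intro h; exact absurd (Finset.mem_univ _) h
      rw [h3] at hA
      rcases mul_eq_zero.mp hA with h4 | h4
      · exact hs1 (eval_inj D hD ι x hx hι h4)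
      · exact hs1' h4

end

/-- Constants of an algebraic extension of `k(x)` are algebraic over `k`. -/
lemma const_algebraic {k : Type*} [Field k] [CharZero k] {L : Type*} [Field L]
    [Algebra (RatFunc k) L] (D : L →+ L) (hD : ∀ x y, D (x * y) = x * D y + y * D x)
    (hDr : ∀ f : RatFunc k, D (algebraMap (RatFunc k) L f) = algebraMap (RatFunc k) L (ddxHom k f))
    {c : L} (hc : D c = 0) (halg : IsAlgebraic (RatFunc k) c) :
    ∃ q : k[X], q ≠ 0 ∧
      q.eval₂ ((algebraMap (RatFunc k) L).comp ((algebraMap k[X] (RatFunc k)).comp C)) c = 0 := by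
  classical
  have hint : IsIntegral (RatFunc k) c := halg.isIntegral
  set P := minpoly (RatFunc k) c with hP
  have hPm : P.Monic := minpoly.monic hint
  have hcpow : ∀ i : ℕ, D (c ^ i) = 0 := by
    intro i
    induction i with
    | zero =>
      rw [pow_zero]
      have h1 := hD 1 1
      simp only [mul_one, one_mul] at h1
      simpa using h1
    | succ i ih => rw [pow_succ, hD, hc, ih]; simp
  -- the derivative of the minimal polynomial
  let P' : (RatFunc k)[X] := ∑ i ∈ Finset.range (P.natDegree + 1), monomial i (ddxHom k (P.coeff i))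
  have hP'c : ∀ i, P'.coeff i = ddxHom k (P.coeff i) := by
    intro i
    simp only [P', finsetSum_coeff, coeff_monomial]
    rw [Finset.sum_ite_eq']
    split_ifs with h
    · rfl
    · rw [Finset.mem_range, not_lt] at h
      rw [coeff_eq_zero_of_natDegree_lt (by omega), map_zero]
  have hev : aeval c P' = 0 := by
    have h1 : aeval c P = 0 := minpoly.aeval _ _
    rw [aeval_eq_sum_range] at h1
    have h2 := congrArg D h1
    rw [map_sum, map_zero] at h2
    simp only [P', map_sum, aeval_monomial]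
    rw [← h2]
    refine Finset.sum_congr rfl fun i _ => ?_
    rw [Algebra.smul_def, hD, hcpow, mul_zero, zero_add, hDr, mul_comm]
  have hdeg : P'.degree < P.degree := by
    rw [degree_eq_natDegree hPm.ne_zero, degree_lt_iff_coeff_zero]
    intro i hi
    rw [hP'c]
    rcases Nat.eq_or_lt_of_le hi with h | h
    · rw [← h, hPm.coeff_natDegree]
      exact (ddx k).map_one_eq_zero
    · rw [coeff_eq_zero_of_natDegree_lt h, map_zero]
  have hP'0 : P' = 0 := by
    by_contra hne
    exact absurd hdeg (not_lt.mpr (minpoly.degree_le_of_ne_zero _ _ hne hev))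
  have hcoef : ∀ i, ∃ a : k, P.coeff i = algebraMap k[X] (RatFunc k) (C a) := by
    intro i
    apply const_rat
    have h1 := hP'c i
    rw [hP'0, coeff_zero] at h1
    exact h1.symm
  choose a ha using hcoef
  let q : k[X] := ∑ i ∈ Finset.range (P.natDegree + 1), monomial i (a i)
  have hqmap : q.map ((algebraMap k[X] (RatFunc k)).comp C) = P := by
    ext i
    simp only [q, Polynomial.map_sum, map_monomial, finsetSum_coeff, coeff_monomial]
    rw [Finset.sum_ite_eq']
    split_ifs with h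
    · rw [ha i]; rfl
    · rw [Finset.mem_range, not_lt] at h
      rw [coeff_eq_zero_of_natDegree_lt (by omega)]
  refine ⟨q, ?_, ?_⟩
  · intro h0
    rw [h0, Polynomial.map_zero] at hqmap
    exact hPm.ne_zero hqmap.symm
  · rw [← eval₂_map, hqmap]
    exact minpoly.aeval _ _

/-- The derivation of the algebraic closure extends `d / dx`. -/
lemma D_ratfunc (D : Derivation ℚ (AlgebraicClosure (RatFunc ℚ)) (AlgebraicClosure (RatFunc ℚ)))
    (hD1 : D (algebraMap (RatFunc ℚ) (AlgebraicClosure (RatFunc ℚ)) RatFunc.X) = 1)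
    (f : RatFunc ℚ) : D (algebraMap (RatFunc ℚ) (AlgebraicClosure (RatFunc ℚ)) f) =
      algebraMap (RatFunc ℚ) (AlgebraicClosure (RatFunc ℚ)) (ddxHom ℚ f) := by
  have hinj : Function.Injective (algebraMap ℚ[X] (RatFunc ℚ)) := IsFractionRing.injective _ _
  let L := AlgebraicClosure (RatFunc ℚ)
  let x : L := algebraMap (RatFunc ℚ) L RatFunc.X
  have hpoly : ∀ q : ℚ[X], algebraMap (RatFunc ℚ) L (algebraMap ℚ[X] (RatFunc ℚ) q) =
      aeval x q := by
    intro q
    rw [← IsScalarTower.algebraMap_apply ℚ[X] (RatFunc ℚ) L]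
    have h1 : x = algebraMap ℚ[X] L X := by
      rw [IsScalarTower.algebraMap_apply ℚ[X] (RatFunc ℚ) L, RatFunc.algebraMap_X]
    rw [h1, aeval_algebraMap_apply]
    simp
  have hDpoly : ∀ q : ℚ[X], D (algebraMap (RatFunc ℚ) L (algebraMap ℚ[X] (RatFunc ℚ) q)) =
      algebraMap (RatFunc ℚ) L (algebraMap ℚ[X] (RatFunc ℚ) (derivative q)) := by
    intro q
    rw [hpoly, hpoly, D.map_aeval q x, smul_eq_mul]
    have h1 : D x = 1 := hD1
    rw [h1, mul_one]
  have hQ0 : algebraMap ℚ[X] (RatFunc ℚ) f.denom ≠ 0 := by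
    rw [ne_eq, map_eq_zero_iff _ hinj]; exact RatFunc.denom_ne_zero f
  have h1 : f * algebraMap ℚ[X] (RatFunc ℚ) f.denom = algebraMap ℚ[X] (RatFunc ℚ) f.num := by
    have := RatFunc.num_div_denom f
    rw [div_eq_iff hQ0] at this
    exact this.symm
  have h2 := congrArg (ddxHom ℚ) h1
  rw [ddxHom_mul, ddxHom_algebraMap, ddxHom_algebraMap] at h2
  have h3 := congrArg (fun u => D (algebraMap (RatFunc ℚ) L u)) h1
  simp only [map_mul] at h3
  rw [Derivation.leibniz, smul_eq_mul, smul_eq_mul, hDpoly, hDpoly, ← h2, map_add, map_mul,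
    map_mul] at h3
  have h4 := add_left_cancel h3
  exact mul_left_cancel₀ (by
    rw [ne_eq, map_eq_zero_iff _ (algebraMap (RatFunc ℚ) L).injective]; exact hQ0) h4

/-- The functions `∏ (x - α j) ^ ν j`. -/
lemma exists_mon {m : ℕ} (D : Derivation ℚ (AlgebraicClosure (RatFunc ℚ))
    (AlgebraicClosure (RatFunc ℚ)))
    (hD1 : D (algebraMap (RatFunc ℚ) (AlgebraicClosure (RatFunc ℚ)) RatFunc.X) = 1)
    (ι : AlgebraicClosure ℚ →+* AlgebraicClosure (RatFunc ℚ)) (hι : ∀ c, D (ι c) = 0)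
    (α : Fin m → AlgebraicClosure ℚ) (ν : Fin m → ℚ) :
    ∃ E : AlgebraicClosure (RatFunc ℚ), E ≠ 0 ∧
      (T α).eval₂ ι (algebraMap (RatFunc ℚ) (AlgebraicClosure (RatFunc ℚ)) RatFunc.X) * D E =
        (∑ j, C ((ν j : ℚ) : AlgebraicClosure ℚ) * Tc α j).eval₂ ι
          (algebraMap (RatFunc ℚ) (AlgebraicClosure (RatFunc ℚ)) RatFunc.X) * E ∧
      ∃ (N : ℕ) (A B : (AlgebraicClosure ℚ)[X]), 0 < N ∧ B ≠ 0 ∧
        E ^ N * B.eval₂ ι (algebraMap (RatFunc ℚ) (AlgebraicClosure (RatFunc ℚ)) RatFunc.X) =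
          A.eval₂ ι (algebraMap (RatFunc ℚ) (AlgebraicClosure (RatFunc ℚ)) RatFunc.X) := by
  classical
  let L := AlgebraicClosure (RatFunc ℚ)
  let F := AlgebraicClosure ℚ
  let x : L := algebraMap (RatFunc ℚ) L RatFunc.X
  have hx : D x = 1 := hD1
  have hD : ∀ u v : L, D (u * v) = u * D v + v * D u := fun u v => D.leibniz u v
  obtain ⟨N, hN, hNν⟩ : ∃ N : ℕ, 0 < N ∧ ∀ j, ∃ z : ℤ, (N : ℚ) * ν j = z := by
    refine ⟨∏ j, (ν j).den, Finset.prod_pos fun j _ => (ν j).den_pos, fun j => ?_⟩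
    refine ⟨(∏ i ∈ Finset.univ.erase j, ((ν i).den : ℤ)) * (ν j).num, ?_⟩
    have h1 : (∏ j, (ν j).den) = (∏ i ∈ Finset.univ.erase j, (ν i).den) * (ν j).den :=
      (Finset.prod_erase_mul _ _ (Finset.mem_univ j)).symm
    rw [h1]
    push_cast
    rw [mul_assoc, Rat.den_mul_eq_num]
  choose μ hμ using hNν
  have hne : ∀ c, x - ι c ≠ 0 := by
    intro c h0
    have h1 := congrArg D h0
    rw [map_sub, hx, hι, sub_zero, map_zero] at h1
    exact one_ne_zero h1
  have hroot : ∀ j, ∃ u : L, u ^ N = x - ι (α j) := fun j => IsAlgClosed.exists_pow_nat_eq _ hN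
  choose u hu using hroot
  have hu0 : ∀ j, u j ≠ 0 := by
    intro j h0
    have h1 := hu j
    rw [h0, zero_pow hN.ne'] at h1
    exact hne _ h1.symm
  have hNL : (N : L) ≠ 0 := by exact_mod_cast hN.ne'
  have hDu : ∀ j, (x - ι (α j)) * D (u j) = u j / N := by
    intro j
    have h1 := congrArg D (hu j)
    rw [map_sub, hx, hι, sub_zero] at h1
    have h2 : D (u j ^ N) = N • u j ^ (N - 1) • D (u j) := D.leibniz_pow (u j) N
    rw [h2, nsmul_eq_mul, smul_eq_mul] at h1
    have h3 : u j ^ N = u j * u j ^ (N - 1) := by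
      rw [← pow_succ']; congr 1; omega
    rw [← hu j, h3]
    rw [eq_div_iff hNL]
    linear_combination u j * h1
  let E : L := ∏ j, u j ^ μ j
  have hE0 : E ≠ 0 := Finset.prod_ne_zero_iff.mpr fun j _ => zpow_ne_zero _ (hu0 j)
  have hDz : ∀ j, (x - ι (α j)) * D (u j ^ μ j) = ι ((ν j : ℚ) : F) * u j ^ μ j := by
    intro j
    have h1 : D (u j ^ μ j) = μ j • u j ^ (μ j - 1) • D (u j) := D.leibniz_zpow (u j) (μ j)
    rw [h1, zsmul_eq_mul, smul_eq_mul]
    have h2 : ι ((ν j : ℚ) : F) = (μ j : L) / N := by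
      rw [map_ratCast]
      rw [eq_div_iff hNL]
      have h3 := hμ j
      have h4 : ((N * ν j : ℚ) : L) = ((μ j : ℚ) : L) := by rw [h3]
      push_cast at h4
      linear_combination h4
    rw [h2]
    have h3 : u j ^ μ j = u j ^ (μ j - 1) * u j := by
      rw [← zpow_add_one₀ (hu0 j), sub_add_cancel]
    rw [h3]
    linear_combination ((μ j : L) * u j ^ (μ j - 1)) * hDu j
  have hTx : (T α).eval₂ ι x = ∏ j, (x - ι (α j)) := by
    unfold T
    rw [eval₂_finsetProd]
    simp
  have hTcx : ∀ j, (Tc α j).eval₂ ι x = ∏ i ∈ Finset.univ.erase j, (x - ι (α i)) := by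
    intro j
    unfold Tc
    rw [eval₂_finsetProd]
    simp
  refine ⟨E, hE0, ?_, N, ∏ j, (X - C (α j)) ^ (μ j).toNat, ∏ j, (X - C (α j)) ^ (-μ j).toNat, hN,
    Finset.prod_ne_zero_iff.mpr fun j _ => pow_ne_zero _ (X_sub_C_ne_zero _), ?_⟩
  rotate_left
  · show E ^ N * (∏ j, (X - C (α j)) ^ (-μ j).toNat : F[X]).eval₂ ι x =
      (∏ j, (X - C (α j)) ^ (μ j).toNat : F[X]).eval₂ ι x
    rw [eval₂_finsetProd, eval₂_finsetProd, ← Finset.prod_pow, ← Finset.prod_mul_distrib]
    refine Finset.prod_congr rfl fun j _ => ?_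
    rw [eval₂_pow, eval₂_pow, eval₂_sub, eval₂_X, eval₂_C]
    have h1 : (u j ^ μ j) ^ N = (x - ι (α j)) ^ (μ j) := by
      rw [← hu j, ← zpow_natCast, ← zpow_natCast, ← zpow_mul, ← zpow_mul, mul_comm]
    rw [h1]
    have h2 : (μ j) + ((-μ j).toNat : ℤ) = ((μ j).toNat : ℤ) := by omega
    rw [← zpow_natCast, ← zpow_natCast (x - ι (α j)) ((μ j).toNat), ← zpow_add₀ (hne _), h2]
  show (T α).eval₂ ι x * D E = (∑ j, C ((ν j : ℚ) : F) * Tc α j).eval₂ ι x * E
  have h1 : ∀ S : Finset (Fin m), D (∏ j ∈ S, u j ^ μ j) =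
      (∏ j ∈ S, u j ^ μ j) * ∑ j ∈ S, ι ((ν j : ℚ) : F) / (x - ι (α j)) := by
    intro S
    induction S using Finset.induction_on with
    | empty =>
      simp only [Finset.prod_empty, Finset.sum_empty, mul_zero]
      exact D.map_one_eq_zero
    | insert j S hj ih =>
      rw [Finset.prod_insert hj, Finset.sum_insert hj, hD, ih]
      have h2 : D (u j ^ μ j) = ι ((ν j : ℚ) : F) * u j ^ μ j / (x - ι (α j)) := by
        rw [eq_div_iff (hne _), mul_comm, hDz]
      rw [h2]
      ring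
  rw [h1, eval₂_finsetSum, Finset.sum_mul, Finset.mul_sum, Finset.mul_sum]
  refine Finset.sum_congr rfl fun j _ => ?_
  rw [eval₂_mul, eval₂_C, hTx, hTcx, ← Finset.prod_erase_mul _ _ (Finset.mem_univ j)]
  have h3 := mul_inv_cancel₀ (hne (α j))
  rw [div_eq_mul_inv]
  linear_combination ((∏ i ∈ Finset.univ.erase j, (x - ι (α i))) * (∏ j, u j ^ μ j) *
    ι ((ν j : ℚ) : F)) * h3

/-- The operator `∑ b i * ∂ ^ i` has `r` solutions in an algebraic closure of `ℚ(x)` which are
roots of rational functions over the algebraic numbers, and which are independent over the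
constants of `d / dx`. -/
def RootSols {n : ℕ} (b : Fin (n + 1) → ℤ[X]) (r : ℕ) : Prop :=
  ∃ (D : Derivation ℤ (AlgebraicClosure (RatFunc ℚ)) (AlgebraicClosure (RatFunc ℚ)))
    (ι : AlgebraicClosure ℚ →+* AlgebraicClosure (RatFunc ℚ)),
    D (algebraMap (RatFunc ℚ) (AlgebraicClosure (RatFunc ℚ)) RatFunc.X) = 1 ∧
    ∃ y : Fin r → AlgebraicClosure (RatFunc ℚ),
      (∀ j : Fin r, ∑ i : Fin (n + 1),
          Polynomial.aeval (algebraMap (RatFunc ℚ) (AlgebraicClosure (RatFunc ℚ)) RatFunc.X) (b i)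
            * (⇑D)^[(i : ℕ)] (y j) = 0) ∧
      (∀ j : Fin r, ∃ (N : ℕ) (A B : (AlgebraicClosure ℚ)[X]), 0 < N ∧ B ≠ 0 ∧
        y j ^ N * B.eval₂ ι (algebraMap (RatFunc ℚ) (AlgebraicClosure (RatFunc ℚ)) RatFunc.X) =
          A.eval₂ ι (algebraMap (RatFunc ℚ) (AlgebraicClosure (RatFunc ℚ)) RatFunc.X)) ∧
      ∀ c : Fin r → AlgebraicClosure (RatFunc ℚ), (∀ j, D (c j) = 0) →
        ∑ j : Fin r, c j * y j = 0 → ∀ j, c j = 0

lemma RootSols.fullAlg {n : ℕ} {b : Fin (n + 1) → ℤ[X]} (h : RootSols b n) : FullAlg b := by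
  obtain ⟨D, _, hD, y, hy, _, hi⟩ := h
  exact ⟨D, hD, y, hy, hi⟩

/-- A family of twisted polynomial solutions gives a family of algebraic solutions. -/
theorem rootSols_of_classes {m n r : ℕ} (b : Fin (n + 1) → ℤ[X])
    (α : Fin m → AlgebraicClosure ℚ) (Q : Fin (n + 1) → (AlgebraicClosure ℚ)[X])
    (hF : IsFuchs b α Q) (cl : Fin r → Fin m → ℚ) (Z : Fin r → (AlgebraicClosure ℚ)[X])
    (hcl : ∀ s s', cl s ≠ cl s' → ∃ j, ∀ z : ℤ, cl s j - cl s' j ≠ z)
    (hZ : ∀ s, twL α (fun j => ((cl s j : ℚ) : AlgebraicClosure ℚ)) Q (Z s) = 0)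
    (hind : ∀ (ν : Fin m → ℚ) (c : Fin r → AlgebraicClosure ℚ),
      ∑ s ∈ Finset.univ.filter (fun s => cl s = ν), C (c s) * Z s = 0 → ∀ s, cl s = ν → c s = 0) :
    RootSols b r := by
  classical
  obtain ⟨D, hD1⟩ := exists_derivation
  let L := AlgebraicClosure (RatFunc ℚ)
  let F := AlgebraicClosure ℚ
  have halg : Algebra.IsAlgebraic ℚ F := by
    convert AlgebraicClosure.isAlgebraic ℚ
    · rfl
    · exact Subsingleton.elim _ _
  let ι' : F →ₐ[ℚ] L := IsAlgClosed.lift
  let ι : F →+* L := ι'.toRingHom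
  let x : L := algebraMap (RatFunc ℚ) L RatFunc.X
  let D' : L →+ L := D.toLinearMap.toAddMonoidHom
  have hD : ∀ u v, D' (u * v) = u * D' v + v * D' u := fun u v => D.leibniz u v
  have hx : D' x = 1 := hD1
  have hD'1 : D' 1 = 0 := D.map_one_eq_zero
  let Dz : Derivation ℤ (AlgebraicClosure (RatFunc ℚ)) (AlgebraicClosure (RatFunc ℚ)) :=
    { toFun := fun y => D' y
      map_add' := fun u v => D'.map_add u v
      map_smul' := by
        intro z y
        rw [Algebra.smul_def, hD, zsmul_eq_mul, eq_intCast,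
          show D' ((z : ℤ) : L) = 0 from D.map_intCast z, mul_zero, add_zero]
        rfl
      map_one_eq_zero' := hD'1
      leibniz' := fun u v => hD u v }
  have hι : ∀ c, D' (ι c) = 0 := fun c => deriv_algebraic D ι' c
  choose E hE0 hDE hEN using fun ν : Fin m → ℚ => exists_mon D hD1 ι hι α ν
  have hDE' : ∀ ν : Fin m → ℚ, (T α).eval₂ ι x * D' (E ν) =
      (∑ j, C ((ν j : ℚ) : F) * Tc α j).eval₂ ι x * E ν := hDE
  have hne : ∀ c, x - ι c ≠ 0 := by
    intro c h0
    have h1 := congrArg D' h0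
    rw [map_sub, hx, hι, sub_zero, map_zero] at h1
    exact one_ne_zero h1
  have hTx : (T α).eval₂ ι x = ∏ j, (x - ι (α j)) := by
    unfold T
    rw [eval₂_finsetProd]
    simp
  have hT0 : (T α).eval₂ ι x ≠ 0 := by
    rw [hTx]
    exact Finset.prod_ne_zero_iff.mpr fun j _ => hne _
  have hz : ∀ s, ∑ k : Fin (n + 1), Q k * twist α (cl s) k (Z s) = 0 := by
    intro s
    have := hZ s
    rw [twL_apply] at this
    rw [← this]
    exact Finset.sum_congr rfl fun k _ => by rw [twist_eq]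
  refine ⟨Dz, ι, hD1, fun s => E (cl s) * (Z s).eval₂ ι x, fun s => ?_, fun s => ?_,
    fun c hc hsum => ?_⟩
  · -- the equation
    have h1 : ∀ k : ℕ, (⇑Dz)^[k] (E (cl s) * (Z s).eval₂ ι x) =
        E (cl s) * (twist α (cl s) k (Z s)).eval₂ ι x / (T α).eval₂ ι x ^ k := by
      intro k
      rw [eq_div_iff (pow_ne_zero _ hT0), mul_comm]
      exact iter_mon D' hD ι x hx hι (cl s) (E (cl s)) (hDE' (cl s)) (Z s) k
    have h2 : ∀ k : Fin (n + 1), Polynomial.aeval x (b k) =
        ((b k).map (Int.castRingHom F)).eval₂ ι x := by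
      intro k
      rw [eval₂_map, aeval_def]
      congr 1
      exact RingHom.ext_int _ _
    have h3 : ∀ k : Fin (n + 1), (T α).eval₂ ι x ^ (n - (k : ℕ)) *
        ((b k).map (Int.castRingHom F)).eval₂ ι x =
        ((b (Fin.last n)).map (Int.castRingHom F)).eval₂ ι x * (Q k).eval₂ ι x := by
      intro k
      have := congrArg (Polynomial.eval₂ ι x) (hF.eq k)
      rwa [eval₂_mul, eval₂_mul, eval₂_pow] at this
    have h4 : ∑ k : Fin (n + 1), (Q k).eval₂ ι x * (twist α (cl s) k (Z s)).eval₂ ι x = 0 := by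
      have := congrArg (Polynomial.eval₂ ι x) (hz s)
      rw [eval₂_finsetSum, eval₂_zero] at this
      simpa only [eval₂_mul] using this
    apply mul_left_cancel₀ (pow_ne_zero n hT0)
    rw [mul_zero, Finset.mul_sum]
    have h5 : ∀ k : Fin (n + 1), (T α).eval₂ ι x ^ n * (Polynomial.aeval x (b k) *
        (⇑Dz)^[(k : ℕ)] (E (cl s) * (Z s).eval₂ ι x)) =
        E (cl s) * ((b (Fin.last n)).map (Int.castRingHom F)).eval₂ ι x *
          ((Q k).eval₂ ι x * (twist α (cl s) k (Z s)).eval₂ ι x) := by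
      intro k
      rw [h1, h2]
      have h6 : (T α).eval₂ ι x ^ n = (T α).eval₂ ι x ^ (n - (k : ℕ)) *
          (T α).eval₂ ι x ^ (k : ℕ) := by
        rw [← pow_add]; congr 1; have := k.isLt; omega
      rw [h6]
      have h7 := mul_inv_cancel₀ (pow_ne_zero (k : ℕ) hT0)
      rw [div_eq_mul_inv]
      linear_combination (E (cl s) * (twist α (cl s) k (Z s)).eval₂ ι x) * h3 k +
        ((T α).eval₂ ι x ^ (n - (k : ℕ)) * ((b k).map (Int.castRingHom F)).eval₂ ι x * E (cl s) *
          (twist α (cl s) k (Z s)).eval₂ ι x) * h7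
    rw [Finset.sum_congr rfl fun k _ => h5 k, ← Finset.mul_sum, h4, mul_zero]
  · obtain ⟨N, A, B, hN, hB, hAB⟩ := hEN (cl s)
    refine ⟨N, A * Z s ^ N, B, hN, hB, ?_⟩
    rw [eval₂_mul, eval₂_pow, ← hAB]
    ring
  · -- independence: the constants are algebraic numbers
    have hconst : ∀ s, ∃ d : F, c s = ι d := by
      intro s
      obtain ⟨q, hq0, hq⟩ := const_algebraic D' hD (fun f => D_ratfunc D hD1 f) (c := c s)
        (by exact hc s) ((AlgebraicClosure.isAlgebraic (RatFunc ℚ)).isAlgebraic (c s))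
      have hcomp : ((algebraMap (RatFunc ℚ) L).comp ((algebraMap ℚ[X] (RatFunc ℚ)).comp C)) =
          ι.comp (algebraMap ℚ F) := Subsingleton.elim _ _
      have h1 : (q.map (algebraMap ℚ F)).eval₂ ι (c s) = 0 := by
        rw [eval₂_map, ← hcomp]
        exact hq
      have hq0' : q.map (algebraMap ℚ F) ≠ 0 :=
        (Polynomial.map_ne_zero_iff (algebraMap ℚ F).injective).mpr hq0
      have h2 := (IsAlgClosed.splits (q.map (algebraMap ℚ F))).eq_prod_roots
      rw [h2, eval₂_mul, eval₂_C, ← eval_map, Polynomial.map_multiset_prod, eval_multiset_prod] at h1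
      have h3 : ι (q.map (algebraMap ℚ F)).leadingCoeff ≠ 0 := by
        rw [ne_eq, map_eq_zero]
        exact leadingCoeff_ne_zero.mpr hq0'
      have h4 := (mul_eq_zero.mp h1).resolve_left h3
      rw [Multiset.prod_eq_zero_iff] at h4
      simp only [Multiset.map_map, Multiset.mem_map, Function.comp_apply] at h4
      obtain ⟨r, -, hr⟩ := h4
      refine ⟨r, ?_⟩
      simp only [Polynomial.map_sub, map_X, map_C, eval_sub, eval_X, eval_C] at hr
      exact sub_eq_zero.mp hr
    choose d hd using hconst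
    have hsplit : ∀ g : Fin r → L, ∑ s, g s =
        ∑ ν : {ν : Fin m → ℚ // ν ∈ Finset.univ.image cl},
          ∑ s ∈ Finset.univ.filter (fun s => cl s = ν.1), g s := by
      intro g
      rw [← Finset.sum_fiberwise_of_maps_to (s := Finset.univ) (t := Finset.univ.image cl) (g := cl)
        (fun s _ => Finset.mem_image_of_mem _ (Finset.mem_univ s)) g]
      rw [← Finset.sum_coe_sort (Finset.univ.image cl)
        (fun ν => ∑ s ∈ Finset.univ.filter (fun s => cl s = ν), g s)]
    have h1 := indep' D' hD ι x hx hι hF.inj (fun (ν : {ν : Fin m → ℚ // ν ∈ Finset.univ.image cl}) j => ((ν.1 j : ℚ) : F))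
      (by
        rintro ⟨ν, hν⟩ ⟨ν', hν'⟩ hne'
        obtain ⟨s, -, hs⟩ := Finset.mem_image.mp hν
        obtain ⟨s', -, hs'⟩ := Finset.mem_image.mp hν'
        obtain ⟨j, hj⟩ := hcl s s' (by
          rw [hs, hs']
          intro h
          exact hne' (Subtype.ext h))
        rw [hs, hs'] at hj
        refine ⟨j, fun z hz => hj z ?_⟩
        simp only at hz
        exact_mod_cast hz)
      (fun ν => E ν.1) (fun ν => hDE' ν.1)
      (fun ν => ∑ s ∈ Finset.univ.filter (fun s => cl s = ν.1), C (d s) * Z s) (by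
        rw [← hsum, hsplit]
        refine Finset.sum_congr rfl fun ν _ => ?_
        rw [eval₂_finsetSum, Finset.sum_mul]
        refine Finset.sum_congr rfl fun s hs => ?_
        have h5 := (Finset.mem_filter.mp hs).2
        simp only [h5]
        rw [eval₂_mul, eval₂_C, ← hd s]
        ring)
    intro s
    have h2 := h1 ⟨cl s, Finset.mem_image_of_mem _ (Finset.mem_univ s)⟩
    have h3 := h2.resolve_right (hE0 _)
    rw [hd s, hind (cl s) d h3 s rfl, map_zero]

end Pool.Agent.X98.PC
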