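import Mathlib

set_option autoImplicit false

open Polynomial

namespace Pool.Agent.X98.PC

/-- Small values of an integral polynomial divisible by a large prime vanish. -/
lemma small_val (N : ℤ[X]) : ∃ C : ℕ, ∀ (e : ℤ) (p : ℕ), (p : ℤ) ∣ N.eval e →
    C * (e.natAbs + 1) ^ N.natDegree < p → N.eval e = 0 := by
  refine ⟨∑ i ∈ Finset.range (N.natDegree + 1), (N.coeff i).natAbs, fun e p hp hlt => ?_⟩
  apply Int.eq_zero_of_abs_lt_dvd hp
  have h1 : |N.eval e| ≤ ((∑ i ∈ Finset.range (N.natDegree + 1), (N.coeff i).natAbs : ℕ) : ℤ) *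
      ((e.natAbs : ℤ) + 1) ^ N.natDegree := by
    rw [eval_eq_sum_range]
    refine (Finset.abs_sum_le_sum_abs _ _).trans ?_
    push_cast
    rw [Finset.sum_mul]
    refine Finset.sum_le_sum fun i hi => ?_
    rw [abs_mul, abs_pow]
    have h2 : i ≤ N.natDegree := by
      have := Finset.mem_range.mp hi
      omega
    have h3 : |e| ^ i ≤ (|e| + 1) ^ N.natDegree :=
      (pow_le_pow_left₀ (abs_nonneg e) (by linarith) i).trans
        (pow_le_pow_right₀ (by linarith [abs_nonneg e]) h2)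
    exact mul_le_mul_of_nonneg_left h3 (abs_nonneg _)
  have h2 : (((∑ i ∈ Finset.range (N.natDegree + 1), (N.coeff i).natAbs) *
      (e.natAbs + 1) ^ N.natDegree : ℕ) : ℤ) < (p : ℤ) := by exact_mod_cast hlt
  push_cast at h2 h1
  linarith

/-- The integral roots are bounded. -/
lemma root_bound {N : ℤ[X]} (hN : N ≠ 0) : ∃ C : ℕ, ∀ e : ℤ, N.eval e = 0 → e.natAbs ≤ C := by
  refine ⟨N.roots.toFinset.sup Int.natAbs, fun e he => ?_⟩
  apply Finset.le_sup (f := Int.natAbs)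
  rw [Multiset.mem_toFinset, mem_roots hN]
  exact he

/-- Products of linear factors. -/
lemma small_lin {ι : Type*} (s : Finset ι) (N₀ : ℕ) (hN₀ : 0 < N₀) (a : ι → ℤ) : ∃ C : ℕ, ∀ (e : ℤ) (p : ℕ),
    p.Prime → (p : ℤ) ∣ ∏ l ∈ s, ((N₀ : ℤ) * e - a l) → N₀ * e.natAbs + C < p → e.natAbs ≤ C := by
  refine ⟨∑ l ∈ s, (a l).natAbs, fun e p hp hdvd hlt => ?_⟩
  obtain ⟨l, hl, hpl⟩ := (Prime.dvd_finset_prod_iff (Nat.prime_iff_prime_int.mp hp) _).mp hdvd
  have hal : (a l).natAbs ≤ ∑ l ∈ s, (a l).natAbs :=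
    Finset.single_le_sum (f := fun l => (a l).natAbs) (fun _ _ => Nat.zero_le _) hl
  have h0 : (N₀ : ℤ) * e - a l = 0 := by
    apply Int.eq_zero_of_abs_lt_dvd hpl
    have h1 : |(N₀ : ℤ) * e - a l| ≤ (N₀ : ℤ) * |e| + |a l| := by
      refine (abs_sub _ _).trans ?_
      rw [abs_mul, Nat.abs_cast]
    have h2 : ((N₀ * e.natAbs + (a l).natAbs : ℕ) : ℤ) < (p : ℤ) := by
      have : N₀ * e.natAbs + (a l).natAbs < p := by omega
      exact_mod_cast this
    push_cast at h2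
    linarith
  have h1 : (N₀ : ℤ) * e = a l := by linarith
  have h2 : N₀ * e.natAbs = (a l).natAbs := by
    rw [← h1, Int.natAbs_mul, Int.natAbs_natCast]
  have h3 : e.natAbs ≤ N₀ * e.natAbs := Nat.le_mul_of_pos_left _ hN₀
  omega

end Pool.Agent.X98.PC
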