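import Pool.Agent.X98.PC.Deriv
import Pool.Agent.X98.PC.Zlem
import Pool.Agent.W432.HK.Fuchs

set_option autoImplicit false

open Polynomial

namespace Pool.Agent.X98.PC

open Pool.Agent.W432.PC (ddx ddx_algebraMap)
open Pool.Agent.W432.HK (lead_loc lead_inf dsum dsum_eval dsum_ne_zero map_ne_of_large)

/-- The height of a rational function: the maximum of the degrees of its numerator and of its
denominator. -/
noncomputable def ht {k : Type*} [Field k] (y : RatFunc k) : ℕ := max y.num.natDegree y.denom.natDegree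

/-- `y ∈ F_p(x)` is the reduction modulo `p` of a solution `A / B ∈ ℚ(x)`, `A`, `B` in `ℤ[x]`, `B` not
zero modulo `p`. -/
def Lifts {n : ℕ} (b : Fin (n + 1) → ℤ[X]) (p : ℕ) [Fact p.Prime] (y : RatFunc (ZMod p)) : Prop :=
  ∃ A B : ℤ[X], B.map (Int.castRingHom (ZMod p)) ≠ 0 ∧
    y = algebraMap (ZMod p)[X] (RatFunc (ZMod p)) (A.map (Int.castRingHom (ZMod p))) /
      algebraMap (ZMod p)[X] (RatFunc (ZMod p)) (B.map (Int.castRingHom (ZMod p))) ∧
    IsSol ℚ b (algebraMap ℚ[X] (RatFunc ℚ) (A.map (Int.castRingHom ℚ)) /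
      algebraMap ℚ[X] (RatFunc ℚ) (B.map (Int.castRingHom ℚ)))

/-- The orders of the solutions modulo `p` at the zeros of the leading coefficient are zeros of `N`
modulo `p`, for all large `p`. -/
def GoodExp {n : ℕ} (b : Fin (n + 1) → ℤ[X]) (N : ℤ[X]) : Prop :=
  ∃ P₀ : ℕ, ∀ p : ℕ, P₀ < p → p.Prime → ∃ (K : Type) (_ : Field K) (_ : CharP K p)
    (_ : IsAlgClosed K), ∀ f : K[X], f ≠ 0 →
      ∑ k : Fin (n + 1), (b k).map (Int.castRingHom K) * derivative^[(k : ℕ)] f = 0 →
      ∀ x₀ : K, ((b (Fin.last n)).map (Int.castRingHom K)).eval x₀ = 0 →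
        (p : ℤ) ∣ N.eval (f.rootMultiplicity x₀ : ℤ)

/-- The degrees of the solutions modulo `p` are zeros of `N` modulo `p`, for all large `p`. -/
def InfExp {n : ℕ} (b : Fin (n + 1) → ℤ[X]) (N : ℤ[X]) : Prop :=
  ∃ P₀ : ℕ, ∀ p : ℕ, P₀ < p → p.Prime → ∀ f : (ZMod p)[X], f ≠ 0 →
      ∑ k : Fin (n + 1), (b k).map (Int.castRingHom (ZMod p)) * derivative^[(k : ℕ)] f = 0 →
        (p : ℤ) ∣ N.eval (f.natDegree : ℤ)

lemma rootMult_pow {K : Type*} [Field K] (f : K[X]) (x : K) (t : ℕ) :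
    (f ^ t).rootMultiplicity x = t * f.rootMultiplicity x := by
  classical
  rw [← count_roots, roots_pow, Multiset.count_nsmul, count_roots]

/-- Ordinary points. -/
lemma ordinary {K : Type*} [Field K] {n : ℕ} {b : Fin (n + 1) → K[X]} {f : K[X]} (hf : f ≠ 0)
    (h : ∑ k : Fin (n + 1), b k * derivative^[(k : ℕ)] f = 0) {x₀ : K}
    (hx : (b (Fin.last n)).eval x₀ ≠ 0) :
    ∏ i ∈ Finset.range n, ((f.rootMultiplicity x₀ : K) - i) = 0 := by
  have h1 := lead_loc (c := fun k : Fin (n + 1) => (X - C x₀) ^ (n - (k : ℕ)) * b k) (x₀ := x₀) hf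
    (by
      have h2 := congrArg (fun y => (X - C x₀) ^ n * y) h
      simp only [mul_zero, Finset.mul_sum] at h2
      rw [← h2]
      refine Finset.sum_congr rfl fun k _ => ?_
      have h3 : (X - C x₀) ^ n = (X - C x₀) ^ (n - (k : ℕ)) * (X - C x₀) ^ (k : ℕ) := by
        rw [← pow_add]
        congr 1
        have := k.isLt
        omega
      rw [h3]
      ring)
  rw [Finset.sum_eq_single (Fin.last n)] at h1
  · simp only [Fin.val_last, Nat.sub_self, pow_zero, one_mul] at h1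
    rw [← descPochhammer_eval_eq_prod_range]
    exact (mul_eq_zero.mp h1).resolve_left hx
  · intro k _ hk
    have h2 : 0 < n - (k : ℕ) := by
      have h3 := k.isLt
      have h4 : (k : ℕ) ≠ n := fun h => hk (Fin.ext (by rw [Fin.val_last]; exact h))
      omega
    rw [eval_mul, eval_pow, eval_sub, eval_X, eval_C, sub_self, zero_pow h2.ne', zero_mul, zero_mul]
  · intro h; exact absurd (Finset.mem_univ _) h

theorem core {n : ℕ} {b : Fin (n + 1) → ℤ[X]} (hb : b (Fin.last n) ≠ 0) {N N' : ℤ[X]}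
    (hN : GoodExp b N) (hN' : InfExp b N') (C₁ : ℕ) : ∃ C : ℕ, ∀ (p : ℕ) [Fact p.Prime],
      C < p → ∀ y : RatFunc (ZMod p), IsSol (ZMod p) b y → ht y + n < p →
        (∀ e : ℤ, e.natAbs ≤ ht y → (p : ℤ) ∣ N.eval e → e.natAbs ≤ C₁) →
        (∀ e : ℤ, e.natAbs ≤ ht y → (p : ℤ) ∣ N'.eval e → e.natAbs ≤ C₁) → Lifts b p y := by
  classical
  obtain ⟨P₀, hP₀⟩ := hN
  obtain ⟨P₁, hP₁⟩ := hN'
  set bn := b (Fin.last n) with hbn
  obtain ⟨T, hT0, hT⟩ := poly_lift (Phi b bn C₁) (C₁ + C₁ * bn.natDegree)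
  refine ⟨max (max P₀ P₁) (max T bn.leadingCoeff.natAbs), ?_⟩
  intro p hpf hp y hy hhy hsm hsm'
  simp only [max_lt_iff] at hp
  obtain ⟨⟨hp0, hp1⟩, hpT, hpl⟩ := hp
  have hpp : p.Prime := hpf.out
  have hpos : 0 < p := hpp.pos
  set κ := Int.castRingHom (ZMod p) with hκ
  have hbn0 : bn.map κ ≠ 0 := map_ne_of_large hb hpl
  by_cases hy0 : y = 0
  · refine ⟨0, 1, ?_, ?_, ?_⟩
    · rw [Polynomial.map_one]; exact one_ne_zero
    · rw [hy0]; simp
    · unfold IsSol
      simp only [Polynomial.map_zero, map_zero, zero_div]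
      refine Finset.sum_eq_zero fun i _ => ?_
      have : (⇑(ddx ℚ))^[(i : ℕ)] 0 = 0 := by simp
      rw [this, mul_zero]
  set P := y.num with hP
  set Q := y.denom with hQ
  have hP0 : P ≠ 0 := fun h => hy0 (RatFunc.num_eq_zero_iff.mp h)
  have hQ0 : Q ≠ 0 := RatFunc.denom_ne_zero y
  have hcop : IsCoprime P Q := RatFunc.isCoprime_num_denom y
  have hinj : Function.Injective (algebraMap (ZMod p)[X] (RatFunc (ZMod p))) :=
    IsFractionRing.injective _ _
  have hyPQ : algebraMap (ZMod p)[X] (RatFunc (ZMod p)) P /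
      algebraMap (ZMod p)[X] (RatFunc (ZMod p)) Q = y := RatFunc.num_div_denom y
  have hQ0' : algebraMap (ZMod p)[X] (RatFunc (ZMod p)) Q ≠ 0 := by
    rw [ne_eq, map_eq_zero_iff _ hinj]; exact hQ0
  -- the polynomial solution
  set f := P * Q ^ (p - 1) with hf
  have hf0 : f ≠ 0 := mul_ne_zero hP0 (pow_ne_zero _ hQ0)
  have hfy : algebraMap (ZMod p)[X] (RatFunc (ZMod p)) f =
      algebraMap (ZMod p)[X] (RatFunc (ZMod p)) (Q ^ p) * y := by
    rw [← hyPQ, hf, map_mul, map_pow, map_pow]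
    have h1 : (algebraMap (ZMod p)[X] (RatFunc (ZMod p)) Q) ^ p =
        (algebraMap (ZMod p)[X] (RatFunc (ZMod p)) Q) ^ (p - 1) *
          algebraMap (ZMod p)[X] (RatFunc (ZMod p)) Q := by
      rw [← pow_succ, Nat.sub_add_cancel hpp.one_lt.le]
    rw [h1]
    field_simp
  have hQc : ddx (ZMod p) (algebraMap (ZMod p)[X] (RatFunc (ZMod p)) (Q ^ p)) = 0 := by
    rw [ddx_algebraMap, derivative_pow]
    simp
  have hfsol : ∑ i : Fin (n + 1), (b i).map κ * derivative^[(i : ℕ)] f = 0 := by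
    rw [← isSol_algebraMap, hfy]
    exact hy.const_mul hQc
  -- pass to the algebraic closure
  obtain ⟨K, _, _, _, hK⟩ := hP₀ p hp0 hpp
  let σ : ZMod p →+* K := ZMod.castHom (dvd_refl p) K
  have hσ : Function.Injective σ := σ.injective
  have hcomp : σ.comp κ = Int.castRingHom K := RingHom.ext_int _ _
  have hfK0 : f.map σ ≠ 0 := (Polynomial.map_ne_zero_iff hσ).mpr hf0
  have hfK : ∑ k : Fin (n + 1), (b k).map (Int.castRingHom K) * derivative^[(k : ℕ)] (f.map σ) = 0 := by
    have h1 := congrArg (Polynomial.map σ) hfsol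
    simp only [Polynomial.map_sum, Polynomial.map_mul, Polynomial.map_map, hcomp,
      Polynomial.map_zero, Polynomial.iterate_derivative_map] at h1 ⊢
    exact h1
  have hQK0 : Q.map σ ≠ 0 := (Polynomial.map_ne_zero_iff hσ).mpr hQ0
  have hPK0 : P.map σ ≠ 0 := (Polynomial.map_ne_zero_iff hσ).mpr hP0
  have hbK : bn.map (Int.castRingHom K) = (bn.map κ).map σ := by rw [Polynomial.map_map, hcomp]
  have hbK0 : bn.map (Int.castRingHom K) ≠ 0 := by
    rw [hbK]; exact (Polynomial.map_ne_zero_iff hσ).mpr hbn0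
  -- poles
  have hpole : ∀ x₀ : K, (Q.map σ).eval x₀ = 0 →
      (bn.map (Int.castRingHom K)).eval x₀ = 0 ∧ (Q.map σ).rootMultiplicity x₀ ≤ C₁ := by
    intro x₀ hx₀
    set q := (Q.map σ).rootMultiplicity x₀ with hq
    have hPx : (P.map σ).eval x₀ ≠ 0 := by
      intro h0
      obtain ⟨u, v, huv⟩ := hcop
      have h1 := congrArg (fun g => (g.map σ).eval x₀) huv
      simp only [Polynomial.map_add, Polynomial.map_mul, Polynomial.map_one, eval_add, eval_mul,
        eval_one, h0, hx₀, mul_zero, add_zero] at h1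
      exact zero_ne_one h1
    have hPm : (P.map σ).rootMultiplicity x₀ = 0 := rootMultiplicity_eq_zero hPx
    have hm : (f.map σ).rootMultiplicity x₀ = (p - 1) * q := by
      rw [hf, Polynomial.map_mul, Polynomial.map_pow, rootMultiplicity_mul (by
        rw [← Polynomial.map_pow, ← Polynomial.map_mul]; exact hfK0), hPm, zero_add,
        rootMult_pow]
    have hqd : q ≤ ht y := by
      have h1 : q ≤ (Q.map σ).natDegree := Pool.Agent.W432.HK.rootMultiplicity_le x₀ _ hQK0
      rw [natDegree_map_eq_of_injective hσ] at h1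
      exact h1.trans (le_max_right _ _)
    have hq1 : 1 ≤ q := (rootMultiplicity_pos hQK0).mpr hx₀
    have hbx : (bn.map (Int.castRingHom K)).eval x₀ = 0 := by
      by_contra hne
      have h1 := ordinary hfK0 hfK hne
      rw [Finset.prod_eq_zero_iff] at h1
      obtain ⟨i, hi, h2⟩ := h1
      rw [hm] at h2
      have h3 : ((q + i : ℕ) : K) = 0 := by
        have h4 : (((p - 1) * q : ℕ) : K) = -(q : K) := by
          rw [Nat.cast_mul, Nat.cast_sub hpp.one_lt.le, CharP.cast_eq_zero K p]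
          ring
        rw [h4] at h2
        push_cast
        linear_combination -h2
      have h4 := (CharP.cast_eq_zero_iff K p _).mp h3
      have h5 := Nat.le_of_dvd (by omega) h4
      have h6 := Finset.mem_range.mp hi
      omega
    refine ⟨hbx, ?_⟩
    have h1 := hK (f.map σ) hfK0 hfK x₀ hbx
    rw [hm] at h1
    have h2 : (p : ℤ) ∣ N.eval (-(q : ℤ)) := by
      have h3 := Polynomial.sub_dvd_eval_sub (((p - 1) * q : ℕ) : ℤ) (-(q : ℤ)) N
      have h4 : (p : ℤ) ∣ (((p - 1) * q : ℕ) : ℤ) - (-(q : ℤ)) := by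
        refine ⟨(q : ℤ), ?_⟩
        rw [Nat.cast_mul, Nat.cast_sub hpp.one_lt.le]
        push_cast
        ring
      have h5 := h4.trans h3
      have h6 := dvd_sub h1 h5
      rwa [sub_sub_cancel] at h6
    have h3 := hsm (-(q : ℤ)) (by rw [Int.natAbs_neg, Int.natAbs_natCast]; exact hqd) h2
    rwa [Int.natAbs_neg, Int.natAbs_natCast] at h3
  -- divisibility
  have hdvd : Q ∣ (bn.map κ) ^ C₁ := by
    rw [← Polynomial.map_dvd_map' σ, Polynomial.map_pow, ← hbK]
    apply (IsAlgClosed.splits (Q.map σ)).dvd_of_roots_le_roots hQK0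
    rw [Multiset.le_iff_count]
    intro x
    rw [count_roots, count_roots, rootMult_pow]
    by_cases hx : (Q.map σ).eval x = 0
    · obtain ⟨h1, h2⟩ := hpole x hx
      have h3 : 1 ≤ (bn.map (Int.castRingHom K)).rootMultiplicity x :=
        (rootMultiplicity_pos hbK0).mpr h1
      calc (Q.map σ).rootMultiplicity x ≤ C₁ * 1 := by rw [mul_one]; exact h2
        _ ≤ C₁ * (bn.map (Int.castRingHom K)).rootMultiplicity x := Nat.mul_le_mul_left _ h3
    · rw [rootMultiplicity_eq_zero hx]; exact Nat.zero_le _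
  obtain ⟨S, hS⟩ := hdvd
  have hS0 : S ≠ 0 := by
    rintro rfl
    rw [mul_zero] at hS
    exact pow_ne_zero _ hbn0 hS
  set G := P * S with hG
  have hyG : y = algebraMap (ZMod p)[X] (RatFunc (ZMod p)) G /
      algebraMap (ZMod p)[X] (RatFunc (ZMod p)) ((bn.map κ) ^ C₁) := by
    rw [hS, hG, ← hyPQ, map_mul, map_mul]
    have hS0' : algebraMap (ZMod p)[X] (RatFunc (ZMod p)) S ≠ 0 := by
      rw [ne_eq, map_eq_zero_iff _ hinj]; exact hS0
    rw [mul_div_mul_right _ _ hS0']
  -- degree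
  have hdegG : G.natDegree ≤ C₁ + C₁ * bn.natDegree := by
    have h1 := hP₁ p hp1 hpp f hf0 hfsol
    have hfd : f.natDegree = P.natDegree + (p - 1) * Q.natDegree := by
      rw [hf, natDegree_mul hP0 (pow_ne_zero _ hQ0), natDegree_pow]
    rw [hfd] at h1
    have h2 : (p : ℤ) ∣ N'.eval ((P.natDegree : ℤ) - Q.natDegree) := by
      have h3 := Polynomial.sub_dvd_eval_sub ((P.natDegree + (p - 1) * Q.natDegree : ℕ) : ℤ)
        ((P.natDegree : ℤ) - Q.natDegree) N'
      have h4 : (p : ℤ) ∣ ((P.natDegree + (p - 1) * Q.natDegree : ℕ) : ℤ) -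
          ((P.natDegree : ℤ) - Q.natDegree) := by
        refine ⟨(Q.natDegree : ℤ), ?_⟩
        rw [Nat.cast_add, Nat.cast_mul, Nat.cast_sub hpp.one_lt.le]
        push_cast
        ring
      have h5 := h4.trans h3
      have h6 := dvd_sub h1 h5
      rwa [sub_sub_cancel] at h6
    have h3 := hsm' _ (by
      have h4 : P.natDegree ≤ ht y := le_max_left _ _
      have h5 : Q.natDegree ≤ ht y := le_max_right _ _
      omega) h2
    have h4 : G.natDegree + Q.natDegree = P.natDegree + C₁ * (bn.map κ).natDegree := by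
      rw [hG, natDegree_mul hP0 hS0]
      have h5 := congrArg natDegree hS
      rw [natDegree_pow, natDegree_mul hQ0 hS0] at h5
      omega
    have h5 : C₁ * (bn.map κ).natDegree ≤ C₁ * bn.natDegree :=
      Nat.mul_le_mul_left _ natDegree_map_le
    omega
  -- lift
  have hPhi : Phi (fun i => (b i).map κ) (bn.map κ) C₁ G = 0 := by
    rw [← isSol_div b hbn0 C₁, ← hyG]
    exact hy
  obtain ⟨A₀, hA₀, hA₀d⟩ := exists_degree_eq_of_mem_lifts (f := κ) (p := G) (by
    rw [mem_lifts]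
    exact Polynomial.map_surjective κ ZMod.intCast_surjective G)
  have hA₀n : A₀.natDegree ≤ C₁ + C₁ * bn.natDegree := by
    rw [natDegree_eq_of_degree_eq hA₀d]; exact hdegG
  obtain ⟨A, hAd, hA, hAm⟩ := hT p hpp (fun h => by
    have := Nat.le_of_dvd hT0 h
    omega) A₀ hA₀n (by rw [Phi_map, hA₀]; exact hPhi)
  refine ⟨A, bn ^ C₁, ?_, ?_, ?_⟩
  · rw [Polynomial.map_pow]; exact pow_ne_zero _ hbn0
  · rw [hyG, ← hA₀, hAm, Polynomial.map_pow]
  · rw [Polynomial.map_pow]
    rw [isSol_div b ((Polynomial.map_ne_zero_iff (Int.cast_injective)).mpr hb), ← Phi_map, hA,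
      Polynomial.map_zero]

end Pool.Agent.X98.PC
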