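import Pool.Agent.X98.PC.KLev

set_option autoImplicit false

open Polynomial

namespace Pool.Agent.X98.PC

open Pool.Agent.W432.PC (T Tc T_eq T_monic T_ne T_natDegree Tc_monic Tc_eval_ne T_map Tc_map
  T_eval_ne natDegree_prod_pow)
open Pool.Agent.W432.WB
open Pool.Agent.W432.HK (lead_loc lead_inf)

/-- Representatives of the exponents modulo the integers. -/
lemma exists_reps {n : ℕ} (lam : Fin n → ℚ) : ∃ rep : Fin n → ℚ,
    (∀ l, ∃ l', rep l = lam l') ∧ (∀ l, ∃ t : ℕ, lam l = rep l + t) ∧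
      ∀ (l l' : Fin n) (z : ℤ), rep l - rep l' = z → rep l = rep l' := by
  classical
  have h1 : ∀ l : Fin n, ∃ l' : Fin n, (∃ z : ℤ, lam l - lam l' = z) ∧
      ∀ l'', (∃ z : ℤ, lam l - lam l'' = z) → lam l' ≤ lam l'' := by
    intro l
    obtain ⟨l', h1, h2⟩ := Finset.exists_min_image
      (Finset.univ.filter fun l' => ∃ z : ℤ, lam l - lam l' = z) lam
      ⟨l, Finset.mem_filter.mpr ⟨Finset.mem_univ _, 0, by simp⟩⟩
    exact ⟨l', (Finset.mem_filter.mp h1).2, fun l'' h3 =>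
      h2 l'' (Finset.mem_filter.mpr ⟨Finset.mem_univ _, h3⟩)⟩
  choose r hr hmin using h1
  refine ⟨fun l => lam (r l), fun l => ⟨r l, rfl⟩, fun l => ?_, fun l l' z hz => ?_⟩
  · obtain ⟨z, hz⟩ := hr l
    have h2 := hmin l l ⟨0, by simp⟩
    have h3 : (0 : ℚ) ≤ z := by rw [← hz]; linarith
    have h4 : 0 ≤ z := by exact_mod_cast h3
    refine ⟨z.toNat, ?_⟩
    have h5 : ((z.toNat : ℕ) : ℚ) = z := by exact_mod_cast Int.toNat_of_nonneg h4
    rw [h5, ← hz]
    ring
  · obtain ⟨z1, hz1⟩ := hr l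
    obtain ⟨z2, hz2⟩ := hr l'
    simp only at hz
    apply le_antisymm
    · apply hmin l (r l')
      refine ⟨z1 + z, ?_⟩
      push_cast
      rw [← hz1, ← hz]
      ring
    · apply hmin l' (r l)
      refine ⟨z2 - z, ?_⟩
      push_cast
      rw [← hz2, ← hz]
      ring

/-- A natural number congruent to `A / N` modulo `p`. -/
noncomputable def eps (p N : ℕ) (A : ℤ) : ℕ := (((A : ZMod p) * ((N : ℕ) : ZMod p)⁻¹)).val

lemma eps_spec {p N : ℕ} [hp : Fact p.Prime] (hN : 0 < N) (hNp : N < p) (A : ℤ) {K : Type*} [Field K]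
    [CharP K p] : (N : K) * ((eps p N A : ℕ) : K) = ((A : ℤ) : K) := by
  let σ : ZMod p →+* K := ZMod.castHom (dvd_refl p) K
  have h1 : ((N : ℕ) : ZMod p) ≠ 0 := by
    intro h0
    have := Nat.le_of_dvd hN ((ZMod.natCast_eq_zero_iff N p).mp h0)
    omega
  have h2 : ((N : ℕ) : ZMod p) * ((eps p N A : ℕ) : ZMod p) = ((A : ℤ) : ZMod p) := by
    unfold eps
    rw [ZMod.natCast_zmod_val]
    field_simp
  have h3 := congrArg σ h2
  rw [map_mul, map_natCast, map_natCast, map_intCast] at h3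
  exact h3

section

variable {K : Type*} [Field K] {m n : ℕ}

/-- The equation `∑ Q k T ^ k y ^ (k) = 0`. -/
def SolQ (a : Fin m → K) (Q : Fin (n + 1) → K[X]) (f : K[X]) : Prop :=
  ∑ k : Fin (n + 1), Q k * (T a ^ (k : ℕ) * derivative^[(k : ℕ)] f) = 0

lemma iter_pow_mul {p : ℕ} [CharP K p] (u g : K[X]) (i : ℕ) :
    derivative^[i] (u ^ p * g) = u ^ p * derivative^[i] g := by
  have h0 : derivative (u ^ p) = 0 := by
    rw [derivative_pow]
    simp
  induction i with
  | zero => rfl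
  | succ i ih =>
    rw [Function.iterate_succ_apply', ih, derivative_mul, h0, zero_mul, zero_add,
      Function.iterate_succ_apply']

lemma solQ_pow_mul {p : ℕ} [CharP K p] {a : Fin m → K} {Q : Fin (n + 1) → K[X]} {u g : K[X]}
    (hu : u ≠ 0) : SolQ a Q (u ^ p * g) ↔ SolQ a Q g := by
  unfold SolQ
  have h1 : ∑ k : Fin (n + 1), Q k * (T a ^ (k : ℕ) * derivative^[(k : ℕ)] (u ^ p * g)) =
      u ^ p * ∑ k : Fin (n + 1), Q k * (T a ^ (k : ℕ) * derivative^[(k : ℕ)] g) := by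
    rw [Finset.mul_sum]
    exact Finset.sum_congr rfl fun k _ => by rw [iter_pow_mul]; ring
  rw [h1]
  constructor
  · intro h
    exact (mul_eq_zero.mp h).resolve_left (pow_ne_zero _ hu)
  · intro h
    rw [h, mul_zero]

end

section

variable {m n : ℕ} {R : Type*} [CommRing R] {ι : R →+* AlgebraicClosure ℚ}
  {α : Fin m → AlgebraicClosure ℚ} {Q : Fin (n + 1) → (AlgebraicClosure ℚ)[X]} {α' : Fin m → R}
  {Q' : Fin (n + 1) → R[X]} {K : Type*} [Field K] {φ : R →+* K}
  {lam : Fin m → Fin n → ℚ} {phi : Fin n → ℚ}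

/-- A solution modulo `p` with few zeros is, up to `p`-th powers, a twisted polynomial of bounded
degree. -/
theorem decomp (hm : 0 < m) (hι : Function.Injective ι) (hα' : ∀ j, ι (α' j) = α j)
    (hQ' : ∀ k, (Q' k).map ι = Q k) (hlast : Q (Fin.last n) = 1)
    (hdeg : ∀ k : Fin (n + 1), (Q k).natDegree ≤ (n - (k : ℕ)) * (m - 1)) (hE : HasExps α Q lam phi)
    (hinj : Function.Injective (fun j => φ (α' j))) {N₀ : ℕ} (hN₀ : 0 < N₀)
    {a : Fin m → Fin n → ℤ} (ha : ∀ j l, (N₀ : ℚ) * lam j l = a j l)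
    {a' : Fin n → ℤ} (ha' : ∀ l, (N₀ : ℚ) * phi l = a' l)
    {A : Fin m → Fin n → ℤ} {t : Fin m → Fin n → ℕ} (hA : ∀ j l, a j l = A j l + N₀ * t j l)
    {p : ℕ} [hpf : Fact p.Prime] [CharP K p] [IsAlgClosed K] {f : K[X]} (hf0 : f ≠ 0)
    (hf : SolQ (fun j => φ (α' j)) (fun k => (Q' k).map φ) f) {s : ℕ}
    (hs : {x : K | ¬ p ∣ f.rootMultiplicity x ∧ ∀ j, x ≠ φ (α' j)}.ncard ≤ s)
    (hp : N₀ * ((n - 1) * s) + (N₀ * (∑ j, ∑ l, t j l) + ∑ j, ∑ l, (A j l).natAbs +
      ∑ l, (a' l).natAbs + N₀ + n) < p) :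
    ∃ (κ : Fin m → Fin n) (w u z : K[X]), w ≠ 0 ∧ u ≠ 0 ∧ z ≠ 0 ∧
      w ^ p * f = u ^ p * ((∏ j, (X - C (φ (α' j))) ^ eps p N₀ (A j (κ j))) * z) ∧
      twL (fun j => φ (α' j)) (fun j => ((eps p N₀ (A j (κ j)) : ℕ) : K))
        (fun k => (Q' k).map φ) z = 0 ∧
      z.natDegree ≤ ∑ j, ∑ l, (A j l).natAbs + ∑ l, (a' l).natAbs := by
  classical
  have hpp := hpf.out
  have hppos : 0 < p := hpp.pos
  obtain ⟨u₀, g, hu₀, hfg, hglt⟩ := exists_reduced hppos f hf0
  have hg0 : g ≠ 0 := by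
    rintro rfl
    rw [mul_zero] at hfg
    exact hf0 hfg
  have hgsol : SolQ (fun j => φ (α' j)) (fun k => (Q' k).map φ) g := by
    rw [hfg] at hf
    exact (solQ_pow_mul hu₀).mp hf
  obtain ⟨z₀, hz₀0, hgz, hz₀a, hz₀m⟩ := split_sing hinj hg0
  choose κ hκ using fun j => loc_exp hι hα' hQ' hE hinj ha hg0 hgsol j
  have hNK : (N₀ : K) ≠ 0 := by
    intro h0
    have := Nat.le_of_dvd hN₀ ((CharP.cast_eq_zero_iff K p _).mp h0)
    omega
  have hNp : N₀ < p := by omega
  set e : Fin m → ℕ := fun j => g.rootMultiplicity (φ (α' j)) with he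
  set ε : Fin m → ℕ := fun j => eps p N₀ (A j (κ j)) with hε
  have hcong : ∀ j, ∃ c d : ℕ, e j + p * d = ε j + t j (κ j) + p * c := by
    intro j
    have h1 : ((e j : ℕ) : K) = ((ε j + t j (κ j) : ℕ) : K) := by
      apply mul_left_cancel₀ hNK
      rw [hκ j, hA j (κ j)]
      push_cast
      rw [mul_add, eps_spec hN₀ hNp]
    have h2 : e j ≡ ε j + t j (κ j) [MOD p] := (CharP.natCast_eq_natCast K p).mp h1
    rcases le_total (e j) (ε j + t j (κ j)) with h3 | h3
    · obtain ⟨c, hc⟩ := (Nat.modEq_iff_dvd' h3).mp h2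
      exact ⟨0, c, by omega⟩
    · obtain ⟨c, hc⟩ := (Nat.modEq_iff_dvd' h3).mp h2.symm
      exact ⟨c, 0, by omega⟩
  choose c d hcd using hcong
  have hXne : ∀ j, (X - C (φ (α' j)) : K[X]) ≠ 0 := fun j => X_sub_C_ne_zero _
  set E : K[X] := ∏ j, (X - C (φ (α' j))) ^ ε j with hEdef
  set P : K[X] := ∏ j, (X - C (φ (α' j))) ^ t j (κ j) with hPdef
  have hE0 : E ≠ 0 := Finset.prod_ne_zero_iff.mpr fun j _ => pow_ne_zero _ (hXne j)
  have hP0 : P ≠ 0 := Finset.prod_ne_zero_iff.mpr fun j _ => pow_ne_zero _ (hXne j)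
  set w : K[X] := ∏ j, (X - C (φ (α' j))) ^ d j with hw
  set v : K[X] := ∏ j, (X - C (φ (α' j))) ^ c j with hv
  have hw0 : w ≠ 0 := Finset.prod_ne_zero_iff.mpr fun j _ => pow_ne_zero _ (hXne j)
  have hv0 : v ≠ 0 := Finset.prod_ne_zero_iff.mpr fun j _ => pow_ne_zero _ (hXne j)
  have hrel : w ^ p * (∏ j, (X - C (φ (α' j))) ^ e j) = v ^ p * (E * P) := by
    rw [hw, hv, hEdef, hPdef, ← Finset.prod_pow, ← Finset.prod_pow, ← Finset.prod_mul_distrib,
      ← Finset.prod_mul_distrib, ← Finset.prod_mul_distrib]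
    refine Finset.prod_congr rfl fun j _ => ?_
    rw [← pow_mul, ← pow_mul, ← pow_add, ← pow_add, ← pow_add]
    congr 1
    have := hcd j
    rw [mul_comm (d j) p, mul_comm (c j) p]
    omega
  set z := P * z₀ with hz
  have hz0 : z ≠ 0 := mul_ne_zero hP0 hz₀0
  have hmain : w ^ p * f = (u₀ * v) ^ p * (E * z) := by
    rw [hfg, hgz, mul_pow]
    linear_combination (u₀ ^ p * z₀) * hrel
  have hEz : SolQ (fun j => φ (α' j)) (fun k => (Q' k).map φ) (E * z) := by
    have h1 := (solQ_pow_mul hw0).mpr hf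
    rw [hmain] at h1
    exact (solQ_pow_mul (mul_ne_zero hu₀ hv0)).mp h1
  have htw := twL_of_sol hEz
  -- the degree of `z₀`
  have hroots : ∀ x ∈ z₀.roots.toFinset, (¬ p ∣ f.rootMultiplicity x ∧ ∀ j, x ≠ φ (α' j)) ∧
      z₀.rootMultiplicity x ≤ n - 1 := by
    intro x hx
    rw [Multiset.mem_toFinset, mem_roots hz₀0] at hx
    have hxa : ∀ j, x ≠ φ (α' j) := by
      intro j hj
      apply hz₀a j
      rw [← hj]
      exact hx
    have h1 := hz₀m x hxa
    have h2 : 0 < z₀.rootMultiplicity x := (rootMultiplicity_pos hz₀0).mpr hx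
    have h3 := hglt x
    have h4 : f.rootMultiplicity x = p * u₀.rootMultiplicity x + g.rootMultiplicity x := by
      have h5 : u₀ ^ p * g ≠ 0 := by rw [← hfg]; exact hf0
      conv_lhs => rw [hfg]
      rw [rootMultiplicity_mul h5, rootMult_pow]
    refine ⟨⟨fun hdvd => ?_, hxa⟩, ?_⟩
    · rw [h4] at hdvd
      have h5 := (Nat.dvd_add_right (dvd_mul_right p _)).mp hdvd
      have := Nat.le_of_dvd (by omega) h5
      omega
    · have hT0 : (T (fun j => φ (α' j))).eval x ≠ 0 := T_eval_ne hxa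
      have hQlast : Q' (Fin.last n) = 1 := by
        apply map_injective ι hι
        rw [hQ', hlast, Polynomial.map_one]
      have h5 := ordinary (b := fun k : Fin (n + 1) => (Q' k).map φ *
          T (fun j => φ (α' j)) ^ (k : ℕ)) hg0 (x₀ := x) (by
          rw [← hgsol]
          exact Finset.sum_congr rfl fun k _ => by ring) (by
          simp only [hQlast, Polynomial.map_one, one_mul, eval_pow]
          exact pow_ne_zero _ hT0)
      rw [Finset.prod_eq_zero_iff] at h5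
      obtain ⟨i, hi, h6⟩ := h5
      have h7 : ((g.rootMultiplicity x : ℕ) : K) = ((i : ℕ) : K) := sub_eq_zero.mp h6
      have h8 := (CharP.natCast_eq_natCast K p).mp h7
      have h9 := Finset.mem_range.mp hi
      have h10 : g.rootMultiplicity x = i := by
        have h11 : g.rootMultiplicity x % p = i % p := h8
        rw [Nat.mod_eq_of_lt h3, Nat.mod_eq_of_lt (by omega)] at h11
        exact h11
      omega
  have hz₀deg : z₀.natDegree ≤ (n - 1) * s := by
    have h1 : z₀.natDegree = ∑ x ∈ z₀.roots.toFinset, z₀.roots.count x := by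
      rw [Multiset.toFinset_sum_count_eq]
      exact (splits_iff_card_roots.mp (IsAlgClosed.splits z₀)).symm
    rw [h1]
    have h2 : z₀.roots.toFinset.card ≤ s := by
      refine le_trans ?_ hs
      have hfin : {x : K | ¬ p ∣ f.rootMultiplicity x ∧ ∀ j, x ≠ φ (α' j)}.Finite := by
        apply (f.roots.toFinset.finite_toSet).subset
        intro x hx
        rw [Finset.mem_coe, Multiset.mem_toFinset, mem_roots hf0]
        by_contra h0
        apply hx.1
        rw [rootMultiplicity_eq_zero h0]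
        exact dvd_zero _
      rw [← Set.ncard_coe_finset]
      exact Set.ncard_le_ncard (fun x hx => (hroots x hx).1) hfin
    calc ∑ x ∈ z₀.roots.toFinset, z₀.roots.count x ≤ ∑ _x ∈ z₀.roots.toFinset, (n - 1) :=
          Finset.sum_le_sum fun x hx => by rw [count_roots]; exact (hroots x hx).2
      _ = z₀.roots.toFinset.card * (n - 1) := by rw [Finset.sum_const, smul_eq_mul]
      _ ≤ s * (n - 1) := Nat.mul_le_mul_right _ h2
      _ = (n - 1) * s := mul_comm _ _
  have hPdeg : P.natDegree = ∑ j, t j (κ j) :=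
    natDegree_prod_pow (α := fun j => φ (α' j)) (fun j => t j (κ j))
  have hEdeg : E.natDegree = ∑ j, ε j := natDegree_prod_pow (α := fun j => φ (α' j)) ε
  have hzdeg : z.natDegree = ∑ j, t j (κ j) + z₀.natDegree := by
    rw [hz, natDegree_mul hP0 hz₀0, hPdeg]
  obtain ⟨l, hl⟩ := inf_exp (φ := φ) (α' := α') hm hι hQ' hlast hdeg hE ha'
    (mul_ne_zero hE0 hz0) hEz
  have hI : (p : ℤ) ∣ ∑ j, A j (κ j) + N₀ * z.natDegree - a' l := by
    rw [← CharP.intCast_eq_zero_iff K p]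
    rw [natDegree_mul hE0 hz0, hEdeg] at hl
    push_cast at hl ⊢
    rw [← hl, mul_add, Finset.mul_sum]
    have h1 : ∀ j, (N₀ : K) * ((ε j : ℕ) : K) = ((A j (κ j) : ℤ) : K) := fun j =>
      eps_spec hN₀ hNp _
    rw [Finset.sum_congr rfl fun j _ => h1 j]
    ring
  have hAle : (∑ j, A j (κ j)).natAbs ≤ ∑ j, ∑ l, (A j l).natAbs := by
    refine (Int.natAbs_sum_le _ _).trans (Finset.sum_le_sum fun j _ => ?_)
    exact Finset.single_le_sum (f := fun l => (A j l).natAbs) (fun _ _ => Nat.zero_le _)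
      (Finset.mem_univ (κ j))
  have ha'le : (a' l).natAbs ≤ ∑ l, (a' l).natAbs :=
    Finset.single_le_sum (f := fun l => (a' l).natAbs) (fun _ _ => Nat.zero_le _) (Finset.mem_univ l)
  have htle : ∑ j, t j (κ j) ≤ ∑ j, ∑ l, t j l := Finset.sum_le_sum fun j _ =>
    Finset.single_le_sum (f := fun l => t j l) (fun _ _ => Nat.zero_le _) (Finset.mem_univ (κ j))
  have hNz : N₀ * z.natDegree ≤ N₀ * (∑ j, ∑ l, t j l) + N₀ * ((n - 1) * s) := by
    rw [← mul_add]
    apply Nat.mul_le_mul_left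
    omega
  have hI0 : ∑ j, A j (κ j) + N₀ * z.natDegree - a' l = 0 := by
    apply Int.eq_zero_of_abs_lt_dvd hI
    have h1 : ((∑ j, A j (κ j)).natAbs : ℤ) = |∑ j, A j (κ j)| := Int.natCast_natAbs _
    have h2 : ((a' l).natAbs : ℤ) = |a' l| := Int.natCast_natAbs _
    have h3 : |∑ j, A j (κ j) + (N₀ : ℤ) * z.natDegree - a' l| ≤
        |∑ j, A j (κ j)| + ((N₀ * z.natDegree : ℕ) : ℤ) + |a' l| := by
      refine (abs_sub _ _).trans ?_
      refine add_le_add ((abs_add_le _ _).trans ?_) le_rfl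
      refine add_le_add le_rfl ?_
      rw [abs_of_nonneg (by positivity)]
      push_cast
      exact le_rfl
    rw [← h1, ← h2] at h3
    omega
  refine ⟨κ, w, u₀ * v, z, hw0, mul_ne_zero hu₀ hv0, hz0, hmain, htw, ?_⟩
  have h1 : z.natDegree ≤ N₀ * z.natDegree := Nat.le_mul_of_pos_left _ hN₀
  have h2 : ((N₀ * z.natDegree : ℕ) : ℤ) = a' l - ∑ j, A j (κ j) := by
    push_cast
    linarith
  omega

end

end Pool.Agent.X98.PC
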