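import Mathlib

set_option autoImplicit false

open Polynomial

namespace Pool.Agent.X98.PC

/-- Lifting kernels of integral linear maps from almost all residue characteristics. -/
lemma ker_lift {E F : Type*} [AddCommGroup E] [AddCommGroup F] [Module.Finite ℤ F]
    (Φ : E →ₗ[ℤ] F) : ∃ T : ℕ, 0 < T ∧ ∀ p : ℕ, p.Prime → ¬ p ∣ T → ∀ (v : E) (w : F),
      Φ v = (p : ℤ) • w → ∃ u : E, Φ (v - (p : ℤ) • u) = 0 := by
  classical
  have hN : IsNoetherian ℤ F := isNoetherian_of_isNoetherianRing_of_finite ℤ F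
  let Q := F ⧸ LinearMap.range Φ
  obtain ⟨S, hS⟩ := IsNoetherian.noetherian (Submodule.torsion ℤ Q)
  have h1 : ∀ x ∈ S, ∃ a : ℤ, a ≠ 0 ∧ a • x = 0 := by
    intro x hx
    have hx' : x ∈ Submodule.torsion ℤ Q := by
      rw [← hS]; exact Submodule.subset_span hx
    rw [Submodule.mem_torsion_iff] at hx'
    obtain ⟨a, ha⟩ := hx'
    exact ⟨a, nonZeroDivisors.ne_zero a.2, ha⟩
  choose! a ha0 ha using h1
  refine ⟨∏ x ∈ S, (a x).natAbs, Finset.prod_pos fun x hx => Int.natAbs_pos.mpr (ha0 x hx), ?_⟩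
  intro p hp hpT v w hvw
  set T : ℤ := ∏ x ∈ S, a x with hTdef
  have hTabs : T.natAbs = ∏ x ∈ S, (a x).natAbs := by
    rw [hTdef]
    exact map_prod Int.natAbsHom _ _
  have hkill : ∀ q ∈ Submodule.torsion ℤ Q, T • q = 0 := by
    intro q hq
    rw [← hS] at hq
    induction hq using Submodule.span_induction with
    | mem x hx =>
      have h2 : T = (∏ y ∈ S.erase x, a y) * a x := (Finset.prod_erase_mul _ _ hx).symm
      rw [h2, mul_smul, ha x hx, smul_zero]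
    | zero => rw [smul_zero]
    | add x y _ _ hx hy => rw [smul_add, hx, hy, add_zero]
    | smul c x _ hx => rw [smul_comm, hx, smul_zero]
  let q : Q := Submodule.Quotient.mk w
  have hpq : (p : ℤ) • q = 0 := by
    show (p : ℤ) • Submodule.Quotient.mk w = 0
    rw [← Submodule.Quotient.mk_smul, ← hvw, Submodule.Quotient.mk_eq_zero]
    exact LinearMap.mem_range_self Φ v
  have hqt : q ∈ Submodule.torsion ℤ Q := by
    rw [Submodule.mem_torsion_iff]
    exact ⟨⟨(p : ℤ), mem_nonZeroDivisors_of_ne_zero (by exact_mod_cast hp.ne_zero)⟩, hpq⟩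
  have hTq := hkill q hqt
  have hcop : IsCoprime (p : ℤ) T := by
    rw [Int.isCoprime_iff_gcd_eq_one]
    show Nat.gcd (Int.natAbs (p : ℤ)) T.natAbs = 1
    rw [Int.natAbs_natCast, hTabs]
    exact (Nat.Prime.coprime_iff_not_dvd hp).mpr hpT
  obtain ⟨x, y, hxy⟩ := hcop
  have hq0 : q = 0 := by
    have h3 : (x * p + y * T) • q = q := by rw [hxy, one_smul]
    rw [← h3, add_smul, mul_smul, mul_smul, hpq, hTq, smul_zero, smul_zero, add_zero]
  have hw : w ∈ LinearMap.range Φ := (Submodule.Quotient.mk_eq_zero _).mp hq0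
  obtain ⟨u, hu⟩ := hw
  refine ⟨u, ?_⟩
  rw [map_sub, map_smul, hu, hvw, sub_self]

/-- The version for polynomials of bounded degree. -/
theorem poly_lift (Φ : ℤ[X] →ₗ[ℤ] ℤ[X]) (M : ℕ) : ∃ T : ℕ, 0 < T ∧
    ∀ p : ℕ, p.Prime → ¬ p ∣ T → ∀ A : ℤ[X], A.natDegree ≤ M →
      (Φ A).map (Int.castRingHom (ZMod p)) = 0 →
      ∃ A' : ℤ[X], A'.natDegree ≤ M ∧ Φ A' = 0 ∧
        A'.map (Int.castRingHom (ZMod p)) = A.map (Int.castRingHom (ZMod p)) := by
  classical
  -- a bound for the degrees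
  let M' : ℕ := (Finset.range (M + 1)).sup fun i => (Φ (X ^ i)).natDegree
  have hM' : ∀ A : ℤ[X], A.natDegree ≤ M → (Φ A).natDegree ≤ M' := by
    intro A hA
    have h1 : A = ∑ i ∈ Finset.range (M + 1), (A.coeff i) • (X ^ i : ℤ[X]) := by
      conv_lhs => rw [A.as_sum_range' (M + 1) (by omega)]
      refine Finset.sum_congr rfl fun i _ => ?_
      rw [← C_mul_X_pow_eq_monomial, ← smul_eq_C_mul]
    rw [h1, map_sum]
    refine natDegree_sum_le_of_forall_le _ _ fun i hi => ?_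
    rw [map_smul]
    exact (natDegree_smul_le _ _).trans (Finset.le_sup (f := fun i => (Φ (X ^ i)).natDegree) hi)
  have hmem : ∀ A : ℤ[X], ∀ N : ℕ, A ∈ degreeLE ℤ N ↔ A.natDegree ≤ N := by
    intro A N
    rw [mem_degreeLE, natDegree_le_iff_degree_le]
  let Φ' : degreeLE ℤ M →ₗ[ℤ] degreeLE ℤ M' :=
    (Φ.comp (Submodule.subtype _)).codRestrict _ fun A => (hmem _ _).mpr (hM' _ ((hmem _ _).mp A.2))
  have hfin : Module.Finite ℤ (degreeLE ℤ M') := by
    rw [degreeLE_eq_span_X_pow]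
    infer_instance
  obtain ⟨T, hT, h⟩ := ker_lift Φ'
  refine ⟨T, hT, fun p hp hpT A hA h0 => ?_⟩
  have hdiv : ∀ i, (p : ℤ) ∣ (Φ A).coeff i := by
    intro i
    have h2 := congrArg (fun q => q.coeff i) h0
    simp only [coeff_map, coeff_zero, eq_intCast] at h2
    exact (ZMod.intCast_zmod_eq_zero_iff_dvd _ p).mp h2
  obtain ⟨w, hw⟩ : C (p : ℤ) ∣ Φ A := (C_dvd_iff_dvd_coeff _ _).mpr hdiv
  have hwd : w.natDegree ≤ M' := by
    by_cases hw0 : w = 0
    · rw [hw0]; simp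
    have h3 : (Φ A).natDegree = w.natDegree := by
      rw [hw, natDegree_C_mul (by exact_mod_cast hp.ne_zero)]
    rw [← h3]
    exact hM' A hA
  obtain ⟨u, hu⟩ := h p hp hpT ⟨A, (hmem _ _).mpr hA⟩ ⟨w, (hmem _ _).mpr hwd⟩ (by
    apply Subtype.ext
    show Φ A = (p : ℤ) • w
    rw [hw, smul_eq_C_mul])
  refine ⟨A - (p : ℤ) • (u : ℤ[X]), ?_, ?_, ?_⟩
  · exact (hmem _ _).mp ((⟨A, (hmem _ _).mpr hA⟩ - (p : ℤ) • u : degreeLE ℤ M).2)
  · exact congrArg Subtype.val hu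
  · ext i
    simp only [coeff_map, coeff_sub, coeff_smul, smul_eq_mul, eq_intCast]
    push_cast
    simp

end Pool.Agent.X98.PC
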