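import Pool.Agent.W432.PC.Ddx
import Pool.Agent.X98.PC.Lift

set_option autoImplicit false

open Polynomial

namespace Pool.Agent.X98.PC

open Pool.Agent.W432.PC (ddx ddx_algebraMap)

section W

variable {R S : Type*} [CommRing R] [CommRing S]

/-- The numerators of the derivatives of `A / B ^ E`. -/
noncomputable def W (B : R[X]) (E : ℕ) : ℕ → R[X] →ₗ[R] R[X]
  | 0 => LinearMap.id
  | k + 1 => (LinearMap.mulRight R B).comp (derivative.comp (W B E k)) -
      (LinearMap.mulRight R (((E + k : ℕ) : R[X]) * derivative B)).comp (W B E k)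

lemma W_zero (B : R[X]) (E : ℕ) (A : R[X]) : W B E 0 A = A := rfl

lemma W_succ (B : R[X]) (E k : ℕ) (A : R[X]) : W B E (k + 1) A =
    derivative (W B E k A) * B - W B E k A * (((E + k : ℕ) : R[X]) * derivative B) := rfl

lemma W_map (φ : R →+* S) (B : R[X]) (E k : ℕ) (A : R[X]) :
    (W B E k A).map φ = W (B.map φ) E k (A.map φ) := by
  induction k with
  | zero => simp [W_zero]
  | succ k ih =>
    rw [W_succ, W_succ, Polynomial.map_sub, Polynomial.map_mul, Polynomial.map_mul,
      Polynomial.map_mul, ← derivative_map, ← derivative_map, ih]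
    simp

variable {n : ℕ}

/-- The numerator of `∑ b k ∂ ^ k (A / B ^ E)`. -/
noncomputable def Phi (b : Fin (n + 1) → R[X]) (B : R[X]) (E : ℕ) : R[X] →ₗ[R] R[X] :=
  ∑ k : Fin (n + 1), (LinearMap.mulRight R (b k * B ^ (n - (k : ℕ)))).comp (W B E k)

lemma Phi_apply (b : Fin (n + 1) → R[X]) (B : R[X]) (E : ℕ) (A : R[X]) :
    Phi b B E A = ∑ k : Fin (n + 1), W B E k A * (b k * B ^ (n - (k : ℕ))) := by
  simp [Phi, LinearMap.sum_apply, mul_assoc]

lemma Phi_map (φ : R →+* S) (b : Fin (n + 1) → R[X]) (B : R[X]) (E : ℕ) (A : R[X]) :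
    (Phi b B E A).map φ = Phi (fun k => (b k).map φ) (B.map φ) E (A.map φ) := by
  rw [Phi_apply, Phi_apply, Polynomial.map_sum]
  refine Finset.sum_congr rfl fun k _ => ?_
  rw [Polynomial.map_mul, Polynomial.map_mul, Polynomial.map_pow, W_map]

end W

section field

variable {k : Type*} [Field k] {n : ℕ}

/-- `y` is a solution in `k(x)` of the operator `∑ b i * ∂ ^ i`, `∂ = d / dx`. -/
def IsSol (k : Type*) [Field k] {n : ℕ} (b : Fin (n + 1) → ℤ[X]) (y : RatFunc k) : Prop :=
  ∑ i : Fin (n + 1), algebraMap k[X] (RatFunc k) ((b i).map (Int.castRingHom k)) *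
    (⇑(ddx k))^[(i : ℕ)] y = 0

lemma ddx_iter {A B : k[X]} (hB : B ≠ 0) (E i : ℕ) :
    (⇑(ddx k))^[i] (algebraMap k[X] (RatFunc k) A / algebraMap k[X] (RatFunc k) (B ^ E)) =
      algebraMap k[X] (RatFunc k) (W B E i A) / algebraMap k[X] (RatFunc k) (B ^ (E + i)) := by
  have hinj : Function.Injective (algebraMap k[X] (RatFunc k)) := IsFractionRing.injective _ _
  have hB' : ∀ t : ℕ, algebraMap k[X] (RatFunc k) (B ^ t) ≠ 0 := fun t => by
    rw [ne_eq, map_eq_zero_iff _ hinj]
    exact pow_ne_zero _ hB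
  induction i with
  | zero => simp [W_zero]
  | succ i ih =>
    rw [Function.iterate_succ_apply', ih]
    rw [eq_div_iff (hB' _)]
    have h1 := congrArg (ddx k) (div_mul_cancel₀ (algebraMap k[X] (RatFunc k) (W B E i A))
      (hB' (E + i)))
    rw [Derivation.leibniz, smul_eq_mul, smul_eq_mul, ddx_algebraMap, ddx_algebraMap] at h1
    set z := algebraMap k[X] (RatFunc k) (W B E i A) / algebraMap k[X] (RatFunc k) (B ^ (E + i))
      with hz
    have h2 : z * algebraMap k[X] (RatFunc k) (B ^ (E + i)) =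
      algebraMap k[X] (RatFunc k) (W B E i A) := div_mul_cancel₀ _ (hB' _)
    rw [W_succ, map_sub, map_mul, map_mul, map_mul, ← h1, ← h2]
    have h3 : derivative (B ^ (E + i)) * B = ((E + i : ℕ) : k[X]) * B ^ (E + i) * derivative B := by
      rw [derivative_pow]
      rcases Nat.eq_zero_or_pos (E + i) with h0 | h0
      · rw [h0]; simp
      · obtain ⟨t, ht⟩ : ∃ t, E + i = t + 1 := ⟨E + i - 1, by omega⟩
        rw [ht, Nat.add_sub_cancel, C_eq_natCast]
        ring
    have h4 := congrArg (algebraMap k[X] (RatFunc k)) h3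
    rw [map_mul, map_mul, map_mul] at h4
    rw [show E + (i + 1) = (E + i) + 1 by ring, pow_succ, map_mul]
    linear_combination (-z) * h4

lemma isSol_div (b : Fin (n + 1) → ℤ[X]) {A B : k[X]} (hB : B ≠ 0) (E : ℕ) :
    IsSol k b (algebraMap k[X] (RatFunc k) A / algebraMap k[X] (RatFunc k) (B ^ E)) ↔
      Phi (fun i => (b i).map (Int.castRingHom k)) B E A = 0 := by
  have hinj : Function.Injective (algebraMap k[X] (RatFunc k)) := IsFractionRing.injective _ _
  have hB' : ∀ t : ℕ, algebraMap k[X] (RatFunc k) (B ^ t) ≠ 0 := fun t => by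
    rw [ne_eq, map_eq_zero_iff _ hinj]
    exact pow_ne_zero _ hB
  unfold IsSol
  have h1 : (∑ i : Fin (n + 1), algebraMap k[X] (RatFunc k) ((b i).map (Int.castRingHom k)) *
      (⇑(ddx k))^[(i : ℕ)] (algebraMap k[X] (RatFunc k) A /
        algebraMap k[X] (RatFunc k) (B ^ E))) * algebraMap k[X] (RatFunc k) (B ^ (E + n)) =
      algebraMap k[X] (RatFunc k) (Phi (fun i => (b i).map (Int.castRingHom k)) B E A) := by
    rw [Phi_apply, map_sum, Finset.sum_mul]
    refine Finset.sum_congr rfl fun i _ => ?_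
    rw [ddx_iter hB, map_mul, map_mul]
    have h2 : B ^ (E + n) = B ^ (E + (i : ℕ)) * B ^ (n - (i : ℕ)) := by
      rw [← pow_add]
      congr 1
      have := i.isLt
      omega
    rw [h2, map_mul]
    have h3 := hB' (E + (i : ℕ))
    field_simp
  constructor
  · intro h
    apply hinj
    rw [← h1, h, zero_mul, map_zero]
  · intro h
    rw [h, map_zero] at h1
    exact (mul_eq_zero.mp h1).resolve_right (hB' _)

lemma isSol_algebraMap (b : Fin (n + 1) → ℤ[X]) (f : k[X]) :
    IsSol k b (algebraMap k[X] (RatFunc k) f) ↔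
      ∑ i : Fin (n + 1), (b i).map (Int.castRingHom k) * derivative^[(i : ℕ)] f = 0 := by
  have hinj : Function.Injective (algebraMap k[X] (RatFunc k)) := IsFractionRing.injective _ _
  have h1 : ∀ i : ℕ, (⇑(ddx k))^[i] (algebraMap k[X] (RatFunc k) f) =
      algebraMap k[X] (RatFunc k) (derivative^[i] f) := by
    intro i
    induction i with
    | zero => rfl
    | succ i ih => rw [Function.iterate_succ_apply', ih, ddx_algebraMap,
        ← Function.iterate_succ_apply' (f := derivative)]
  unfold IsSol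
  constructor
  · intro h
    apply hinj
    rw [map_sum, map_zero, ← h]
    exact Finset.sum_congr rfl fun i _ => by rw [map_mul, h1]
  · intro h
    rw [← map_zero (algebraMap k[X] (RatFunc k)), ← h, map_sum]
    exact Finset.sum_congr rfl fun i _ => by rw [map_mul, h1]

lemma iter_const_mul {c : RatFunc k} (hc : ddx k c = 0) (y : RatFunc k) (i : ℕ) :
    (⇑(ddx k))^[i] (c * y) = c * (⇑(ddx k))^[i] y := by
  induction i with
  | zero => rfl
  | succ i ih =>
    rw [Function.iterate_succ_apply', ih, Derivation.leibniz, hc, smul_zero, add_zero, smul_eq_mul,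
      Function.iterate_succ_apply']

lemma IsSol.const_mul {b : Fin (n + 1) → ℤ[X]} {c y : RatFunc k} (hc : ddx k c = 0)
    (hy : IsSol k b y) : IsSol k b (c * y) := by
  unfold IsSol at hy ⊢
  simp only [iter_const_mul hc]
  have := congrArg (fun x => c * x) hy
  simp only [mul_zero, Finset.mul_sum] at this
  rw [← this]
  exact Finset.sum_congr rfl fun i _ => by ring

end field

end Pool.Agent.X98.PC
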