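import Pool.Agent.X98.PC.Core

set_option autoImplicit false

open Polynomial

namespace Pool.Agent.X98.PC

open Pool.Agent.W432.PC (ddx ddx_algebraMap exists_closed_point)
open Pool.Agent.W432.WB (exists_ring exists_lift geo)
open Pool.Agent.W432.HK (lead_loc lead_inf dsum dsum_eval dsum_ne_zero map_ne_of_large)

/-- A combination of falling factorials over a commutative ring. -/
noncomputable def ds {R : Type*} [CommRing R] {n : ℕ} (a : Fin (n + 1) → R) : R[X] :=
  ∑ k : Fin (n + 1), C (a k) * descPochhammer R k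

lemma ds_map {R S : Type*} [CommRing R] [CommRing S] (φ : R →+* S) {n : ℕ} (a : Fin (n + 1) → R) :
    (ds a).map φ = ds (fun k => φ (a k)) := by
  unfold ds
  rw [Polynomial.map_sum]
  refine Finset.sum_congr rfl fun k _ => ?_
  rw [Polynomial.map_mul, map_C, descPochhammer_map]

lemma ds_eval {R : Type*} [CommRing R] {n : ℕ} (a : Fin (n + 1) → R) (x : R) :
    (ds a).eval x = ∑ k : Fin (n + 1), a k * (descPochhammer R k).eval x := by
  simp [ds, eval_finsetSum]

lemma ds_eq_dsum {K : Type*} [Field K] {n : ℕ} (a : Fin (n + 1) → K) : ds a = dsum a := rfl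

/-- The degrees of the solutions modulo `p`. -/
theorem infExp_gen {n : ℕ} {b : Fin (n + 1) → ℤ[X]} (hb : b (Fin.last n) ≠ 0) :
    ∃ N : ℤ[X], N ≠ 0 ∧ InfExp b N := by
  classical
  let G : Fin (n + 1) → ℤ[X] := fun k => X ^ (n - (k : ℕ)) * b k
  have hne : (Finset.univ.filter fun k : Fin (n + 1) => b k ≠ 0).Nonempty :=
    ⟨Fin.last n, Finset.mem_filter.mpr ⟨Finset.mem_univ _, hb⟩⟩
  obtain ⟨k₁, hk₁, hmax⟩ := Finset.exists_max_image _ (fun k => (G k).natDegree) hne
  rw [Finset.mem_filter] at hk₁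
  set D := (G k₁).natDegree with hD
  have hDle : ∀ k, (G k).natDegree ≤ D := by
    intro k
    by_cases h0 : b k = 0
    · simp [G, h0]
    · exact hmax k (Finset.mem_filter.mpr ⟨Finset.mem_univ _, h0⟩)
  have hG1 : G k₁ ≠ 0 := mul_ne_zero (pow_ne_zero _ X_ne_zero) hk₁.2
  have ha1 : (G k₁).coeff D ≠ 0 := leadingCoeff_ne_zero.mpr hG1
  refine ⟨ds fun k => (G k).coeff D, ?_, 0, fun p _ hpp f hf0 hf => ?_⟩
  · intro h0
    have h1 := congrArg (Polynomial.map (Int.castRingHom ℚ)) h0
    rw [ds_map, Polynomial.map_zero, ds_eq_dsum] at h1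
    refine dsum_ne_zero (a := fun k => Int.castRingHom ℚ ((G k).coeff D)) (fun h2 => ?_) h1
    have h3 := congrFun h2 k₁
    simp only [eq_intCast, Pi.zero_apply, Int.cast_eq_zero] at h3
    exact ha1 h3
  · have hfact : Fact p.Prime := ⟨hpp⟩
    have h1 := lead_inf (g := fun k => (G k).map (Int.castRingHom (ZMod p))) (D := D)
      (fun k => natDegree_map_le.trans (hDle k)) hf0 (by
        have h3 := congrArg (fun x => X ^ n * x) hf
        simp only [mul_zero, Finset.mul_sum] at h3
        rw [← h3]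
        refine Finset.sum_congr rfl fun k _ => ?_
        simp only [G]
        rw [Polynomial.map_mul, Polynomial.map_pow, map_X]
        have h5 : (X : (ZMod p)[X]) ^ n = X ^ (k : ℕ) * X ^ (n - (k : ℕ)) := by
          rw [← pow_add]
          congr 1
          have := k.isLt
          omega
        rw [h5]
        ring)
    rw [← ZMod.intCast_zmod_eq_zero_iff_dvd]
    have h2 : (((ds fun k => (G k).coeff D).eval (f.natDegree : ℤ) : ℤ) : ZMod p) =
        ((ds fun k => (G k).coeff D).map (Int.castRingHom (ZMod p))).eval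
          ((f.natDegree : ℕ) : ZMod p) := by
      have h3 := eval_map_apply (p := ds fun k => (G k).coeff D) (f := Int.castRingHom (ZMod p))
        (x := (f.natDegree : ℤ))
      simp only [eq_intCast, Int.cast_natCast] at h3
      rw [← h3]
    rw [h2, ds_map, ds_eval, ← h1]
    refine Finset.sum_congr rfl fun k _ => ?_
    rw [coeff_map]

/-- A nonzero polynomial over an algebraic extension of the rationals divides a nonzero integral
polynomial. -/
lemma exists_mul {F : Type*} [Field F] [CharZero F] [IsAlgClosed F]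
    (halg : ∀ x : F, ∃ N : ℤ[X], N ≠ 0 ∧ aeval x N = 0) {I : F[X]} (hI : I ≠ 0) :
    ∃ N : ℤ[X], N ≠ 0 ∧ I ∣ N.map (Int.castRingHom F) := by
  classical
  choose N hN0 hN using halg
  refine ⟨(I.roots.map N).prod, ?_, ?_⟩
  · rw [Ne, Multiset.prod_eq_zero_iff]
    intro h
    obtain ⟨x, _, hx⟩ := Multiset.mem_map.mp h
    exact hN0 x hx
  · have h1 := (IsAlgClosed.splits I).eq_prod_roots
    have h2 : (I.roots.map fun a => X - C a).prod ∣
        ((I.roots.map N).prod).map (Int.castRingHom F) := by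
      rw [Polynomial.map_multiset_prod, Multiset.map_map]
      refine Multiset.prod_dvd_prod_of_dvd _ _ fun x _ => ?_
      rw [Function.comp_apply, dvd_iff_isRoot, IsRoot.def, eval_map]
      have h3 := hN x
      rw [aeval_def] at h3
      rw [← h3]
      congr 1
    have hlc : I.leadingCoeff ≠ 0 := leadingCoeff_ne_zero.mpr hI
    have h4 : C I.leadingCoeff * (I.roots.map fun a => X - C a).prod ∣
        ((I.roots.map N).prod).map (Int.castRingHom F) :=
      (IsUnit.mul_left_dvd (isUnit_C.mpr (isUnit_iff_ne_zero.mpr hlc))).mpr h2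
    rwa [← h1] at h4

/-- The orders of the solutions modulo `p` at the zeros of the leading coefficient. -/
theorem goodExp_gen {n : ℕ} {b : Fin (n + 1) → ℤ[X]} (hb : b (Fin.last n) ≠ 0) :
    ∃ N : ℤ[X], N ≠ 0 ∧ GoodExp b N := by
  classical
  let F := AlgebraicClosure ℚ
  have halg : ∀ x : F, ∃ N : ℤ[X], N ≠ 0 ∧ aeval x N = 0 := by
    intro x
    have h1 : IsAlgebraic ℚ x := by
      have h2 : Algebra.IsAlgebraic ℚ F := by
        convert AlgebraicClosure.isAlgebraic ℚ
        · rfl
        · exact Subsingleton.elim _ _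
      exact h2.isAlgebraic x
    have h2 : IsAlgebraic ℤ x := (IsFractionRing.isAlgebraic_iff ℤ ℚ F).mpr h1
    exact h2
  set bn : F[X] := (b (Fin.last n)).map (Int.castRingHom F) with hbn
  have hbn0 : bn ≠ 0 := (Polynomial.map_ne_zero_iff (Int.cast_injective)).mpr hb
  -- local data
  have hloc : ∀ x₀ : F, ∃ (μ : ℕ) (c : Fin (n + 1) → F[X]),
      (∀ k : Fin (n + 1), (X - C x₀) ^ (n - (k : ℕ)) * (b k).map (Int.castRingHom F) =
        (X - C x₀) ^ μ * c k) ∧ ∃ k, (c k).eval x₀ ≠ 0 := by
    intro x₀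
    set τ : F[X] := X - C x₀ with hτ
    let G : Fin (n + 1) → F[X] := fun k => τ ^ (n - (k : ℕ)) * (b k).map (Int.castRingHom F)
    have hGn : G (Fin.last n) = bn := by simp [G, hbn]
    let S : Set ℕ := {μ | ∀ k, τ ^ μ ∣ G k}
    have hS0 : (0 : ℕ) ∈ S := fun k => by rw [pow_zero]; exact one_dvd _
    have hSb : ∀ μ ∈ S, μ ≤ bn.rootMultiplicity x₀ := by
      intro μ hμ
      have := hμ (Fin.last n)
      rw [hGn] at this
      exact (le_rootMultiplicity_iff hbn0).mpr this
    have hbdd : BddAbove S := ⟨_, hSb⟩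
    have hμ : sSup S ∈ S := Nat.sSup_mem ⟨0, hS0⟩ hbdd
    choose c hc using hμ
    refine ⟨sSup S, c, hc, ?_⟩
    by_contra hno
    push Not at hno
    have h1 : sSup S + 1 ∈ S := by
      intro k
      obtain ⟨w, hw⟩ := dvd_iff_isRoot.mpr (hno k)
      rw [hc k, hw, pow_succ]
      exact ⟨w, by ring⟩
    have h2 := le_csSup hbdd h1
    omega
  choose μ c hc hcne using hloc
  -- indicial polynomials
  let I : F → F[X] := fun x => ds fun k => (c x k).eval x
  have hI : ∀ x, I x ≠ 0 := by
    intro x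
    simp only [I]
    rw [ds_eq_dsum]
    apply dsum_ne_zero
    intro h
    obtain ⟨k, hk⟩ := hcne x
    exact hk (congrFun h k)
  choose Nx hNx hIN using fun x => exists_mul halg (hI x)
  choose J hJ using hIN
  let Z : Finset F := bn.roots.toFinset
  refine ⟨∏ x ∈ Z, Nx x, Finset.prod_ne_zero_iff.mpr fun x _ => hNx x, ?_⟩
  -- the ring
  let S : Finset F := Z ∪ (Z.biUnion fun x => Finset.univ.biUnion fun k : Fin (n + 1) =>
    (c x k).support.image (c x k).coeff) ∪ (Z.biUnion fun x => (J x).support.image (J x).coeff)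
  obtain ⟨R, _, _, _, _, ι, hι, hS⟩ := exists_ring S
  have hmapinj : Function.Injective (Polynomial.map ι) := map_injective ι hι
  have hcast : ι.comp (Int.castRingHom R) = Int.castRingHom F := RingHom.ext_int _ _
  have hx' : ∀ x : F, ∃ y : R, x ∈ Z → ι y = x := by
    intro x
    by_cases hx : x ∈ Z
    · obtain ⟨y, hy⟩ := hS x (by
        simp only [S, Finset.mem_union]
        exact Or.inl (Or.inl hx))
      exact ⟨y, fun _ => hy⟩
    · exact ⟨0, fun h => absurd h hx⟩
  choose xx hxx using hx'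
  have hc' : ∀ (x : F) (k : Fin (n + 1)), ∃ P : R[X], x ∈ Z → P.map ι = c x k := by
    intro x k
    by_cases hx : x ∈ Z
    · obtain ⟨P, hP⟩ := exists_lift ι (c x k) fun i hi => hS _ (by
        simp only [S, Finset.mem_union, Finset.mem_biUnion, Finset.mem_univ, true_and]
        exact Or.inl (Or.inr ⟨x, hx, k, Finset.mem_image.mpr ⟨i, hi, rfl⟩⟩))
      exact ⟨P, fun _ => hP⟩
    · exact ⟨0, fun h => absurd h hx⟩
  choose cc hcc using hc'
  have hJ' : ∀ x : F, ∃ P : R[X], x ∈ Z → P.map ι = J x := by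
    intro x
    by_cases hx : x ∈ Z
    · obtain ⟨P, hP⟩ := exists_lift ι (J x) fun i hi => hS _ (by
        simp only [S, Finset.mem_union, Finset.mem_biUnion]
        exact Or.inr ⟨x, hx, Finset.mem_image.mpr ⟨i, hi, rfl⟩⟩)
      exact ⟨P, fun _ => hP⟩
    · exact ⟨0, fun h => absurd h hx⟩
  choose JJ hJJ using hJ'
  -- factorization of the leading coefficient
  have hprod : (b (Fin.last n)).map (Int.castRingHom R) =
      C (((b (Fin.last n)).leadingCoeff : ℤ) : R) * ∏ x ∈ Z, (X - C (xx x)) ^ bn.rootMultiplicity x := by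
    apply hmapinj
    rw [Polynomial.map_map, hcast, Polynomial.map_mul, map_C, Polynomial.map_prod]
    have h1 := (IsAlgClosed.splits bn).eq_prod_roots
    have h2 : bn.leadingCoeff = (((b (Fin.last n)).leadingCoeff : ℤ) : F) := by
      rw [hbn, leadingCoeff_map_of_injective (Int.cast_injective)]
      simp
    conv_lhs => rw [← hbn, h1]
    rw [h2, map_intCast (f := ι)]
    congr 1
    rw [Finset.prod_multiset_map_count]
    refine Finset.prod_congr rfl fun x hx => ?_
    rw [Polynomial.map_pow, Polynomial.map_sub, map_X, map_C, hxx x hx, count_roots]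
  have hrel : ∀ x ∈ Z, ∀ k : Fin (n + 1),
      (X - C (xx x)) ^ (n - (k : ℕ)) * (b k).map (Int.castRingHom R) =
        (X - C (xx x)) ^ μ x * cc x k := by
    intro x hx k
    apply hmapinj
    rw [Polynomial.map_mul, Polynomial.map_mul, Polynomial.map_pow, Polynomial.map_pow,
      Polynomial.map_sub, map_X, map_C, hxx x hx, Polynomial.map_map, hcast, hcc x k hx]
    exact hc x k
  have hNrel : ∀ x ∈ Z, (Nx x).map (Int.castRingHom R) =
      (ds fun k => (cc x k).eval (xx x)) * JJ x := by
    intro x hx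
    apply hmapinj
    rw [Polynomial.map_map, hcast, Polynomial.map_mul, hJJ x hx, ds_map, hJ x]
    congr 1
    simp only [I]
    congr 1
    ext1 k
    rw [← eval_map_apply, hcc x k hx, hxx x hx]
  obtain ⟨P₁, hP₁⟩ := exists_closed_point R (one_ne_zero (α := R))
  refine ⟨max P₁ (b (Fin.last n)).leadingCoeff.natAbs, fun p hp hpp => ?_⟩
  rw [max_lt_iff] at hp
  obtain ⟨𝔪, h𝔪, hpm, -⟩ := hP₁ p hpp hp.1
  obtain ⟨K, _, _, _, φ, hφ⟩ := geo hpp hpm
  refine ⟨K, inferInstance, inferInstance, inferInstance, fun f hf0 hf x₀ hx₀ => ?_⟩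
  have hcastK : φ.comp (Int.castRingHom R) = Int.castRingHom K := RingHom.ext_int _ _
  have hprodK := congrArg (Polynomial.map φ) hprod
  rw [Polynomial.map_map, hcastK, Polynomial.map_mul, map_C, Polynomial.map_prod] at hprodK
  rw [hprodK, eval_mul, eval_C, eval_prod] at hx₀
  have hlc : φ (((b (Fin.last n)).leadingCoeff : ℤ) : R) ≠ 0 := by
    rw [map_intCast]
    intro h0
    have h1 := (CharP.intCast_eq_zero_iff K p _).mp h0
    have h2 := Int.natAbs_dvd_natAbs.mpr h1
    rw [Int.natAbs_natCast] at h2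
    have := Nat.le_of_dvd (Int.natAbs_pos.mpr (leadingCoeff_ne_zero.mpr hb)) h2
    omega
  have h1 := (mul_eq_zero.mp hx₀).resolve_left hlc
  rw [Finset.prod_eq_zero_iff] at h1
  obtain ⟨x, hxZ, h2⟩ := h1
  have hx₀' : x₀ = φ (xx x) := by
    rw [Polynomial.map_pow, Polynomial.map_sub, map_X, map_C, eval_pow, eval_sub, eval_X, eval_C] at h2
    exact sub_eq_zero.mp (pow_eq_zero_iff (by
      intro h3
      rw [h3, pow_zero] at h2
      exact one_ne_zero h2) |>.mp h2)
  have hlead := lead_loc (c := fun k : Fin (n + 1) => (cc x k).map φ) (x₀ := x₀) hf0 (by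
    have h3 : (X - C x₀) ^ μ x * ∑ k : Fin (n + 1), (cc x k).map φ *
        ((X - C x₀) ^ (k : ℕ) * derivative^[(k : ℕ)] f) = 0 := by
      have h3 := congrArg (fun y => (X - C x₀) ^ n * y) hf
      simp only [mul_zero, Finset.mul_sum] at h3
      rw [← h3, Finset.mul_sum]
      refine Finset.sum_congr rfl fun k _ => ?_
      have h4 := congrArg (Polynomial.map φ) (hrel x hxZ k)
      rw [Polynomial.map_mul, Polynomial.map_mul, Polynomial.map_pow, Polynomial.map_pow,
        Polynomial.map_sub, map_X, map_C, Polynomial.map_map, hcastK, ← hx₀'] at h4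
      have h5 : (X - C x₀) ^ n = (X - C x₀) ^ (k : ℕ) * (X - C x₀) ^ (n - (k : ℕ)) := by
        rw [← pow_add]
        congr 1
        have := k.isLt
        omega
      rw [h5]
      linear_combination (-((X - C x₀) ^ (k : ℕ) * derivative^[(k : ℕ)] f)) * h4
    exact (mul_eq_zero.mp h3).resolve_left (pow_ne_zero _ (X_sub_C_ne_zero _)))
  rw [← CharP.intCast_eq_zero_iff K p, eval_prod, Int.cast_prod]
  refine Finset.prod_eq_zero hxZ ?_
  have h3 := congrArg (fun q => (q.map φ).eval ((f.rootMultiplicity x₀ : ℕ) : K)) (hNrel x hxZ)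
  simp only [Polynomial.map_map, hcastK, Polynomial.map_mul, eval_mul, ds_map, ds_eval] at h3
  have h4 : ∑ k : Fin (n + 1), φ ((cc x k).eval (xx x)) *
      (descPochhammer K k).eval ((f.rootMultiplicity x₀ : ℕ) : K) = 0 := by
    rw [← hlead]
    refine Finset.sum_congr rfl fun k _ => ?_
    rw [hx₀', eval_map_apply]
  rw [h4, zero_mul] at h3
  rw [← h3]
  have h5 := eval_map_apply (p := Nx x) (f := Int.castRingHom K)
    (x := ((f.rootMultiplicity x₀ : ℕ) : ℤ))
  simp only [eq_intCast, Int.cast_natCast] at h5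
  rw [← h5]

end Pool.Agent.X98.PC
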