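import Pool.Agent.X98.PC.ExpGen
import Pool.Agent.W432.HK.Stmt

set_option autoImplicit false

open Polynomial

namespace Pool.Agent.X98.PC

open Pool.Agent.W432.PC (T Tc T_eq T_monic T_ne T_natDegree Tc_monic Tc_eval_ne T_map Tc_map
  exists_closed_point)
open Pool.Agent.W432.WB
open Pool.Agent.W432.HK (lead_loc lead_inf dsum dsum_eval dsum_ne_zero map_ne_of_large FuchsianWith
  CommonDen)

/-- Reduction of a Fuchsian operator modulo all large primes. -/
theorem reduce {m n : ℕ} {b : Fin (n + 1) → ℤ[X]} {α : Fin m → AlgebraicClosure ℚ}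
    {Q : Fin (n + 1) → (AlgebraicClosure ℚ)[X]} (hb : b (Fin.last n) ≠ 0) (hF : IsFuchs b α Q) :
    ∃ (R : Type) (_ : CommRing R) (ι : R →+* AlgebraicClosure ℚ) (α' : Fin m → R)
      (Q' : Fin (n + 1) → R[X]), Function.Injective ι ∧ (∀ j, ι (α' j) = α j) ∧
      (∀ k, (Q' k).map ι = Q k) ∧ ∃ P₀ : ℕ, ∀ p : ℕ, P₀ < p → p.Prime →
        ∃ (K : Type) (_ : Field K) (_ : CharP K p) (_ : IsAlgClosed K) (φ : R →+* K),
          Function.Injective (fun j => φ (α' j)) ∧ ∀ y : K[X],
            ∑ k : Fin (n + 1), (b k).map (Int.castRingHom K) * derivative^[(k : ℕ)] y = 0 →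
            ∑ k : Fin (n + 1), (Q' k).map φ * (T (fun j => φ (α' j)) ^ (k : ℕ) *
              derivative^[(k : ℕ)] y) = 0 := by
  classical
  let S : Finset (AlgebraicClosure ℚ) := (Finset.univ.image α) ∪
    (Finset.univ.image fun x : Fin m × Fin m => (α x.1 - α x.2)⁻¹) ∪
    (Finset.univ.biUnion fun k : Fin (n + 1) => (Q k).support.image (Q k).coeff)
  obtain ⟨R, _, _, _, _, ι, hι, hS⟩ := exists_ring S
  have hα' : ∀ j, ∃ x, ι x = α j := fun j => hS _ (by
    simp only [S, Finset.mem_union, Finset.mem_image, Finset.mem_univ, true_and]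
    exact Or.inl (Or.inl ⟨j, rfl⟩))
  choose α' hα' using hα'
  have hinv : ∀ i j, ∃ x, ι x = (α i - α j)⁻¹ := fun i j => hS _ (by
    simp only [S, Finset.mem_union, Finset.mem_image, Finset.mem_univ, true_and]
    exact Or.inl (Or.inr ⟨(i, j), rfl⟩))
  have hQl : ∀ k, ∃ P : R[X], P.map ι = Q k := fun k => exists_lift ι (Q k) fun i hi => hS _ (by
    simp only [S, Finset.mem_union, Finset.mem_biUnion, Finset.mem_univ, true_and]
    exact Or.inr ⟨k, Finset.mem_image.mpr ⟨i, hi, rfl⟩⟩)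
  choose Q' hQ' using hQl
  have hαe : (fun j => ι (α' j)) = α := funext hα'
  refine ⟨R, inferInstance, ι, α', Q', hι, hα', hQ', ?_⟩
  obtain ⟨P₁, hP₁⟩ := exists_closed_point R (one_ne_zero (α := R))
  refine ⟨max P₁ (b (Fin.last n)).leadingCoeff.natAbs, fun p hp hpp => ?_⟩
  rw [max_lt_iff] at hp
  obtain ⟨𝔪, h𝔪, hpm, -⟩ := hP₁ p hpp hp.1
  obtain ⟨K, _, _, _, φ, hφ⟩ := geo hpp hpm
  have hbK := map_ne_of_large (K := K) hb hp.2
  have hinj : Function.Injective (fun j => φ (α' j)) := by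
    intro i j hij
    by_contra hne
    obtain ⟨x, hx⟩ := hinv i j
    have h1 : (α' i - α' j) * x = 1 := by
      apply hι
      rw [map_mul, map_sub, hα', hα', hx, map_one]
      exact mul_inv_cancel₀ (sub_ne_zero.mpr fun h => hne (hF.inj h))
    have h2 := congrArg φ h1
    simp only at hij
    rw [map_mul, map_sub, hij, sub_self, zero_mul, map_one] at h2
    exact zero_ne_one h2
  refine ⟨K, inferInstance, inferInstance, inferInstance, φ, hinj, fun y hy => ?_⟩
  have hcast : ι.comp (Int.castRingHom R) = Int.castRingHom (AlgebraicClosure ℚ) :=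
    RingHom.ext_int _ _
  have hcast' : φ.comp (Int.castRingHom R) = Int.castRingHom K :=
    RingHom.ext_int _ _
  have hbQ : ∀ k : Fin (n + 1), T α' ^ (n - (k : ℕ)) * (b k).map (Int.castRingHom R) =
      (b (Fin.last n)).map (Int.castRingHom R) * Q' k := by
    intro k
    apply map_injective ι hι
    rw [Polynomial.map_mul, Polynomial.map_mul, Polynomial.map_pow, T_map, Polynomial.map_map,
      Polynomial.map_map, hcast, hQ', hαe]
    exact hF.eq k
  apply mul_left_cancel₀ hbK
  rw [mul_zero, Finset.mul_sum]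
  have h2 := congrArg (fun x => T (fun j => φ (α' j)) ^ n * x) hy
  simp only [mul_zero, Finset.mul_sum] at h2
  rw [← h2]
  refine Finset.sum_congr rfl fun k _ => ?_
  have h4 := congrArg (Polynomial.map φ) (hbQ k)
  rw [Polynomial.map_mul, Polynomial.map_mul, Polynomial.map_pow, T_map, Polynomial.map_map,
    Polynomial.map_map, hcast'] at h4
  have h3 : T (fun j => φ (α' j)) ^ n =
      T (fun j => φ (α' j)) ^ (k : ℕ) * T (fun j => φ (α' j)) ^ (n - (k : ℕ)) := by
    rw [← pow_add]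
    congr 1
    have := k.isLt
    omega
  rw [h3]
  linear_combination (-(T (fun j => φ (α' j)) ^ (k : ℕ) * derivative^[(k : ℕ)] y)) * h4

/-- From rational roots in `F` to integral linear factors over the ring `R`. -/
lemma clear {R : Type*} [CommRing R] (ι : R →+* AlgebraicClosure ℚ) (hι : Function.Injective ι)
    {n : ℕ} {I : R[X]} {u : R} {lam : Fin n → ℚ} {N₀ : ℕ} {a : Fin n → ℤ}
    (h : I.map ι = C (ι u) * ∏ l, (X - C ((lam l : ℚ) : AlgebraicClosure ℚ)))
    (ha : ∀ l, (N₀ : ℚ) * lam l = a l) :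
    C ((N₀ : R) ^ n) * I = C u * ∏ l, (C (N₀ : R) * X - C ((a l : ℤ) : R)) := by
  apply map_injective ι hι
  rw [Polynomial.map_mul, Polynomial.map_mul, Polynomial.map_prod, h, map_C, map_C]
  have h1 : ∀ l, (C (N₀ : R) * X - C ((a l : ℤ) : R)).map ι =
      C (N₀ : AlgebraicClosure ℚ) * (X - C ((lam l : ℚ) : AlgebraicClosure ℚ)) := by
    intro l
    rw [Polynomial.map_sub, Polynomial.map_mul, map_C, map_C, map_X, map_natCast, map_intCast,
      mul_sub, ← C_mul]
    congr 2
    have := congrArg (fun q : ℚ => (q : AlgebraicClosure ℚ)) (ha l)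
    push_cast at this
    exact this.symm
  simp only [h1]
  rw [Finset.prod_mul_distrib, Finset.prod_const, Finset.card_univ, Fintype.card_fin, map_pow,
    map_natCast, C_pow]
  ring

theorem goodExp_rat {m n : ℕ} {b : Fin (n + 1) → ℤ[X]} {α : Fin m → AlgebraicClosure ℚ}
    {lam : Fin m → Fin n → ℚ} {phi : Fin n → ℚ} (h : FuchsianWith b α lam phi) {N₀ : ℕ}
    {a : Fin m → Fin n → ℤ} (ha : ∀ j l, (N₀ : ℚ) * lam j l = a j l) :
    GoodExp b ((∏ j, ∏ l, (C (N₀ : ℤ) * X - C (a j l))) *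
      ∏ i ∈ Finset.range n, (C (N₀ : ℤ) * X - C ((N₀ : ℤ) * i))) := by
  classical
  obtain ⟨hb, Q, hF, hE⟩ := h
  obtain ⟨R, _, ι, α', Q', hι, hα', hQ', P₀, hP₀⟩ := reduce hb hF
  refine ⟨P₀, fun p hp hpp => ?_⟩
  obtain ⟨K, _, _, _, φ, hinj, hsol⟩ := hP₀ p hp hpp
  refine ⟨K, inferInstance, inferInstance, inferInstance, fun f hf0 hf x₀ _ => ?_⟩
  have hsolf := hsol f hf
  have hαe : (fun j => ι (α' j)) = α := funext hα'
  have hQe : (fun k => (Q' k).map ι) = Q := funext hQ'
  have hQlast : Q' (Fin.last n) = 1 := by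
    apply map_injective ι hι
    rw [hQ', hF.last, Polynomial.map_one]
  rw [← CharP.intCast_eq_zero_iff K p, eval_mul, Int.cast_mul]
  set e : K := ((f.rootMultiplicity x₀ : ℕ) : K) with he
  by_cases hx : ∃ j, φ (α' j) = x₀
  · obtain ⟨j, hj⟩ := hx
    have hlead := lead_loc (c := fun k : Fin (n + 1) => (Q' k).map φ *
        Tc (fun j => φ (α' j)) j ^ (k : ℕ)) (x₀ := x₀) hf0 (by
      rw [← hsolf]
      refine Finset.sum_congr rfl fun k _ => ?_
      rw [T_eq (α := fun j => φ (α' j)) j, mul_pow, hj]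
      ring)
    have hind : ((indLoc α' Q' j).map φ).eval e = 0 := by
      rw [indLoc_map, ← hlead]
      unfold indLoc
      rw [eval_finsetSum]
      refine Finset.sum_congr rfl fun k _ => ?_
      rw [eval_mul, eval_C, eval_mul, eval_pow, he, ← hj,
        ← derivative_T_eval (fun j => φ (α' j)) j]
    have hcl := clear ι hι (I := indLoc α' Q' j) (u := (derivative (T α')).eval (α' j) ^ n)
      (lam := lam j) (N₀ := N₀) (a := a j) (by
        rw [indLoc_map, hαe, hQe, hE.1 j]
        congr 2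
        rw [map_pow, ← eval_map_apply, ← derivative_map, T_map, hαe, hα']) (ha j)
    have h1 := congrArg (fun q => (q.map φ).eval e) hcl
    simp only [Polynomial.map_mul, eval_mul] at h1
    rw [hind, mul_zero, map_C, eval_C, map_pow] at h1
    have hT' : φ ((derivative (T α')).eval (α' j)) ≠ 0 := by
      rw [← eval_map_apply, ← derivative_map, T_map, derivative_T_eval (fun j => φ (α' j)) j]
      exact Tc_eval_ne hinj j
    have h2 := (mul_eq_zero.mp h1.symm).resolve_left (pow_ne_zero _ hT')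
    rw [Polynomial.map_prod, eval_prod, Finset.prod_eq_zero_iff] at h2
    obtain ⟨l, -, h3⟩ := h2
    have h4 : (((∏ j, ∏ l, (C (N₀ : ℤ) * X - C (a j l)) : ℤ[X]).eval
        ((f.rootMultiplicity x₀ : ℕ) : ℤ) : ℤ) : K) = 0 := by
      rw [eval_prod, Int.cast_prod]
      refine Finset.prod_eq_zero (Finset.mem_univ j) ?_
      rw [eval_prod, Int.cast_prod]
      refine Finset.prod_eq_zero (Finset.mem_univ l) ?_
      rw [← h3, he]
      simp
    rw [h4, zero_mul]
  · push Not at hx
    have hT0 : (T (fun j => φ (α' j))).eval x₀ ≠ 0 :=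
      Pool.Agent.W432.PC.T_eval_ne fun j => (hx j).symm
    have h1 := ordinary (b := fun k : Fin (n + 1) => (Q' k).map φ * T (fun j => φ (α' j)) ^ (k : ℕ))
      hf0 (x₀ := x₀) (by
        rw [← hsolf]
        exact Finset.sum_congr rfl fun k _ => by ring) (by
        simp only [hQlast, Polynomial.map_one, one_mul, eval_pow]
        exact pow_ne_zero _ hT0)
    rw [Finset.prod_eq_zero_iff] at h1
    obtain ⟨i, hi, h2⟩ := h1
    have h4 : (((∏ i ∈ Finset.range n, (C (N₀ : ℤ) * X - C ((N₀ : ℤ) * i)) : ℤ[X]).eval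
        ((f.rootMultiplicity x₀ : ℕ) : ℤ) : ℤ) : K) = 0 := by
      rw [eval_prod, Int.cast_prod]
      refine Finset.prod_eq_zero hi ?_
      simp only [eval_sub, eval_mul, eval_C, eval_X]
      push_cast
      linear_combination (N₀ : K) * h2
    rw [h4, mul_zero]

theorem infExp_rat {m n : ℕ} (hm : 0 < m) {b : Fin (n + 1) → ℤ[X]} {α : Fin m → AlgebraicClosure ℚ}
    {lam : Fin m → Fin n → ℚ} {phi : Fin n → ℚ} (h : FuchsianWith b α lam phi) {N₀ : ℕ}
    {a : Fin n → ℤ} (ha : ∀ l, (N₀ : ℚ) * phi l = a l) :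
    InfExp b (∏ l, (C (N₀ : ℤ) * X - C (a l))) := by
  classical
  obtain ⟨hb, Q, hF, hE⟩ := h
  obtain ⟨R, _, ι, α', Q', hι, hα', hQ', P₀, hP₀⟩ := reduce hb hF
  refine ⟨P₀, fun p hp hpp f hf0 hf => ?_⟩
  have hfact : Fact p.Prime := ⟨hpp⟩
  obtain ⟨K, _, _, _, φ, hinj, hsol⟩ := hP₀ p hp hpp
  let σ : ZMod p →+* K := ZMod.castHom (dvd_refl p) K
  have hσ : Function.Injective σ := σ.injective
  have hcomp : σ.comp (Int.castRingHom (ZMod p)) = Int.castRingHom K := RingHom.ext_int _ _
  have hfK : ∑ k : Fin (n + 1), (b k).map (Int.castRingHom K) * derivative^[(k : ℕ)] (f.map σ) = 0 := by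
    have h1 := congrArg (Polynomial.map σ) hf
    simp only [Polynomial.map_sum, Polynomial.map_mul, Polynomial.map_map, hcomp,
      Polynomial.map_zero, Polynomial.iterate_derivative_map] at h1 ⊢
    exact h1
  have hf0K : f.map σ ≠ 0 := (Polynomial.map_ne_zero_iff hσ).mpr hf0
  have hsolf := hsol _ hfK
  have hαe : (fun j => ι (α' j)) = α := funext hα'
  have hQe : (fun k => (Q' k).map ι) = Q := funext hQ'
  have hQlast : Q' (Fin.last n) = 1 := by
    apply map_injective ι hι
    rw [hQ', hF.last, Polynomial.map_one]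
  have hQdeg : ∀ k : Fin (n + 1), ((Q' k).map φ).natDegree ≤ (n - (k : ℕ)) * (m - 1) := by
    intro k
    refine natDegree_map_le.trans ?_
    rw [← natDegree_map_eq_of_injective hι, hQ']
    exact hF.deg k
  have hcoeff : ∀ k : Fin (n + 1), n * m =
      ((n - (k : ℕ)) * (m - 1)) + ((n - (k : ℕ)) + (k : ℕ) * m) := by
    intro k
    have hk := k.isLt
    obtain ⟨m', rfl⟩ : ∃ m', m = m' + 1 := ⟨m - 1, by omega⟩
    obtain ⟨t, ht⟩ : ∃ t, n = t + (k : ℕ) := ⟨n - k, by omega⟩
    have h1 : n - (k : ℕ) = t := by omega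
    rw [h1, Nat.add_sub_cancel]
    conv_lhs => rw [ht]
    ring
  have hTd : ∀ k : Fin (n + 1), (X ^ (n - (k : ℕ)) * T (fun j => φ (α' j)) ^ (k : ℕ)).natDegree =
      (n - (k : ℕ)) + (k : ℕ) * m := by
    intro k
    rw [natDegree_mul (pow_ne_zero _ X_ne_zero) (pow_ne_zero _ T_ne), natDegree_X_pow,
      natDegree_pow, T_natDegree]
  have hTl : ∀ k : Fin (n + 1), (X ^ (n - (k : ℕ)) * T (fun j => φ (α' j)) ^ (k : ℕ)).coeff
      ((n - (k : ℕ)) + (k : ℕ) * m) = 1 := by
    intro k
    have h1 := ((monic_X_pow (n - (k : ℕ))).mul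
      ((T_monic (α := fun j => φ (α' j))).pow (k : ℕ))).coeff_natDegree
    rwa [hTd k] at h1
  have hG : ∀ k : Fin (n + 1), ((Q' k).map φ *
      (X ^ (n - (k : ℕ)) * T (fun j => φ (α' j)) ^ (k : ℕ))).coeff (n * m) =
      ((Q' k).map φ).coeff ((n - (k : ℕ)) * (m - 1)) := by
    intro k
    rw [hcoeff k, coeff_mul_add_eq_of_natDegree_le (hQdeg k) (hTd k).le, hTl, mul_one]
  have hlead := lead_inf
    (g := fun k => (Q' k).map φ * (X ^ (n - (k : ℕ)) * T (fun j => φ (α' j)) ^ (k : ℕ)))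
    (D := n * m)
    (fun k => by
      refine natDegree_mul_le.trans ?_
      rw [hTd, hcoeff k]
      have := hQdeg k
      omega) hf0K
    (by
      have h2 := congrArg (fun x => X ^ n * x) hsolf
      simp only [mul_zero, Finset.mul_sum] at h2
      rw [← h2]
      refine Finset.sum_congr rfl fun k _ => ?_
      have h3 : (X : K[X]) ^ n = X ^ (n - (k : ℕ)) * X ^ (k : ℕ) := by
        rw [← pow_add]
        congr 1
        have := k.isLt
        omega
      rw [h3]
      ring)
  set e : K := (((f.map σ).natDegree : ℕ) : K) with he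
  have hind : ((indInf m Q').map φ).eval e = 0 := by
    rw [indInf_map, ← hlead]
    unfold indInf
    rw [eval_finsetSum]
    refine Finset.sum_congr rfl fun k _ => ?_
    rw [eval_mul, eval_C, hG]
  have hcl := clear ι hι (I := indInf m Q') (u := 1) (lam := phi) (N₀ := N₀) (a := a) (by
    rw [indInf_map, hQe, hE.2]
    simp) ha
  have h1 := congrArg (fun q => (q.map φ).eval e) hcl
  simp only [Polynomial.map_mul, eval_mul] at h1
  rw [hind, mul_zero, map_one, Polynomial.map_one, eval_one, one_mul, Polynomial.map_prod,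
    eval_prod] at h1
  rw [← CharP.intCast_eq_zero_iff K p, eval_prod, Int.cast_prod, h1]
  refine Finset.prod_congr rfl fun l _ => ?_
  rw [he, natDegree_map_eq_of_injective hσ]
  simp

end Pool.Agent.X98.PC
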