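import Pool.Agent.X98.PC.Tw

set_option autoImplicit false

open Polynomial

namespace Pool.Agent.X98.PC

open Pool.Agent.W432.PC (exists_ne_zero_of_trivial_kernel)

universe u

/-- Finitely many coefficients determine the elements of a finite dimensional space of
polynomials. -/
lemma exists_coords {F : Type*} [Field F] (V : Submodule F F[X]) [Module.Finite F V] :
    ∃ I : Finset ℕ, I.card ≤ Module.finrank F V ∧ ∀ z ∈ V, (∀ i ∈ I, z.coeff i = 0) → z = 0 := by
  classical
  induction hd : Module.finrank F V using Nat.strong_induction_on generalizing V with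
  | _ d ih =>
    subst hd
    by_cases h0 : V = ⊥
    · refine ⟨∅, Nat.zero_le _, fun z hz _ => ?_⟩
      rw [h0, Submodule.mem_bot] at hz
      exact hz
    · obtain ⟨v, hv, hv0⟩ := (Submodule.ne_bot_iff _).mp h0
      obtain ⟨i, hi⟩ : ∃ i, v.coeff i ≠ 0 := by
        by_contra hno
        push Not at hno
        exact hv0 (Polynomial.ext fun i => by rw [hno i, coeff_zero])
      let V' : Submodule F F[X] := V ⊓ LinearMap.ker (lcoeff F i)
      have hle : V' ≤ V := inf_le_left
      have hlt : V' < V := by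
        refine lt_of_le_of_ne hle fun h => hi ?_
        have : v ∈ V' := by rw [h]; exact hv
        exact (Submodule.mem_inf.mp this).2
      have hfin' : Module.Finite F V' := Submodule.finiteDimensional_of_le hle
      have hrank : Module.finrank F V' < Module.finrank F V := Submodule.finrank_lt_finrank_of_lt hlt
      obtain ⟨I, hI, hIz⟩ := ih _ hrank V' rfl
      refine ⟨insert i I, (Finset.card_insert_le _ _).trans (by omega), fun z hz hzi => ?_⟩
      apply hIz z
      · refine Submodule.mem_inf.mpr ⟨hz, ?_⟩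
        exact hzi i (Finset.mem_insert_self _ _)
      · exact fun j hj => hzi j (Finset.mem_insert_of_mem hj)

variable {m n : ℕ}

/-- The space of twisted polynomial solutions of degree at most `δ`. -/
noncomputable def Vsp {F : Type*} [Field F] (a ν : Fin m → F) (Q : Fin (n + 1) → F[X]) (δ : ℕ) :
    Submodule F F[X] := degreeLE F δ ⊓ LinearMap.ker (twL a ν Q)

instance {F : Type*} [Field F] (a ν : Fin m → F) (Q : Fin (n + 1) → F[X]) (δ : ℕ) :
    Module.Finite F (Vsp a ν Q δ) := by
  have h1 : Module.Finite F (degreeLE F (δ : WithBot ℕ)) := by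
    classical
    rw [degreeLE_eq_span_X_pow]
    infer_instance
  exact Submodule.finiteDimensional_of_le (inf_le_left : Vsp a ν Q δ ≤ degreeLE F δ)

lemma mem_Vsp {F : Type*} [Field F] {a ν : Fin m → F} {Q : Fin (n + 1) → F[X]} {δ : ℕ} {z : F[X]} :
    z ∈ Vsp a ν Q δ ↔ z.natDegree ≤ δ ∧ twL a ν Q z = 0 := by
  unfold Vsp
  rw [Submodule.mem_inf, mem_degreeLE, natDegree_le_iff_degree_le, LinearMap.mem_ker]

/-- The dimension of the space of twisted solutions does not increase modulo almost all points. -/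
theorem spec {R : Type} [CommRing R] [IsDomain R] {F : Type} [Field F] (ι : R →+* F)
    (hι : Function.Injective ι) (a ν : Fin m → R) (Q : Fin (n + 1) → R[X]) (δ : ℕ) :
    ∃ I : Finset ℕ,
      I.card ≤ Module.finrank F (Vsp (fun j => ι (a j)) (fun j => ι (ν j))
        (fun k => (Q k).map ι) δ) ∧
      ∃ g : R, g ≠ 0 ∧ ∀ (K : Type) [Field K] (φ : R →+* K), φ g ≠ 0 → ∀ z : K[X],
        z.natDegree ≤ δ → twL (fun j => φ (a j)) (fun j => φ (ν j)) (fun k => (Q k).map φ) z = 0 →
        (∀ i ∈ I, z.coeff i = 0) → z = 0 := by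
  classical
  obtain ⟨I, hI, hIz⟩ := exists_coords (Vsp (fun j => ι (a j)) (fun j => ι (ν j))
    (fun k => (Q k).map ι) δ)
  refine ⟨I, hI, ?_⟩
  let D : ℕ := Finset.univ.sup fun t : Fin (δ + 1) => (twL a ν Q (X ^ (t : ℕ))).natDegree
  let M : Matrix (Fin (D + 1) ⊕ {i // i ∈ I}) (Fin (δ + 1)) R := Matrix.of fun x t =>
    Sum.elim (fun i : Fin (D + 1) => (twL a ν Q (X ^ (t : ℕ))).coeff i)
      (fun i : {i // i ∈ I} => if (t : ℕ) = i then 1 else 0) x
  -- the meaning of the matrix
  have key : ∀ {L : Type} [Field L] (χ : R →+* L) (v : Fin (δ + 1) → L),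
      ((M.map χ).mulVec v = 0 ↔
        twL (fun j => χ (a j)) (fun j => χ (ν j)) (fun k => (Q k).map χ)
          (∑ t, C (v t) * X ^ (t : ℕ)) = 0 ∧
        ∀ i ∈ I, (∑ t : Fin (δ + 1), C (v t) * X ^ (t : ℕ)).coeff i = 0) := by
    intro L _ χ v
    have h1 : twL (fun j => χ (a j)) (fun j => χ (ν j)) (fun k => (Q k).map χ)
        (∑ t : Fin (δ + 1), C (v t) * X ^ (t : ℕ)) =
        ∑ t : Fin (δ + 1), C (v t) * (twL a ν Q (X ^ (t : ℕ))).map χ := by
      rw [map_sum]
      refine Finset.sum_congr rfl fun t _ => ?_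
      rw [← smul_eq_C_mul, map_smul, twL_map, smul_eq_C_mul, Polynomial.map_pow, map_X]
    have h2 : ∀ i, (twL (fun j => χ (a j)) (fun j => χ (ν j)) (fun k => (Q k).map χ)
        (∑ t : Fin (δ + 1), C (v t) * X ^ (t : ℕ))).coeff i =
        ∑ t : Fin (δ + 1), v t * χ ((twL a ν Q (X ^ (t : ℕ))).coeff i) := by
      intro i
      rw [h1, finsetSum_coeff]
      exact Finset.sum_congr rfl fun t _ => by rw [coeff_C_mul, coeff_map]
    have h3 : ∀ i : Fin (D + 1), (M.map χ).mulVec v (Sum.inl i) =
        (twL (fun j => χ (a j)) (fun j => χ (ν j)) (fun k => (Q k).map χ)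
          (∑ t : Fin (δ + 1), C (v t) * X ^ (t : ℕ))).coeff i := by
      intro i
      rw [h2]
      simp only [Matrix.mulVec, dotProduct, Matrix.map_apply, M, Matrix.of_apply, Sum.elim_inl]
      exact Finset.sum_congr rfl fun t _ => mul_comm _ _
    have h4 : ∀ i : {i // i ∈ I}, (M.map χ).mulVec v (Sum.inr i) =
        (∑ t : Fin (δ + 1), C (v t) * X ^ (t : ℕ)).coeff i := by
      intro i
      simp only [Matrix.mulVec, dotProduct, Matrix.map_apply, M, Matrix.of_apply, Sum.elim_inr]
      rw [finsetSum_coeff]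
      refine Finset.sum_congr rfl fun t _ => ?_
      rw [coeff_C_mul, coeff_X_pow]
      by_cases h : (t : ℕ) = i
      · rw [if_pos h, if_pos h.symm, map_one]; ring
      · rw [if_neg h, if_neg (fun h' => h h'.symm), map_zero]; ring
    constructor
    · intro h
      refine ⟨?_, fun i hi => ?_⟩
      · ext i
        rw [coeff_zero]
        by_cases hi : i < D + 1
        · have := congrFun h (Sum.inl ⟨i, hi⟩)
          rw [h3] at this
          exact this
        · rw [h2]
          refine Finset.sum_eq_zero fun t _ => ?_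
          have h5 : (twL a ν Q (X ^ (t : ℕ))).natDegree ≤ D :=
            Finset.le_sup (f := fun t : Fin (δ + 1) => (twL a ν Q (X ^ (t : ℕ))).natDegree)
              (Finset.mem_univ t)
          rw [coeff_eq_zero_of_natDegree_lt (by omega), map_zero, mul_zero]
      · have := congrFun h (Sum.inr ⟨i, hi⟩)
        rw [h4] at this
        exact this
    · rintro ⟨h5, h6⟩
      ext x
      rcases x with i | i
      · rw [h3, h5]; simp
      · rw [h4, h6 i i.2]; rfl
  have hexp : ∀ {L : Type} [Field L] (z : L[X]), z.natDegree ≤ δ →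
      ∑ t : Fin (δ + 1), C (z.coeff t) * X ^ (t : ℕ) = z := by
    intro L _ z hz
    conv_rhs => rw [z.as_sum_range_C_mul_X_pow' (n := δ + 1) (by omega)]
    rw [Finset.sum_range]
  have hcoef : ∀ {L : Type} [Field L] (v : Fin (δ + 1) → L) (t : Fin (δ + 1)),
      (∑ t : Fin (δ + 1), C (v t) * X ^ (t : ℕ)).coeff t = v t := by
    intro L _ v t
    rw [finsetSum_coeff, Finset.sum_eq_single t]
    · rw [coeff_C_mul, coeff_X_pow, if_pos rfl, mul_one]
    · intro s _ hs
      rw [coeff_C_mul, coeff_X_pow, if_neg, mul_zero]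
      intro h
      exact hs (Fin.ext h.symm)
    · intro h; exact absurd (Finset.mem_univ _) h
  have hdegv : ∀ {L : Type} [Field L] (v : Fin (δ + 1) → L),
      (∑ t : Fin (δ + 1), C (v t) * X ^ (t : ℕ)).natDegree ≤ δ := by
    intro L _ v
    refine natDegree_sum_le_of_forall_le _ _ fun t _ => ?_
    refine (natDegree_C_mul_X_pow_le _ _).trans ?_
    have := t.isLt
    omega
  obtain ⟨g, hg, hgood⟩ := exists_ne_zero_of_trivial_kernel.{0} M (by
    intro v hv
    let ψ : FractionRing R →+* F := IsFractionRing.lift hι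
    have hψ : ψ.comp (algebraMap R (FractionRing R)) = ι :=
      RingHom.ext fun x => IsFractionRing.lift_algebraMap hι x
    have h1 : (M.map ι).mulVec (fun t => ψ (v t)) = 0 := by
      ext x
      have h2 := congrArg ψ (congrFun hv x)
      simp only [Matrix.mulVec, dotProduct, Matrix.map_apply, map_sum, map_mul, Pi.zero_apply,
        map_zero] at h2 ⊢
      rw [← h2]
      refine Finset.sum_congr rfl fun t _ => ?_
      rw [← hψ]
      rfl
    obtain ⟨h2, h3⟩ := (key ι _).mp h1
    have h4 := hIz _ (mem_Vsp.mpr ⟨hdegv _, h2⟩) h3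
    ext t
    have h5 := hcoef (fun t => ψ (v t)) t
    rw [h4, coeff_zero] at h5
    exact ψ.injective (by rw [← h5, Pi.zero_apply, map_zero]))
  refine ⟨g, hg, fun K _ φ hφ z hz hzt hzi => ?_⟩
  have h1 := hgood K φ hφ (fun t => z.coeff t) ((key φ _).mpr (by rw [hexp z hz]; exact ⟨hzt, hzi⟩))
  rw [← hexp z hz]
  refine Finset.sum_eq_zero fun t _ => ?_
  have := congrFun h1 t
  simp only [Pi.zero_apply] at this
  rw [this, C_0, zero_mul]

end Pool.Agent.X98.PC
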