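import Pool.Agent.X98.PC.Decomp
import Pool.Agent.X98.PC.Spec
import Pool.Agent.X98.PC.Char0

set_option autoImplicit false

open Polynomial

namespace Pool.Agent.X98.PC

open Pool.Agent.W432.PC (T Tc T_eq T_monic T_ne T_natDegree Tc_monic Tc_eval_ne Tc_eval_eq_zero
  T_eval_ne T_map Tc_map ddx ddx_algebraMap)
open Pool.Agent.W432.WB
open Pool.Agent.W432.HK

/-- The number of the zeros and poles in an algebraic closure of `F_p` of a rational function over
`F_p` whose order is not divisible by `p`. -/
noncomputable def nz (p : ℕ) [Fact p.Prime] (y : RatFunc (ZMod p)) : ℕ :=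
  {x : AlgebraicClosure (ZMod p) |
    ¬ (p : ℤ) ∣ ((y.num.map (algebraMap (ZMod p) (AlgebraicClosure (ZMod p)))).rootMultiplicity x : ℤ) -
      ((y.denom.map (algebraMap (ZMod p) (AlgebraicClosure (ZMod p)))).rootMultiplicity x : ℤ)}.ncard

/-- Comparison of the numbers of zeros. -/
lemma ncard_le {p : ℕ} [hpf : Fact p.Prime] {K : Type} [Field K] [CharP K p] [IsAlgClosed K]
    {y : RatFunc (ZMod p)} (hy : y ≠ 0) (Pr : K → Prop) :
    {x : K | ¬ p ∣ ((y.num * y.denom ^ (p - 1)).map
      (ZMod.castHom (dvd_refl p) K)).rootMultiplicity x ∧ Pr x}.ncard ≤ nz p y := by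
  classical
  let AC := AlgebraicClosure (ZMod p)
  let _ : Algebra (ZMod p) K := ZMod.algebra K p
  let θ : AC →ₐ[ZMod p] K := IsAlgClosed.lift
  have hθ : Function.Injective θ := θ.toRingHom.injective
  have hcomp : (θ : AC →+* K).comp (algebraMap (ZMod p) AC) = ZMod.castHom (dvd_refl p) K :=
    Subsingleton.elim _ _
  set f := y.num * y.denom ^ (p - 1) with hf
  have hnum : y.num ≠ 0 := fun h => hy (RatFunc.num_eq_zero_iff.mp h)
  have hden : y.denom ≠ 0 := RatFunc.denom_ne_zero y
  have hf0 : f ≠ 0 := mul_ne_zero hnum (pow_ne_zero _ hden)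
  have hinjA : Function.Injective (algebraMap (ZMod p) AC) := (algebraMap (ZMod p) AC).injective
  have hfA0 : f.map (algebraMap (ZMod p) AC) ≠ 0 := (Polynomial.map_ne_zero_iff hinjA).mpr hf0
  have hmap : f.map (ZMod.castHom (dvd_refl p) K) = (f.map (algebraMap (ZMod p) AC)).map (θ : AC →+* K) := by
    rw [Polynomial.map_map, hcomp]
  have hp1 : 1 ≤ p := hpf.out.one_lt.le
  have hmult : ∀ x : AC, (f.map (algebraMap (ZMod p) AC)).rootMultiplicity x =
      (y.num.map (algebraMap (ZMod p) AC)).rootMultiplicity x +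
        (p - 1) * (y.denom.map (algebraMap (ZMod p) AC)).rootMultiplicity x := by
    intro x
    have h1 : f.map (algebraMap (ZMod p) AC) = y.num.map (algebraMap (ZMod p) AC) *
        (y.denom.map (algebraMap (ZMod p) AC)) ^ (p - 1) := by
      rw [hf, Polynomial.map_mul, Polynomial.map_pow]
    rw [h1, rootMultiplicity_mul (by rw [← h1]; exact hfA0), rootMult_pow]
  have hfin : {x : AC | ¬ (p : ℤ) ∣
      ((y.num.map (algebraMap (ZMod p) AC)).rootMultiplicity x : ℤ) -
      ((y.denom.map (algebraMap (ZMod p) AC)).rootMultiplicity x : ℤ)}.Finite := by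
    apply ((f.map (algebraMap (ZMod p) AC)).roots.toFinset.finite_toSet).subset
    intro x hx
    rw [Finset.mem_coe, Multiset.mem_toFinset, mem_roots hfA0]
    by_contra h0
    have h1 := rootMultiplicity_eq_zero h0
    rw [hmult x] at h1
    apply hx
    have h2 : (y.num.map (algebraMap (ZMod p) AC)).rootMultiplicity x = 0 := by omega
    have h3 : (p - 1) * (y.denom.map (algebraMap (ZMod p) AC)).rootMultiplicity x = 0 := by omega
    rcases Nat.mul_eq_zero.mp h3 with h4 | h4
    · have := hpf.out.one_lt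
      omega
    · rw [h2, h4]; simp
  unfold nz
  refine (Set.ncard_le_ncard (t := θ '' {x : AC | ¬ (p : ℤ) ∣
      ((y.num.map (algebraMap (ZMod p) AC)).rootMultiplicity x : ℤ) -
      ((y.denom.map (algebraMap (ZMod p) AC)).rootMultiplicity x : ℤ)}) ?_ (hfin.image _)).trans
    (Set.ncard_image_le hfin)
  rintro x ⟨hx, -⟩
  -- `x` is the image of a root
  have hxr : x ∈ (f.map (ZMod.castHom (dvd_refl p) K)).roots := by
    rw [mem_roots (by rw [hmap]; exact (Polynomial.map_ne_zero_iff hθ).mpr hfA0)]
    by_contra h0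
    apply hx
    rw [rootMultiplicity_eq_zero h0]
    exact dvd_zero _
  rw [hmap, (IsAlgClosed.splits (f.map (algebraMap (ZMod p) AC))).roots_map] at hxr
  obtain ⟨x', -, rfl⟩ := Multiset.mem_map.mp hxr
  refine ⟨x', fun hdvd => hx ?_, rfl⟩
  have h1 : (f.map (ZMod.castHom (dvd_refl p) K)).rootMultiplicity (θ x') =
      (f.map (algebraMap (ZMod p) AC)).rootMultiplicity x' := by
    rw [hmap]
    exact (eq_rootMultiplicity_map (f := (θ : AC →+* K)) hθ x').symm
  show p ∣ (f.map (ZMod.castHom (dvd_refl p) K)).rootMultiplicity (θ x')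
  rw [h1, hmult]
  have h2 : ((p : ℕ) : ℤ) ∣ (((y.num.map (algebraMap (ZMod p) AC)).rootMultiplicity x' +
      (p - 1) * (y.denom.map (algebraMap (ZMod p) AC)).rootMultiplicity x' : ℕ) : ℤ) := by
    have h3 : (((y.num.map (algebraMap (ZMod p) AC)).rootMultiplicity x' +
        (p - 1) * (y.denom.map (algebraMap (ZMod p) AC)).rootMultiplicity x' : ℕ) : ℤ) =
        (((y.num.map (algebraMap (ZMod p) AC)).rootMultiplicity x' : ℤ) -
          ((y.denom.map (algebraMap (ZMod p) AC)).rootMultiplicity x' : ℤ)) +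
        p * (y.denom.map (algebraMap (ZMod p) AC)).rootMultiplicity x' := by
      rw [Nat.cast_add, Nat.cast_mul, Nat.cast_sub hp1]
      push_cast
      ring
    rw [h3]
    exact dvd_add hdvd (dvd_mul_right _ _)
  exact_mod_cast h2

/-- Solutions of one class are few. -/
lemma count_class {K : Type*} [Field K] {p n : ℕ} [CharP K p] {f w u z : Fin n → K[X]}
    (hind : ∀ c : Fin n → K[X], (∀ j, derivative (c j) = 0) → ∑ j, c j * f j = 0 → c = 0)
    (hw : ∀ j, w j ≠ 0) (hu : ∀ j, u j ≠ 0) (E : K[X]) (s : Finset (Fin n))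
    (hrel : ∀ j ∈ s, w j ^ p * f j = u j ^ p * (E * z j)) (I : Finset ℕ) (V : Submodule K K[X])
    (hz : ∀ j ∈ s, z j ∈ V) (hV : ∀ v ∈ V, (∀ i ∈ I, v.coeff i = 0) → v = 0) :
    s.card ≤ I.card := by
  classical
  by_contra hlt
  push Not at hlt
  let Φ : ({j // j ∈ s} → K) →ₗ[K] ({i // i ∈ I} → K) :=
    LinearMap.pi fun i => ∑ j : {j // j ∈ s}, ((z j.1).coeff i.1) • LinearMap.proj j
  have hdim : Module.finrank K ({i // i ∈ I} → K) < Module.finrank K ({j // j ∈ s} → K) := by
    rw [Module.finrank_fintype_fun_eq_card, Module.finrank_fintype_fun_eq_card, Fintype.card_coe,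
      Fintype.card_coe]
    exact hlt
  obtain ⟨c, hc, hc0⟩ := (Submodule.ne_bot_iff _).mp (LinearMap.ker_ne_bot_of_finrank_lt hdim (f := Φ))
  rw [LinearMap.mem_ker] at hc
  have hsum : ∑ j : {j // j ∈ s}, C (c j) * z j.1 = 0 := by
    apply hV
    · refine V.sum_mem fun j _ => ?_
      rw [← smul_eq_C_mul]
      exact V.smul_mem _ (hz j.1 j.2)
    · intro i hi
      have h1 := congrFun hc ⟨i, hi⟩
      simp only [Φ, LinearMap.pi_apply, LinearMap.sum_apply, LinearMap.smul_apply,
        LinearMap.proj_apply, smul_eq_mul, Pi.zero_apply] at h1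
      rw [finsetSum_coeff, ← h1]
      exact Finset.sum_congr rfl fun j _ => by rw [coeff_C_mul, mul_comm]
  apply hc0
  have hder : ∀ q : K[X], derivative (q ^ p) = 0 := by
    intro q
    rw [derivative_pow]
    simp
  let c' : Fin n → K[X] := fun j => if h : j ∈ s then
    C (c ⟨j, h⟩) * ((∏ l ∈ s.erase j, u l) ^ p * w j ^ p) else 0
  have h1 := hind c' (by
    intro j
    simp only [c']
    split_ifs with h
    · rw [← mul_pow, derivative_mul, derivative_C, hder, zero_mul, mul_zero, add_zero]
    · exact derivative_zero) (by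
    have h2 : ∑ j, c' j * f j = ∑ j : {j // j ∈ s}, c' j.1 * f j.1 := by
      rw [Finset.sum_coe_sort s (fun j => c' j * f j)]
      symm
      apply Finset.sum_subset (Finset.subset_univ s)
      intro j _ hj
      simp only [c', dif_neg hj, zero_mul]
    rw [h2]
    have h3 : ∀ j : {j // j ∈ s}, c' j.1 * f j.1 =
        ((∏ l ∈ s, u l) ^ p * E) * (C (c j) * z j.1) := by
      rintro ⟨j, hj⟩
      simp only [c', dif_pos hj]
      have h4 := hrel j hj
      rw [← Finset.prod_erase_mul s u hj, mul_pow]
      linear_combination (C (c ⟨j, hj⟩) * (∏ l ∈ s.erase j, u l) ^ p) * h4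
    rw [Finset.sum_congr rfl fun j _ => h3 j, ← Finset.mul_sum, hsum, mul_zero])
  ext1 ⟨j, hj⟩
  have h2 := congrFun h1 j
  simp only [c', dif_pos hj, Pi.zero_apply] at h2
  rcases mul_eq_zero.mp h2 with h3 | h3
  · exact C_eq_zero.mp h3
  · exfalso
    rcases mul_eq_zero.mp h3 with h4 | h4
    · exact pow_ne_zero _ (Finset.prod_ne_zero_iff.mpr fun l _ => hu l) h4
    · exact pow_ne_zero _ (hw j) h4

/-- Functions independent over the constants have a nonzero minor of derivatives. -/
lemma exists_minor {F : Type*} [Field F] (D : F →+ F) (hD : ∀ x y, D (x * y) = x * D y + y * D x)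
    {r : ℕ} (y : Fin r → F)
    (hind : ∀ c : Fin r → F, (∀ j, D (c j) = 0) → ∑ j, c j * y j = 0 → c = 0) :
    ∃ e : Fin r → ℕ, (Matrix.of fun i j : Fin r => (⇑D)^[e i] (y j)).det ≠ 0 := by
  classical
  let Rel : (Fin r → F) → Prop := fun v => ∀ i : ℕ, ∑ j, v j * (⇑D)^[i] (y j) = 0
  have hno : ∀ v, Rel v → v = 0 := by
    by_contra hex
    push Not at hex
    let S : Set ℕ := {t | ∃ v : Fin r → F, v ≠ 0 ∧ Rel v ∧
      (Finset.univ.filter fun j => v j ≠ 0).card = t}
    have hS : S.Nonempty := by
      obtain ⟨l, h1, h2⟩ := hex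
      exact ⟨_, l, h2, h1, rfl⟩
    obtain ⟨v, hv0, hv, hcard⟩ := Nat.sInf_mem hS
    obtain ⟨j₀, hj₀⟩ := Function.ne_iff.mp hv0
    have hj₀' : v j₀ ≠ 0 := hj₀
    let w : Fin r → F := fun j => (v j₀)⁻¹ * v j
    have hw : Rel w := by
      intro i
      simp only [w, mul_assoc, ← Finset.mul_sum]
      rw [hv i, mul_zero]
    have hw1 : w j₀ = 1 := inv_mul_cancel₀ hj₀'
    have hD1 : D 1 = 0 := by
      have h1 := hD 1 1
      simp only [mul_one, one_mul] at h1
      simpa using h1
    have hDw : Rel (fun j => D (w j)) := by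
      intro i
      have h1 : ∑ j, w j * (⇑D)^[i + 1] (y j) = 0 := hw (i + 1)
      have h2 := congrArg D (hw i)
      rw [map_zero, map_sum] at h2
      simp only [hD, Finset.sum_add_distrib] at h2
      simp only [Function.iterate_succ_apply'] at h1
      rw [h1, zero_add] at h2
      rw [← h2]
      exact Finset.sum_congr rfl fun j _ => mul_comm _ _
    have hDw0 : (fun j => D (w j)) = 0 := by
      by_contra hne
      have h1 : (Finset.univ.filter fun j => D (w j) ≠ 0).card ∈ S := ⟨_, hne, hDw, rfl⟩
      have h2 := Nat.sInf_le h1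
      have h3 : (Finset.univ.filter fun j => D (w j) ≠ 0).card <
          (Finset.univ.filter fun j => v j ≠ 0).card := by
        apply Finset.card_lt_card
        refine ⟨fun j hj => ?_, fun hsub => ?_⟩
        · rw [Finset.mem_filter] at hj ⊢
          refine ⟨hj.1, fun h0 => hj.2 ?_⟩
          simp [w, h0]
        · have h4 := hsub (Finset.mem_filter.mpr ⟨Finset.mem_univ j₀, hj₀'⟩)
          rw [Finset.mem_filter] at h4
          exact h4.2 (by rw [hw1]; exact hD1)
      omega
    have h0 := hind w (fun j => congrFun hDw0 j) (by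
      have := hw 0
      simpa using this)
    have := congrFun h0 j₀
    rw [hw1] at this
    exact one_ne_zero this
  let R : ℕ → Fin r → F := fun i j => (⇑D)^[i] (y j)
  have hspan : Submodule.span F (Set.range R) = ⊤ := by
    by_contra hne
    obtain ⟨φ, hφ0, hφ⟩ := Submodule.exists_le_ker_of_lt_top _ (lt_top_iff_ne_top.mpr hne)
    apply hφ0
    have h1 := hno (fun j => φ (Pi.single j 1)) (by
      intro i
      have h2 : φ (R i) = 0 := hφ (Submodule.subset_span ⟨i, rfl⟩)
      rw [← h2]
      conv_rhs => rw [← Finset.univ_sum_single (R i), map_sum]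
      refine Finset.sum_congr rfl fun j _ => ?_
      have h3 : (Pi.single j (R i j) : Fin r → F) = (R i j) • Pi.single j 1 := by
        ext l
        by_cases hl : l = j
        · subst hl; simp
        · simp [hl]
      rw [h3, map_smul, smul_eq_mul, mul_comm])
    apply LinearMap.pi_ext'
    intro j
    ext
    have := congrFun h1 j
    simpa using this
  obtain ⟨g, hg1, hg2, hg3⟩ := Submodule.exists_fun_fin_finrank_span_eq F (Set.range R)
  have hr : Module.finrank F (Submodule.span F (Set.range R)) = r := by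
    rw [hspan, finrank_top, Module.finrank_fintype_fun_eq_card, Fintype.card_fin]
  choose e he using hg1
  let c := finCongr hr.symm
  refine ⟨fun i => e (c i), ?_⟩
  have hli : LinearIndependent F (fun i : Fin r => g (c i)) := hg3.comp _ c.injective
  have h1 : (Matrix.of fun i j : Fin r => (⇑D)^[e (c i)] (y j)) = Matrix.of (fun i => g (c i)) := by
    ext i j
    simp only [Matrix.of_apply]
    rw [← he (c i)]
  rw [h1]
  have h2 : IsUnit (Matrix.of (fun i => g (c i))) :=
    Matrix.linearIndependent_rows_iff_isUnit.mp hli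
  exact ((Matrix.isUnit_iff_isUnit_det _).mp h2).ne_zero

/-- Independence over constants of the polynomial solutions attached to rational functions. -/
lemma ind_poly {p r : ℕ} [hpf : Fact p.Prime]
    {y : Fin r → RatFunc (ZMod p)}
    (hind : ∀ c : Fin r → RatFunc (ZMod p), (∀ j, ddx (ZMod p) (c j) = 0) →
      ∑ j, c j * y j = 0 → ∀ j, c j = 0) {K : Type*} [Field K] [CharP K p]
    (c : Fin r → K[X]) (hc : ∀ j, derivative (c j) = 0)
    (h0 : ∑ j, c j * (((y j).num * (y j).denom ^ (p - 1)).map (ZMod.castHom (dvd_refl p) K)) = 0) :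
    c = 0 := by
  classical
  set f : Fin r → (ZMod p)[X] := fun j => (y j).num * (y j).denom ^ (p - 1) with hf
  have hinj : Function.Injective (algebraMap (ZMod p)[X] (RatFunc (ZMod p))) :=
    IsFractionRing.injective _ _
  have hp : 0 < p := hpf.out.pos
  let e : Fin r → RatFunc (ZMod p) := fun j =>
    algebraMap (ZMod p)[X] (RatFunc (ZMod p)) ((y j).denom ^ p)
  have he0 : ∀ j, e j ≠ 0 := fun j => by
    simp only [e, ne_eq, map_eq_zero_iff _ hinj]
    exact pow_ne_zero _ (RatFunc.denom_ne_zero _)
  have heD : ∀ j, ddx (ZMod p) (e j) = 0 := by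
    intro j
    simp only [e]
    rw [ddx_algebraMap, derivative_pow]
    simp
  have hfy : ∀ j, algebraMap (ZMod p)[X] (RatFunc (ZMod p)) (f j) = e j * y j := by
    intro j
    have h1 := RatFunc.num_div_denom (y j)
    have h2 : algebraMap (ZMod p)[X] (RatFunc (ZMod p)) (y j).denom ≠ 0 := by
      rw [ne_eq, map_eq_zero_iff _ hinj]
      exact RatFunc.denom_ne_zero _
    have h3 : (y j).denom ^ p = (y j).denom ^ (p - 1) * (y j).denom := by
      rw [← pow_succ, Nat.sub_add_cancel hp]
    simp only [e, f]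
    rw [h3, map_mul, map_mul, map_pow]
    have h4 : algebraMap (ZMod p)[X] (RatFunc (ZMod p)) (y j).num =
        y j * algebraMap (ZMod p)[X] (RatFunc (ZMod p)) (y j).denom := by
      rw [div_eq_iff h2] at h1
      exact h1
    rw [h4]
    ring
  have hiterA : ∀ (g : (ZMod p)[X]) (i : ℕ), (⇑(ddx (ZMod p)))^[i]
      (algebraMap (ZMod p)[X] (RatFunc (ZMod p)) g) =
      algebraMap (ZMod p)[X] (RatFunc (ZMod p)) (derivative^[i] g) := by
    intro g i
    induction i with
    | zero => rfl
    | succ i ih => rw [Function.iterate_succ_apply', ih, ddx_algebraMap,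
        ← Function.iterate_succ_apply' (f := derivative)]
  obtain ⟨t, ht⟩ := exists_minor (ddxHom (ZMod p)) (ddxHom_mul (ZMod p)) (fun j => e j * y j) (by
    intro c hc hsum
    have h2 := hind (fun j => c j * e j) (fun j => by
      have h3 : ddx (ZMod p) (c j) = 0 := hc j
      rw [Derivation.leibniz, h3, heD j]; simp) (by
      rw [← hsum]
      exact Finset.sum_congr rfl fun j _ => by ring)
    ext1 j
    exact (mul_eq_zero.mp (h2 j)).resolve_right (he0 j))
  rw [ddxHom_eq] at ht
  have hW' : (Matrix.of fun i j : Fin r => derivative^[t i] (f j)).det ≠ 0 := by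
    intro h1
    apply ht
    have h2 : (Matrix.of fun i j : Fin r => (⇑(ddx (ZMod p)))^[t i] (e j * y j)) =
        (algebraMap (ZMod p)[X] (RatFunc (ZMod p))).mapMatrix
          (Matrix.of fun i j : Fin r => derivative^[t i] (f j)) := by
      ext i j
      simp only [Matrix.of_apply, RingHom.mapMatrix_apply, Matrix.map_apply]
      rw [← hiterA, hfy]
    rw [h2, ← RingHom.map_det, h1, map_zero]
  have hσ : Function.Injective (ZMod.castHom (dvd_refl p) K) := (ZMod.castHom (dvd_refl p) K).injective
  have hWK : (Matrix.of fun i j : Fin r => derivative^[t i]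
      ((f j).map (ZMod.castHom (dvd_refl p) K))).det ≠ 0 := by
    have h2 : (Matrix.of fun i j : Fin r => derivative^[t i]
        ((f j).map (ZMod.castHom (dvd_refl p) K))) =
        (mapRingHom (ZMod.castHom (dvd_refl p) K)).mapMatrix
          (Matrix.of fun i j : Fin r => derivative^[t i] (f j)) := by
      ext1 i j
      simp only [Matrix.of_apply, RingHom.mapMatrix_apply, Matrix.map_apply, coe_mapRingHom]
      rw [Polynomial.iterate_derivative_map]
    rw [h2, ← RingHom.map_det]
    intro h1
    exact hW' ((Polynomial.map_eq_zero_iff hσ).mp h1)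
  apply Matrix.eq_zero_of_mulVec_eq_zero hWK
  ext1 i
  have h1 : ∀ (a g : K[X]) (i : ℕ), derivative a = 0 →
      derivative^[i] (a * g) = a * derivative^[i] g := by
    intro a g i ha
    induction i generalizing g with
    | zero => rfl
    | succ i ih =>
      rw [Function.iterate_succ_apply, derivative_mul, ha, zero_mul, zero_add, ih,
        ← Function.iterate_succ_apply]
  have h2 := congrArg (derivative^[t i]) h0
  rw [Polynomial.iterate_derivative_sum, Polynomial.iterate_derivative_zero] at h2
  simp only [Matrix.mulVec, dotProduct, Matrix.of_apply, Pi.zero_apply]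
  rw [← h2]
  refine Finset.sum_congr rfl fun j _ => ?_
  rw [h1 _ _ _ (hc j)]
  ring

end Pool.Agent.X98.PC
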