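import Pool.Agent.X98.PC.Few

set_option autoImplicit false

open Polynomial

namespace Pool.Agent.X98.PC

open Pool.Agent.W432.PC (T Tc T_eq T_monic T_ne T_natDegree Tc_monic Tc_eval_ne Tc_eval_eq_zero
  T_eval_ne T_map Tc_map ddx ddx_algebraMap)
open Pool.Agent.W432.WB
open Pool.Agent.W432.HK

/-- Choosing linearly independent elements. -/
lemma choose_family {F : Type*} [Field F] (V : Submodule F F[X]) {n : ℕ} (s : Finset (Fin n))
    (hs : s.card ≤ Module.finrank F V) : ∃ Z : Fin n → F[X], (∀ j ∈ s, Z j ∈ V) ∧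
      ∀ c : Fin n → F, ∑ j ∈ s, C (c j) * Z j = 0 → ∀ j ∈ s, c j = 0 := by
  classical
  obtain ⟨f, hf⟩ := exists_linearIndependent_of_le_finrank hs
  let e := s.equivFin
  refine ⟨fun j => if h : j ∈ s then (f (e ⟨j, h⟩) : F[X]) else 0, fun j hj => ?_, fun c hc j hj => ?_⟩
  · simp only [dif_pos hj]
    exact (f _).2
  · rw [Fintype.linearIndependent_iff] at hf
    have h1 := hf (fun i => c (e.symm i).1) (by
      apply Subtype.ext
      rw [AddSubmonoidClass.coe_finsetSum]
      simp only [SetLike.val_smul, ZeroMemClass.coe_zero]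
      rw [← hc, ← Finset.sum_coe_sort s, ← e.symm.sum_comp]
      refine Finset.sum_congr rfl fun i _ => ?_
      simp only [dif_pos (e.symm i).2, smul_eq_C_mul]
      congr 3
      simp)
    have h2 := h1 (e ⟨j, hj⟩)
    simpa using h2

/-- **Solutions with few zeros.** -/
theorem few_zeros {m n : ℕ} (hm : 0 < m) {b : Fin (n + 1) → ℤ[X]} {α : Fin m → AlgebraicClosure ℚ}
    {lam : Fin m → Fin n → ℚ} {phi : Fin n → ℚ} (h : FuchsianWith b α lam phi) {N₀ : ℕ}
    (hN : CommonDen lam phi N₀) :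
    ∃ C : ℕ, ∀ (p : ℕ) [Fact p.Prime] (r : ℕ) (y : Fin r → RatFunc (ZMod p)),
      (∀ j, IsSol (ZMod p) b (y j)) →
      (∀ c : Fin r → RatFunc (ZMod p), (∀ j, ddx (ZMod p) (c j) = 0) →
        ∑ j, c j * y j = 0 → ∀ j, c j = 0) →
      (∀ j, N₀ * ((n - 1) * nz p (y j)) + C < p) → RootSols b r := by
  classical
  obtain ⟨hb, Q, hF, hE⟩ := h
  obtain ⟨hN₀, ha, ha'⟩ := hN
  choose a ha using ha
  choose a' ha' using ha'
  choose rep hrep1 hrep2 hrep3 using fun j => exists_reps (lam j)
  choose t ht using hrep2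
  have hAex : ∀ j l, ∃ A : ℤ, (N₀ : ℚ) * rep j l = A := by
    intro j l
    obtain ⟨l', hl'⟩ := hrep1 j l
    exact ⟨a j l', by rw [hl', ha]⟩
  choose A hA using hAex
  have hAa : ∀ j l, a j l = A j l + N₀ * t j l := by
    intro j l
    have h1 := ha j l
    rw [ht j l, mul_add, hA] at h1
    have h2 : ((A j l + N₀ * t j l : ℤ) : ℚ) = ((a j l : ℤ) : ℚ) := by
      push_cast
      exact h1
    exact (by exact_mod_cast h2 : A j l + N₀ * t j l = a j l).symm
  have hNQ : (N₀ : ℚ) ≠ 0 := by exact_mod_cast hN₀.ne'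
  obtain ⟨R, _, _, ι, α', Q', hι, hα', hQ', hS₀, hred⟩ := reduce' hb hF
    (Finset.univ.image fun x : Fin m × Fin n => ((rep x.1 x.2 : ℚ) : AlgebraicClosure ℚ))
  have hρex : ∀ j l, ∃ r : R, ι r = ((rep j l : ℚ) : AlgebraicClosure ℚ) := fun j l =>
    hS₀ _ (Finset.mem_image.mpr ⟨(j, l), Finset.mem_univ _, rfl⟩)
  choose ρ hρ using hρex
  set δ : ℕ := ∑ j, ∑ l, (A j l).natAbs + ∑ l, (a' l).natAbs with hδ
  choose I hI g hg hgood using fun κ : Fin m → Fin n =>
    spec ι hι α' (fun i => ρ i (κ i)) Q' δ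
  obtain ⟨P₀, hP₀⟩ := hred (∏ κ, g κ) (Finset.prod_ne_zero_iff.mpr fun κ _ => hg κ)
  refine ⟨P₀ + (b (Fin.last n)).leadingCoeff.natAbs + (N₀ * (∑ j, ∑ l, t j l) +
    ∑ j, ∑ l, (A j l).natAbs + ∑ l, (a' l).natAbs + N₀ + n), fun p hpf r y hy hind hlt => ?_⟩
  rcases Nat.eq_zero_or_pos r with hn0 | hn0
  · subst hn0
    exact rootSols_of_classes b α Q hF (fun j => j.elim0) (fun j => j.elim0) (fun j => j.elim0)
      (fun j => j.elim0) (fun _ _ _ j => j.elim0)
  have hlt0 := hlt ⟨0, hn0⟩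
  obtain ⟨K, _, _, _, φ, hφg, hinj, hsol⟩ := hP₀ p (by omega) hpf.out
  have hφκ : ∀ κ, φ (g κ) ≠ 0 := by
    intro κ h0
    apply hφg
    rw [map_prod]
    exact Finset.prod_eq_zero (Finset.mem_univ κ) h0
  have hNp : N₀ < p := by omega
  have hNK : (N₀ : K) ≠ 0 := by
    intro h0
    have := Nat.le_of_dvd hN₀ ((CharP.cast_eq_zero_iff K p _).mp h0)
    omega
  -- the values of the exponents in `K`
  have hρK : ∀ j l, φ (ρ j l) = ((eps p N₀ (A j l) : ℕ) : K) := by
    intro j l
    have h1 : (N₀ : R) * ρ j l = ((A j l : ℤ) : R) := by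
      apply hι
      rw [map_mul, map_natCast, hρ, map_intCast]
      have := congrArg (fun q : ℚ => (q : AlgebraicClosure ℚ)) (hA j l)
      push_cast at this
      exact this
    have h2 := congrArg φ h1
    rw [map_mul, map_natCast, map_intCast] at h2
    apply mul_left_cancel₀ hNK
    rw [h2, eps_spec hN₀ hNp]
  -- the polynomial solutions
  set σ := ZMod.castHom (dvd_refl p) K with hσdef
  have hσ : Function.Injective σ := σ.injective
  have hcomp : σ.comp (Int.castRingHom (ZMod p)) = Int.castRingHom K := RingHom.ext_int _ _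
  have hy0 : ∀ j, y j ≠ 0 := by
    intro j hj
    have h1 := hind (Pi.single j 1) (fun i => by
      by_cases hij : i = j
      · subst hij; simp
      · simp [hij]) (by
      rw [Finset.sum_eq_single j]
      · rw [hj, mul_zero]
      · intro i _ hij
        simp [hij]
      · intro h; exact absurd (Finset.mem_univ j) h) j
    simp at h1
  set f : Fin r → K[X] := fun j => ((y j).num * (y j).denom ^ (p - 1)).map σ with hf
  have hf0' : ∀ j, (y j).num * (y j).denom ^ (p - 1) ≠ 0 := fun j =>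
    mul_ne_zero (fun h => hy0 j (RatFunc.num_eq_zero_iff.mp h))
      (pow_ne_zero _ (RatFunc.denom_ne_zero _))
  have hf0 : ∀ j, f j ≠ 0 := fun j => (Polynomial.map_ne_zero_iff hσ).mpr (hf0' j)
  have hinjp : Function.Injective (algebraMap (ZMod p)[X] (RatFunc (ZMod p))) :=
    IsFractionRing.injective _ _
  have hppos : 0 < p := hpf.out.pos
  have hfsol : ∀ j, SolQ (fun j => φ (α' j)) (fun k => (Q' k).map φ) (f j) := by
    intro j
    apply hsol
    have h1 : ∑ i : Fin (n + 1), (b i).map (Int.castRingHom (ZMod p)) *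
        derivative^[(i : ℕ)] ((y j).num * (y j).denom ^ (p - 1)) = 0 := by
      rw [← isSol_algebraMap]
      have h2 : algebraMap (ZMod p)[X] (RatFunc (ZMod p)) ((y j).num * (y j).denom ^ (p - 1)) =
          algebraMap (ZMod p)[X] (RatFunc (ZMod p)) ((y j).denom ^ p) * y j := by
        have h3 := RatFunc.num_div_denom (y j)
        have h4 : algebraMap (ZMod p)[X] (RatFunc (ZMod p)) (y j).denom ≠ 0 := by
          rw [ne_eq, map_eq_zero_iff _ hinjp]
          exact RatFunc.denom_ne_zero _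
        have h5 : (y j).denom ^ p = (y j).denom ^ (p - 1) * (y j).denom := by
          rw [← pow_succ, Nat.sub_add_cancel hppos]
        rw [div_eq_iff h4] at h3
        rw [h5, map_mul, map_mul, map_pow, h3]
        ring
      rw [h2]
      refine (hy j).const_mul ?_
      rw [ddx_algebraMap, derivative_pow]
      simp
    have h2 := congrArg (Polynomial.map σ) h1
    simp only [Polynomial.map_sum, Polynomial.map_mul, Polynomial.map_map, hcomp,
      Polynomial.map_zero] at h2
    rw [← h2]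
    refine Finset.sum_congr rfl fun i _ => ?_
    rw [hf]
    simp only
    rw [Polynomial.iterate_derivative_map]
  have hfind : ∀ c : Fin r → K[X], (∀ j, derivative (c j) = 0) → ∑ j, c j * f j = 0 → c = 0 :=
    fun c hc h0 => ind_poly hind c hc h0
  -- decomposition
  choose κ w u z hw hu hz hrel htw hzd using fun j =>
    decomp hm hι hα' hQ' hF.last hF.deg hE hinj hN₀ ha ha' hAa (hf0 j) (hfsol j)
      (ncard_le (K := K) (hy0 j) (fun x => ∀ i, x ≠ φ (α' i))) (by
        have := hlt j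
        omega)
  -- classes
  let cl : Fin r → Fin m → ℚ := fun j i => rep i (κ j i)
  have hρeq : ∀ i l l', rep i l = rep i l' → ρ i l = ρ i l' := by
    intro i l l' h
    apply hι
    rw [hρ, hρ, h]
  have hAeq : ∀ i l l', rep i l = rep i l' → A i l = A i l' := by
    intro i l l' h
    have h1 := hA i l
    rw [h, hA i l'] at h1
    exact_mod_cast h1.symm
  have hcount : ∀ j₀, (Finset.univ.filter fun j => cl j = cl j₀).card ≤
      Module.finrank (AlgebraicClosure ℚ)
        (Vsp α (fun i => ((cl j₀ i : ℚ) : AlgebraicClosure ℚ)) Q δ) := by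
    intro j₀
    have h1 := hI (κ j₀)
    have hαe : (fun j => ι (α' j)) = α := funext hα'
    have hQe : (fun k => (Q' k).map ι) = Q := funext hQ'
    have hρe : (fun i => ι (ρ i (κ j₀ i))) = fun i => ((cl j₀ i : ℚ) : AlgebraicClosure ℚ) :=
      funext fun i => hρ i _
    rw [hαe, hQe, hρe] at h1
    refine le_trans ?_ h1
    refine count_class (p := p) (z := z) hfind hw hu
      (∏ i, (X - C (φ (α' i))) ^ eps p N₀ (A i (κ j₀ i))) _ (fun j hj => ?_) (I (κ j₀))
      (Vsp (fun j => φ (α' j)) (fun i => φ (ρ i (κ j₀ i))) (fun k => (Q' k).map φ) δ)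
      (fun j hj => ?_) (fun v hv hvi => ?_)
    · have hcl : cl j = cl j₀ := (Finset.mem_filter.mp hj).2
      rw [hrel j]
      congr 2
      refine Finset.prod_congr rfl fun i _ => ?_
      rw [hAeq i (κ j i) (κ j₀ i) (congrFun hcl i)]
    · have hcl : cl j = cl j₀ := (Finset.mem_filter.mp hj).2
      rw [mem_Vsp]
      refine ⟨hzd j, ?_⟩
      have h2 : (fun i => φ (ρ i (κ j₀ i))) =
          fun i => ((eps p N₀ (A i (κ j i)) : ℕ) : K) := by
        ext1 i
        rw [← hρeq i (κ j i) (κ j₀ i) (congrFun hcl i), hρK]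
      rw [h2]
      exact htw j
    · rw [mem_Vsp] at hv
      exact hgood (κ j₀) K φ (hφκ _) v hv.1 hv.2 hvi
  -- the family in characteristic zero
  have hfam : ∀ ν : Fin m → ℚ, ∃ Z : Fin r → (AlgebraicClosure ℚ)[X],
      (∀ j ∈ Finset.univ.filter (fun j => cl j = ν), Z j ∈
        Vsp α (fun i => ((ν i : ℚ) : AlgebraicClosure ℚ)) Q δ) ∧
      ∀ c : Fin r → AlgebraicClosure ℚ,
        ∑ j ∈ Finset.univ.filter (fun j => cl j = ν), C (c j) * Z j = 0 →
          ∀ j ∈ Finset.univ.filter (fun j => cl j = ν), c j = 0 := by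
    intro ν
    apply choose_family
    by_cases hν : ∃ j₀, cl j₀ = ν
    · obtain ⟨j₀, hj₀⟩ := hν
      rw [← hj₀]
      exact hcount j₀
    · push Not at hν
      rw [Finset.filter_eq_empty_iff.mpr fun j _ => hν j]
      exact Nat.zero_le _
  choose Z hZ1 hZ2 using hfam
  refine rootSols_of_classes b α Q hF cl (fun j => Z (cl j) j) (fun s s' hss => ?_) (fun s => ?_)
    (fun ν c hc s hs => ?_)
  · obtain ⟨i, hi⟩ := Function.ne_iff.mp hss
    exact ⟨i, fun z hz => hi (hrep3 i _ _ z hz)⟩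
  · exact (mem_Vsp.mp (hZ1 (cl s) s (Finset.mem_filter.mpr ⟨Finset.mem_univ _, rfl⟩))).2
  · refine hZ2 ν c ?_ s (Finset.mem_filter.mpr ⟨Finset.mem_univ _, hs⟩)
    rw [← hc]
    refine Finset.sum_congr rfl fun j hj => ?_
    rw [(Finset.mem_filter.mp hj).2]

end Pool.Agent.X98.PC
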