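import Pool.Agent.X98.PC.ExpRat

set_option autoImplicit false

open Polynomial

namespace Pool.Agent.X98.PC

open Pool.Agent.W432.PC (T Tc T_eq T_monic T_ne T_natDegree Tc_monic Tc_eval_ne T_map Tc_map
  prod_dvd_of_dvd natDegree_prod_pow)
open Pool.Agent.W432.WB

section tw

variable {R S : Type*} [CommRing R] [CommRing S] {m n : ℕ}

/-- The polynomials `tw k z` with `∂ ^ k (E z) = E T ^ (-k) tw k z` when `T E' = (∑ ν j Tc j) E`. -/
noncomputable def tw (a ν : Fin m → R) : ℕ → R[X] →ₗ[R] R[X]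
  | 0 => LinearMap.id
  | k + 1 => (LinearMap.mulLeft R (T a)).comp (derivative.comp (tw a ν k)) +
      (LinearMap.mulLeft R (∑ j, C (ν j) * Tc a j - (k : R[X]) * derivative (T a))).comp (tw a ν k)

lemma tw_zero (a ν : Fin m → R) (z : R[X]) : tw a ν 0 z = z := rfl

lemma tw_succ (a ν : Fin m → R) (k : ℕ) (z : R[X]) : tw a ν (k + 1) z =
    T a * derivative (tw a ν k z) +
      (∑ j, C (ν j) * Tc a j - (k : R[X]) * derivative (T a)) * tw a ν k z := rfl

lemma tw_map (φ : R →+* S) (a ν : Fin m → R) (k : ℕ) (z : R[X]) :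
    (tw a ν k z).map φ = tw (fun j => φ (a j)) (fun j => φ (ν j)) k (z.map φ) := by
  induction k with
  | zero => simp [tw_zero]
  | succ k ih =>
    rw [tw_succ, tw_succ, Polynomial.map_add, Polynomial.map_mul, Polynomial.map_mul,
      ← derivative_map, ih, T_map, Polynomial.map_sub, Polynomial.map_mul, Polynomial.map_natCast,
      ← derivative_map, T_map, Polynomial.map_sum]
    congr 3
    refine Finset.sum_congr rfl fun j _ => ?_
    rw [Polynomial.map_mul, map_C, Tc_map]

/-- The twisted operator `∑ Q k * tw k z`. -/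
noncomputable def twL (a ν : Fin m → R) (Q : Fin (n + 1) → R[X]) : R[X] →ₗ[R] R[X] :=
  ∑ k : Fin (n + 1), (LinearMap.mulLeft R (Q k)).comp (tw a ν k)

lemma twL_apply (a ν : Fin m → R) (Q : Fin (n + 1) → R[X]) (z : R[X]) :
    twL a ν Q z = ∑ k : Fin (n + 1), Q k * tw a ν k z := by
  simp [twL, LinearMap.sum_apply]

lemma twL_map (φ : R →+* S) (a ν : Fin m → R) (Q : Fin (n + 1) → R[X]) (z : R[X]) :
    (twL a ν Q z).map φ =
      twL (fun j => φ (a j)) (fun j => φ (ν j)) (fun k => (Q k).map φ) (z.map φ) := by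
  rw [twL_apply, twL_apply, Polynomial.map_sum]
  exact Finset.sum_congr rfl fun k _ => by rw [Polynomial.map_mul, tw_map]

end tw

section field

variable {K : Type*} [Field K] {m n : ℕ}

lemma twist_eq {F : Type*} [Field F] [CharZero F] (α : Fin m → F) (ν : Fin m → ℚ) (k : ℕ)
    (z : F[X]) : twist α ν k z = tw α (fun j => ((ν j : ℚ) : F)) k z := by
  induction k with
  | zero => rfl
  | succ k ih => rw [twist, tw_succ, ih]

lemma derivative_E (a : Fin m → K) (e : Fin m → ℕ) :
    T a * derivative (∏ j, (X - C (a j)) ^ e j) =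
      (∑ j, C ((e j : ℕ) : K) * Tc a j) * ∏ j, (X - C (a j)) ^ e j := by
  classical
  have key : ∀ s : Finset (Fin m), T a * derivative (∏ j ∈ s, (X - C (a j)) ^ e j) =
      (∑ j ∈ s, C ((e j : ℕ) : K) * Tc a j) * ∏ j ∈ s, (X - C (a j)) ^ e j := by
    intro s
    induction s using Finset.induction_on with
    | empty => simp
    | insert i s hi ih =>
      rw [Finset.prod_insert hi, Finset.sum_insert hi, derivative_mul]
      have h1 : T a * derivative ((X - C (a i)) ^ e i) =
          (C ((e i : ℕ) : K) * Tc a i) * (X - C (a i)) ^ e i := by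
        rw [derivative_pow, T_eq i]
        rcases Nat.eq_zero_or_pos (e i) with h0 | h0
        · rw [h0]; simp
        · obtain ⟨t, ht⟩ : ∃ t, e i = t + 1 := ⟨e i - 1, by omega⟩
          rw [ht, Nat.add_sub_cancel]
          simp only [derivative_sub, derivative_X, derivative_C, sub_zero, mul_one]
          ring
      rw [mul_add, ← mul_assoc, h1]
      linear_combination (X - C (a i)) ^ e i * ih
  exact key _

lemma tw_E (a : Fin m → K) (e : Fin m → ℕ) (z : K[X]) (k : ℕ) :
    T a ^ k * derivative^[k] ((∏ j, (X - C (a j)) ^ e j) * z) =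
      (∏ j, (X - C (a j)) ^ e j) * tw a (fun j => ((e j : ℕ) : K)) k z := by
  set E := ∏ j, (X - C (a j)) ^ e j with hE
  induction k with
  | zero => simp [tw_zero]
  | succ k ih =>
    rw [Function.iterate_succ_apply', tw_succ]
    set Y := derivative^[k] (E * z) with hY
    set W := tw a (fun j => ((e j : ℕ) : K)) k z with hW
    have h1 := congrArg (fun q => T a * derivative q) ih
    simp only [derivative_mul] at h1
    have h2 : T a * derivative (T a ^ k) = (k : K[X]) * derivative (T a) * T a ^ k := by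
      rw [derivative_pow]
      rcases k with _ | k
      · simp
      · rw [Nat.add_sub_cancel, C_eq_natCast]; ring
    have h3 := derivative_E a e
    rw [← hE] at h3
    linear_combination h1 - Y * h2 + W * h3 + (-((k : K[X]) * derivative (T a))) * ih

/-- The twisted equation for the cofactor of a solution. -/
lemma twL_of_sol {a : Fin m → K} {Q : Fin (n + 1) → K[X]} {e : Fin m → ℕ} {z : K[X]}
    (h : ∑ k : Fin (n + 1), Q k * (T a ^ (k : ℕ) *
      derivative^[(k : ℕ)] ((∏ j, (X - C (a j)) ^ e j) * z)) = 0) :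
    twL a (fun j => ((e j : ℕ) : K)) Q z = 0 := by
  rw [twL_apply]
  have hE : (∏ j, (X - C (a j)) ^ e j) ≠ 0 :=
    Finset.prod_ne_zero_iff.mpr fun j _ => pow_ne_zero _ (X_sub_C_ne_zero _)
  apply mul_left_cancel₀ hE
  rw [mul_zero, Finset.mul_sum, ← h]
  refine Finset.sum_congr rfl fun k _ => ?_
  rw [tw_E]
  ring

/-- Reducing the orders modulo `p`. -/
lemma exists_reduced [DecidableEq K] {p : ℕ} (hp : 0 < p) (f : K[X]) (hf : f ≠ 0) :
    ∃ u g : K[X], u ≠ 0 ∧ f = u ^ p * g ∧ ∀ x, g.rootMultiplicity x < p := by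
  induction hd : f.natDegree using Nat.strong_induction_on generalizing f with
  | _ d ih =>
    subst hd
    by_cases h : ∀ x, f.rootMultiplicity x < p
    · exact ⟨1, f, one_ne_zero, by simp, h⟩
    · push Not at h
      obtain ⟨x, hx⟩ := h
      have h1 : (X - C x) ^ p ∣ f := (le_rootMultiplicity_iff hf).mp hx
      obtain ⟨f₁, hf₁⟩ := h1
      have hf10 : f₁ ≠ 0 := by
        rintro rfl
        rw [mul_zero] at hf₁
        exact hf hf₁
      have hdeg : f₁.natDegree < f.natDegree := by
        rw [hf₁, natDegree_mul (pow_ne_zero _ (X_sub_C_ne_zero _)) hf10, natDegree_pow,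
          natDegree_X_sub_C]
        omega
      obtain ⟨u, g, hu, hg, hlt⟩ := ih _ hdeg f₁ hf10 rfl
      refine ⟨(X - C x) * u, g, mul_ne_zero (X_sub_C_ne_zero _) hu, ?_, hlt⟩
      conv_lhs => rw [hf₁, hg]
      rw [mul_pow]
      ring

/-- Splitting off the zeros at the points `a j`. -/
lemma split_sing {a : Fin m → K} (ha : Function.Injective a) {g : K[X]} (hg : g ≠ 0) :
    ∃ z : K[X], z ≠ 0 ∧ g = (∏ j, (X - C (a j)) ^ g.rootMultiplicity (a j)) * z ∧
      (∀ j, z.eval (a j) ≠ 0) ∧ ∀ x, (∀ j, x ≠ a j) → z.rootMultiplicity x = g.rootMultiplicity x := by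
  obtain ⟨z, hz⟩ := prod_dvd_of_dvd ha (fun j => g.rootMultiplicity (a j)) (w := g)
    fun j => pow_rootMultiplicity_dvd g (a j)
  have hz0 : z ≠ 0 := by
    rintro rfl
    rw [mul_zero] at hz
    exact hg hz
  refine ⟨z, hz0, hz, fun j h0 => ?_, fun x hx => ?_⟩
  · obtain ⟨w, hw⟩ := dvd_iff_isRoot.mpr h0
    have h1 : (X - C (a j)) ^ (g.rootMultiplicity (a j) + 1) ∣ g := by
      have h2 : (X - C (a j)) ^ g.rootMultiplicity (a j) ∣
          ∏ j, (X - C (a j)) ^ g.rootMultiplicity (a j) :=
        Finset.dvd_prod_of_mem (fun j => (X - C (a j)) ^ g.rootMultiplicity (a j))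
          (Finset.mem_univ j)
      have h3 : (X - C (a j)) ^ g.rootMultiplicity (a j) * (X - C (a j)) ∣
          (∏ j, (X - C (a j)) ^ g.rootMultiplicity (a j)) * z := mul_dvd_mul h2 ⟨w, hw⟩
      rw [pow_succ]
      exact h3.trans (dvd_of_eq hz.symm)
    have h2 := (le_rootMultiplicity_iff hg).mpr h1
    omega
  · have hE0 : (∏ j, (X - C (a j)) ^ g.rootMultiplicity (a j)).eval x ≠ 0 := by
      rw [eval_prod]
      refine Finset.prod_ne_zero_iff.mpr fun j _ => ?_
      rw [eval_pow, eval_sub, eval_X, eval_C]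
      exact pow_ne_zero _ (sub_ne_zero.mpr (hx j))
    conv_rhs => rw [hz]
    rw [rootMultiplicity_mul (by rw [← hz]; exact hg), rootMultiplicity_eq_zero hE0, zero_add]

end field

end Pool.Agent.X98.PC
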